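import Pool.Agent.Lib.TWX.Exch

/-!
# TANK W, exchange of tight bases: perfect base fields

`P ≤ M`, `P` perfect, `x` tight of level `r` in `M`: then `v (x 0 - a) ≤ r` for all `a` algebraic
over `P` (`far_of_perf`); so the theorems of `TWX.Exch` hold for every perfect `P`, in particular
for `P = k` (`far_of_bot`).
-/

set_option autoImplicit false

open Polynomial IntermediateField

namespace Pool.Agent.TWX

open Pool.Agent.H15JM (RVal)
open Pool.Agent.LU1 (VPos adj)
open Pool.Agent.D2 (Ctx0)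
open Pool.Agent.D2P (clI mem_clI)
open Pool.Agent.TWM
open Pool.Agent.TWC (Tgt EW root_pow_add ge_pow_iff)

universe u

variable {k Ω : Type u} [Field k] [Field Ω] [Algebra k Ω] {v : RVal Ω}
  {M P : IntermediateField k Ω} {p : ℕ} [hp : Fact p.Prime] [CharP k p] [CharP Ω p]
  [IsAlgClosed Ω] {x : ℕ → Ω} {r : ℝ}

omit [CharP k p] [IsAlgClosed Ω] in
/-- Polynomials over a perfect field are `p ^ N`-th powers, up to Frobenius. -/
theorem exists_root_PI (hP : ∀ a ∈ P, ∃ b ∈ P, b ^ p = a) (N : ℕ) {T : Polynomial Ω}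
    (hT : T ∈ PI P) : ∃ S ∈ PI P, S.map (iterateFrobenius Ω p N) = T := by
  have h1 : ∀ a ∈ P, ∃ b ∈ P, b ^ p ^ N = a := by
    induction N with
    | zero => exact fun a ha => ⟨a, ha, by rw [pow_zero, pow_one]⟩
    | succ N ih =>
      intro a ha
      obtain ⟨b, hb, rfl⟩ := hP a ha
      obtain ⟨c, hc, rfl⟩ := ih b hb
      exact ⟨c, hc, by rw [pow_succ, pow_mul]⟩
  choose! g hg hg' using h1
  refine ⟨∑ i ∈ Finset.range (T.natDegree + 1), C (g (T.coeff i)) * X ^ i,
    sum_mem fun i _ => mul_mem (C_mem_PI (hg _ (hT i))) (pow_mem X_mem_PI _), ?_⟩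
  rw [Polynomial.map_sum]
  conv_rhs => rw [T.as_sum_range_C_mul_X_pow]
  refine Finset.sum_congr rfl fun i _ => ?_
  rw [Polynomial.map_mul, map_C, Polynomial.map_pow, map_X, iterateFrobenius_def, hg' _ (hT i)]

/-- The jets of polynomials over a perfect field. -/
theorem jets_perf (h0 : Ctx0 k v) (hc : CompleteV v) (hx : Tgt p v M x r) (hPM : P ≤ M)
    (hP : ∀ a ∈ P, ∃ b ∈ P, b ^ p = a) {T : Polynomial Ω} (hT : T ∈ PI P) {c : ℝ}
    (hb : v.Ge c (T.eval (x 0))) (n : ℕ) : v.Ge (c - n * r) ((taylor (x 0) T).coeff n) := by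
  obtain ⟨N, hN⟩ : ∃ N, n < p ^ N := ⟨n, Nat.lt_pow_self hp.out.one_lt⟩
  obtain ⟨S, hS, rfl⟩ := exists_root_PI hP N hT
  have hx0 : x N ^ p ^ N = x 0 := by
    have := root_pow_add hx.root 0 N
    rwa [zero_add] at this
  have hp0 : (0 : ℝ) < (p : ℝ) ^ N := pow_pos (by exact_mod_cast hp.out.pos) N
  have hp1 : (0 : ℝ) < p := by exact_mod_cast hp.out.pos
  have e1 : (S.map (iterateFrobenius Ω p N)).eval (x 0) = (S.eval (x N)) ^ p ^ N := by
    rw [← hx0, ← iterateFrobenius_def, ← iterateFrobenius_def, eval_map, eval₂_at_apply]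
  have e2 : taylor (x 0) (S.map (iterateFrobenius Ω p N)) =
      (taylor (x N) S).map (iterateFrobenius Ω p N) := by
    rw [taylor_apply, taylor_apply, Polynomial.map_comp, Polynomial.map_add, map_X, map_C,
      iterateFrobenius_def, hx0]
  have h1 : v.Ge (c / p ^ N) (S.eval (x N)) := by
    rw [← ge_pow_iff (N := p ^ N) (pow_pos hp.out.pos N)]
    push_cast
    rw [mul_div_cancel₀ _ hp0.ne', ← e1]
    exact hb
  have h2 := hx.snd.norm h0 hc N S (PI_mono hPM hS) n hN _ h1
  have h3 := hx.snd.wt_le N n hN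
  have h4 : (n : ℝ) * (p * (r / p ^ 1)) / p ^ N = n * r / p ^ N := by
    rw [pow_one, mul_div_cancel₀ _ hp1.ne']
  rw [h4] at h3
  have h5 : v.Ge ((c - n * r) / p ^ N) ((taylor (x N) S).coeff n) := h2.mono (by
    rw [sub_div]
    linarith)
  rw [e2, coeff_map, iterateFrobenius_def]
  have h6 := (ge_pow_iff (v := v) (N := p ^ N) (pow_pos hp.out.pos N)).2 h5
  push_cast at h6
  rwa [mul_div_cancel₀ _ hp0.ne'] at h6

/-- **The distance of a tight element to the algebraic closure of a perfect field.** -/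
theorem far_of_perf (h0 : Ctx0 k v) (hc : CompleteV v) (hx : Tgt p v M x r) (hPM : P ≤ M)
    (hP : ∀ a ∈ P, ∃ b ∈ P, b ^ p = a) :
    ∀ a : Ω, IsAlgebraic P a → x 0 ≠ a ∧ v (x 0 - a) ≤ r := by
  intro a ha
  by_contra hno
  have hgt : Gt v r (a - x 0) := by
    intro h1
    by_contra h2
    refine hno ⟨fun h3 => h1 (by rw [h3, sub_self]), ?_⟩
    rw [← neg_sub, v.map_neg _ h1]
    exact not_lt.1 h2
  set T : Polynomial Ω := (minpoly P a).map (algebraMap P Ω) with hTdef
  have hT : T ∈ PI P := fun i => by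
    rw [hTdef, coeff_map]
    exact SetLike.coe_mem _
  have hT0 : T ≠ 0 := (Polynomial.map_ne_zero_iff (algebraMap P Ω).injective).2
    (minpoly.ne_zero ha.isIntegral)
  have hTa : T.eval a = 0 := by
    rw [hTdef, eval_map_algebraMap]
    exact minpoly.aeval P a
  by_cases hTx : T.eval (x 0) = 0
  · apply hT0
    refine (taylor_eq_zero (x 0) T).1 ?_
    ext n
    rw [coeff_zero]
    refine eq_zero_of_ge (v := v) fun c => ?_
    have := jets_perf h0 hc hx hPM hP hT (c := c + n * r) (by rw [hTx]; exact RVal.Ge.zero) n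
    rwa [add_sub_cancel_right] at this
  · have h1 : Gt v (v (T.eval (x 0))) (T.eval a - T.eval (x 0)) := by
      have e : T.eval a - T.eval (x 0) = ∑ n ∈ Finset.Icc 1 T.natDegree,
          (taylor (x 0) T).coeff n * (a - x 0) ^ n := by
        rw [eval_eq_taylor T (x 0) a, eval_eq_sum_range, natDegree_taylor,
          Finset.sum_range_eq_add_Ico _ (Nat.succ_pos _), taylor_coeff_zero, pow_zero, mul_one,
          add_sub_cancel_left]
        rfl
      rw [e]
      refine Gt.sum _ _ fun n hn => ?_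
      have hn1 : 1 ≤ n := (Finset.mem_Icc.1 hn).1
      have h2 := jets_perf h0 hc hx hPM hP hT (RVal.ge_self (T.eval (x 0))) n
      have h3 : Gt v ((n : ℝ) * r) ((a - x 0) ^ n) := by
        intro h4
        have h5 : a - x 0 ≠ 0 := fun h6 => h4 (by rw [h6, zero_pow (by omega)])
        rw [v.map_pow h5]
        exact mul_lt_mul_of_pos_left (hgt h5) (by exact_mod_cast hn1)
      rw [mul_comm ((taylor (x 0) T).coeff n)]
      exact (h3.mul_ge h2).mono (le_of_eq (by ring))
    rw [hTa, zero_sub] at h1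
    have h2 := h1 (neg_ne_zero.2 hTx)
    rw [v.map_neg _ hTx] at h2
    exact lt_irrefl _ h2

/-- The case of `P = k`. -/
theorem far_of_bot [PerfectRing k p] (h0 : Ctx0 k v) (hc : CompleteV v) (hx : Tgt p v M x r) :
    ∀ a : Ω, IsAlgebraic (⊥ : IntermediateField k Ω) a → x 0 ≠ a ∧ v (x 0 - a) ≤ r := by
  refine far_of_perf h0 hc hx bot_le ?_
  intro a ha
  obtain ⟨c, rfl⟩ := IntermediateField.mem_bot.1 ha
  obtain ⟨d, hd⟩ := surjective_frobenius k p c
  refine ⟨algebraMap k Ω d, IntermediateField.mem_bot.2 ⟨d, rfl⟩, ?_⟩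
  rw [← map_pow, ← frobenius_def, hd]

end Pool.Agent.TWX
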