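import Pool.Agent.Lib.TWC.Lv0M
import Pool.Agent.Lib.TWX.Far

/-!
# TANK W, class I: `TT` is isogeny invariant

* `tow_down`: towers with the first radius `0` over a perfect base, `T ^ p ≤ K ≤ T`;
* `TT.down`: `M ^ p ≤ L ≤ M`, `TT` for `M` gives `TT` for `L`;
* `TT.isog`: `K ≤ L`, `L ^ (p ^ e) ≤ K`: `TT` for `K` if and only if `TT` for `L`.
-/

set_option autoImplicit false

open Polynomial

namespace Pool.Agent.TWC

open Pool.Agent.H15JM (RVal)
open Pool.Agent.LU1 (VPos adj)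
open Pool.Agent.D2 (Ctx0)
open Pool.Agent.D2P (hen clI mem_clI mem_adj_self)
open Pool.Agent.TWM
open Pool.Agent.TWS (TowR PM MonG RatV GK)

universe u

variable {k Ω : Type u} [Field k] [Field Ω] [Algebra k Ω] {v : RVal Ω}
  {K L N T : IntermediateField k Ω} {p m : ℕ} [hp : Fact p.Prime] {x : ℕ → Ω} {y : Ω}
  [CharP k p] [CharP Ω p] [PerfectRing k p] [IsAlgClosed Ω] [hcx : Fact (Ctx0 k v)]

/-- **The purely inseparable step, downwards**, first radius `0`, any perfect base. -/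
theorem tow_down {E : IntermediateField k Ω} {M : ℝ → Ω} (hc : CompleteV v) (hm : m ≤ 2)
    (hMG : MonG v E ⊤ M) (hEc : Cld v E) (hperf : ∀ a ∈ E, ∃ b ∈ E, b ^ p = a)
    (hfst : TL v E y 0) (htw : TowR v m (cadj v E y) T) (hK : Cld v K) (hKT : K ≤ T)
    (hTK : ∀ a ∈ T, a ^ p ∈ K) :
    ∃ y', TL v E y' 0 ∧ TowR v m (cadj v E y') K := by
  have hEK : E ≤ K := fun a ha => by
    obtain ⟨b, hb, rfl⟩ := hperf a ha
    exact hTK b (htw.le (le_cadj v E y hb))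
  obtain ⟨r, i, s', hs', hr, hw, hwL, hTi, hfar⟩ := TWS.first_gen p hfst htw hKT hTK hEK
  have hs0 : s' = 0 := by
    rcases hs' with h | h
    · exact h
    · rw [h, mul_zero]
  subst hs0
  have h3 : TowR v m (EW v E r) (clI v (T ⊔ EW v E r)) := TWS.first_base p hr hTi
  have hE' : ∀ a ∈ EW v E r, ∃ b ∈ EW v E r, b ^ p = a := EW.perf p hc hEc hperf hr
  have hiE : Imm v E (EW v E r) := TWS.imm_EW p hperf hr hw
  have h4 : TowR v m (EW v E r) (clI v (K ⊔ EW v E r)) :=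
    cstarR_le hm hc (hMG.imm hiE) hE' h3 (cld_clI v _) (clI_mono' (sup_le_sup_right hKT _))
      (pow_mem_sup p hE' hTK) EW.cld
  exact ⟨r 0, hw, TWS.last_descent p hc hEc hMG hperf hr hw hK hEK hwL hfar hm h4⟩

omit [CharP k p] in
/-- `MonG` for the perfect closure of `k(x)`. -/
theorem exists_monG (hM : ∃ M : ℝ → Ω, MS v ⊤ M) (hr : ∀ n, x (n + 1) ^ p = x n) (h0 : x 0 ≠ 0)
    (hv : v (x 0) < 0) : ∃ M : ℝ → Ω, MonG v (EW v (⊥ : IntermediateField k Ω) x) ⊤ M := by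
  obtain ⟨M₀, hM₀⟩ := hM
  obtain ⟨M, hM, hMx⟩ := TWS.exists_MS hM₀ h0 hv.ne
  exact ⟨M, TWS.monG_top p hcx.out hM hMx EW.cld (perf_EW0 hr) (EW.mem 0)
    (ratV_EW hcx.out hr h0 hv)⟩

variable [IsAlgClosed k]

/-- Exchange for `TT`. -/
theorem TT.exch (hc : CompleteV v) {u : ℕ → Ω} (ht : TT p v m L x y)
    (hu : ∀ n, u (n + 1) ^ p = u n) (hu0 : u 0 ∈ L) (hux : Gt v 0 (u 0 - x 0)) :
    ∃ y', TT p v m L u y' := by
  obtain ⟨y', h3, h4⟩ := TWX.exch_first hcx.out hc ht.tgt hu hu0 hux bot_le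
    (TWX.far_of_bot hcx.out hc ht.tgt) ht.first ht.tow
  have h5 : Gt v (v (x 0)) (x 0 - u 0) := (Gt.mono hux ht.neg.le).sub_comm'
  obtain ⟨h6, h7⟩ := Gt.val_eq ht.ne h5
  exact ⟨y', ht.tgt.congr hu hu0 hux, by rw [h7]; exact ht.neg, h3, h4⟩

/-- **`TT`, downwards.** -/
theorem TT.down (hc : CompleteV v) (hM : ∃ M : ℝ → Ω, MS v ⊤ M) (hm : m ≤ 2)
    (ht : TT p v m N x y) (hL : Cld v L) (hLN : L ≤ N) (hNL : ∀ a ∈ N, a ^ p ∈ L) :
    ∃ x' y', TT p v m L x' y' := by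
  -- the tower over `E`, downwards
  have key : ∀ {x : ℕ → Ω} {y : Ω}, TT p v m N x y →
      ∃ y', TL v (EW v (⊥ : IntermediateField k Ω) x) y' 0 ∧
        TowR v m (cadj v (EW v ⊥ x) y') (clI v (L ⊔ EW v ⊥ x)) := by
    intro x y ht
    obtain ⟨M, hMG⟩ := exists_monG (k := k) hM ht.tgt.root ht.ne ht.neg
    have hperf := perf_EW0 (v := v) (k := k) (p := p) ht.tgt.root
    exact tow_down (k := k) hc hm hMG EW.cld hperf ht.first ht.tow (cld_clI v _)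
      (clI_mono' (sup_le_sup_right hLN _)) (pow_mem_sup p hperf hNL)
  rcases ht.tgt.down hL hLN hNL with ⟨u, h1, h2, h3⟩ | h1
  · obtain ⟨y₁, ht₁⟩ := ht.exch hc h1.root (hLN h1.mem) h3
    obtain ⟨y', h4, h5⟩ := key ht₁
    exact ⟨u, y', h1, ht₁.neg, h4, h5⟩
  · rw [mul_zero] at h1
    obtain ⟨y', h4, h5⟩ := key ht
    refine ⟨dwn p x, y', h1, ?_, ?_, ?_⟩
    · change v (x 0 ^ p) < 0
      have hp0 : (0 : ℝ) < p := by exact_mod_cast hp.out.pos
      rw [v.map_pow ht.ne]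
      exact mul_neg_of_pos_of_neg hp0 ht.neg
    · rw [EW.down]
      exact h4
    · rw [EW.down]
      exact h5

/-- One step. -/
theorem TT.isog1 (hc : CompleteV v) (hM : ∃ M : ℝ → Ω, MS v ⊤ M) (hm : m ≤ 2) (hK : Cld v K)
    (hL : Cld v L) (hKL : K ≤ L) (hLK : ∀ a ∈ L, a ^ p ∈ K) :
    (∃ x y, TT p v m K x y) ↔ ∃ x y, TT p v m L x y := by
  constructor
  · rintro ⟨x, y, h⟩
    exact h.up hc hM hm hL hKL hLK
  · rintro ⟨x, y, h⟩
    exact h.down hc hM hm hK hKL hLK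

/-- **`TT` is isogeny invariant.** -/
theorem TT.isog (hc : CompleteV v) (hM : ∃ M : ℝ → Ω, MS v ⊤ M) (hm : m ≤ 2) (hL : Cld v L)
    (e : ℕ) : ∀ {K : IntermediateField k Ω}, Cld v K → K ≤ L → (∀ a ∈ L, a ^ p ^ e ∈ K) →
    ((∃ x y, TT p v m K x y) ↔ ∃ x y, TT p v m L x y) := by
  induction e with
  | zero =>
    intro K hK hKL hLK
    have h1 : L = K := le_antisymm (fun a ha => by
      have h2 := hLK a ha
      rwa [pow_zero, pow_one] at h2) hKL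
    rw [h1]
  | succ e ih =>
    intro K hK hKL hLK
    have h1 : Cld v (L ⊓ D2P.rootF p 1 K) := cld_inf_tgt hL (cld_rootF p hK)
    rw [TT.isog1 hc hM hm hK h1 (le_inf hKL (le_rootF p K)) fun x hx => (mem_rootF1 p).1 hx.2]
    refine ih h1 inf_le_left fun a ha => ⟨pow_mem ha _, (mem_rootF1 p).2 ?_⟩
    rw [← pow_mul, ← pow_succ]
    exact hLK a ha

end Pool.Agent.TWC
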