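import Pool.Agent.Lib.TWX.PtD

/-!
# TANK W, class I: towers over tight pairs, the exit

* `NFb.of_unit`: `r = (1 - b) g`, `s = 0`, `p` does not divide `b`;
* `NFb.of_irr`: `r = s` irrational; `NFb.of_none`: no resonance;
* `NFb.of_quot`: `g = n τ`, `r = (n - b) τ`, `s = c τ`, `p ^ N` divides `c`;
* `HasTPn p v C`: `C` is the closure of `k(x, w)`, `(x, w)` a tight pair, the resonances are good up to
  any bound; `HasTPn.ptn`: the towers over `C`;
* `hrone_of_tpn`: `HRone` for `K₀(al)`, `K₀` isogenous to a field with a tower over such a `C`.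
-/

set_option autoImplicit false
set_option linter.unusedSectionVars false

open Polynomial

namespace Pool.Agent.TWC

open Pool.Agent.H15JM (RVal)
open Pool.Agent.LU1 (VPos adj)
open Pool.Agent.D2 (Ctx0)
open Pool.Agent.D2P (clI mem_clI mem_adj_self mem_rootF)
open Pool.Agent.TWM
open Pool.Agent.TWS (TowR VG RatV SphC IsoE HF hv)
open Pool.Agent.TW (Ctx Full BD HRone LU)

universe u

/-! ### Resonances -/

section NF

variable {p : ℕ} {G : AddSubgroup ℝ} {g r s τ : ℝ} {N : ℕ}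

theorem NFb.of_unit {b : ℤ} (hb : ¬ (p : ℤ) ∣ b) (hr : r = (1 - b) * g) (hs : s = 0) :
    NFb p G g r s N := by
  intro i j _ _ _
  refine ⟨b, hb, ?_⟩
  rw [hr, hs]
  ring

theorem NFb.of_none (h : ∀ i j : ℕ, (p : ℝ) ^ j * s - p ^ i * r ∉ G) : NFb p G g r s N :=
  fun i j _ _ h1 => absurd h1 (h i j)

theorem NFb.of_irr [hp : Fact p.Prime] (hG : ∀ a ∈ G, ∃ n : ℕ, n ≠ 0 ∧ ∃ m : ℤ, (n : ℝ) * a = m * g)
    (hr : ¬ RatR g r) (hs : s = r) : NFb p G g r s N := by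
  intro i j _ _ h1
  rw [hs] at h1 ⊢
  have hij : i = j := by
    by_contra hne
    refine hr ?_
    obtain ⟨n, hn, m, h2⟩ := hG _ h1
    set d : ℤ := (p : ℤ) ^ j - (p : ℤ) ^ i with hd
    have hd0 : d ≠ 0 := by
      intro h3
      have h4 : (p : ℤ) ^ j = (p : ℤ) ^ i := by rw [hd] at h3; linarith
      have h5 : p ^ j = p ^ i := by exact_mod_cast h4
      exact hne (Nat.pow_right_injective hp.out.two_le h5).symm
    have h3 : ((n : ℤ) * d : ℝ) * r = m * g := by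
      rw [← h2, hd]
      push_cast
      ring
    have hD : d.natAbs ≠ 0 := Int.natAbs_ne_zero.2 hd0
    rcases Int.natAbs_eq d with h4 | h4
    · refine ⟨n * d.natAbs, mul_ne_zero hn hD, m, ?_⟩
      have h5 : (d : ℝ) = ((d.natAbs : ℕ) : ℝ) := by
        have := congrArg (fun z : ℤ => (z : ℝ)) h4
        rwa [Int.cast_natCast] at this
      rw [Nat.cast_mul, ← h5, ← h3]
      push_cast
      ring
    · refine ⟨n * d.natAbs, mul_ne_zero hn hD, -m, ?_⟩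
      have h5 : (d : ℝ) = -((d.natAbs : ℕ) : ℝ) := by
        have := congrArg (fun z : ℤ => (z : ℝ)) h4
        rwa [Int.cast_neg, Int.cast_natCast] at this
      have h6 : ((d.natAbs : ℕ) : ℝ) = -(d : ℝ) := by rw [h5, neg_neg]
      rw [Nat.cast_mul, h6]
      push_cast
      push_cast at h3
      linear_combination -h3
  subst hij
  refine ⟨1, ?_, ?_⟩
  · intro h2
    have h3 : p ∣ 1 := by exact_mod_cast h2
    exact hp.out.one_lt.ne' (Nat.dvd_one.1 h3)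
  · push_cast
    ring

/-- The case of the radii in `ℚ G`. -/
theorem NFb.of_quot [hp : Fact p.Prime] {n b c : ℤ} (hnp : IsCoprime n (p : ℤ))
    (hG : ∀ q : ℤ, q * τ ∈ G → n ∣ q) (hb : ¬ (p : ℤ) ∣ b) (hc : (p : ℤ) ^ N ∣ c)
    (hg : g = n * τ) (hr : r = (n - b) * τ) (hs : s = c * τ) : NFb p G g r s N := by
  obtain ⟨c', rfl⟩ := hc
  intro i j hi _ h1
  obtain ⟨l, rfl⟩ := Nat.exists_eq_add_of_lt hi
  set q : ℤ := (p : ℤ) ^ (l + 1 + j) * c' + b - n with hq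
  have e1 : (p : ℝ) ^ j * s - p ^ i * r = ((p : ℤ) ^ i * q : ℤ) * τ := by
    rw [hs, hr, hq]
    push_cast
    rw [show i + l + 1 = i + (l + 1) by ring, pow_add (p : ℝ) i (l + 1), pow_add (p : ℝ) (l + 1) j]
    ring
  rw [e1] at h1
  have h2 : n ∣ q := (hnp.pow_right (n := i)).dvd_of_dvd_mul_left (hG _ h1)
  obtain ⟨e', he'⟩ := h2
  refine ⟨e' + 1, ?_, ?_⟩
  · rintro ⟨f, hf⟩
    refine hb ⟨n * f - (p : ℤ) ^ (l + j) * c', ?_⟩
    have h3 : b = n * (e' + 1) - (p : ℤ) ^ (l + 1 + j) * c' := by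
      rw [mul_add, mul_one, ← he', hq]
      ring
    rw [h3, hf, show l + 1 + j = l + j + 1 by ring, pow_succ]
    ring
  · rw [e1, he', hg]
    push_cast
    ring

end NF

/-! ### The base -/

/-- `C` is the closure of `k(x, w)`, `(x, w)` a tight pair of `C`, whose resonances are good up to any
bound. -/
def HasTPn {k Ω : Type u} [Field k] [Field Ω] [Algebra k Ω] (p : ℕ) (v : RVal Ω)
    (C : IntermediateField k Ω) : Prop :=
  ∀ N : ℕ, ∃ (x w : ℕ → Ω) (r s : ℝ), v (x 0) ≠ 0 ∧ v (x 0) < r ∧ TP p v C x w r s ∧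
    C = CP v (x 0) (w 0) ∧ NFb p (VG v C) (v (x 0)) r s N

section Exit

variable {k Ω : Type u} [Field k] [Field Ω] [Algebra k Ω] {v : RVal Ω}
  {p m : ℕ} [hp : Fact p.Prime] [CharP k p] [CharP Ω p] [IsAlgClosed Ω] [IsAlgClosed k]
  {C M K₀ K₁ : IntermediateField k Ω}

omit [CharP k p] [CharP Ω p] [IsAlgClosed Ω] [IsAlgClosed k] in
/-- The values are rational multiples of any one of them. -/
theorem ratV_all {γ : ℝ} (h : RatV v C γ) {x : Ω} (hx : x ∈ C) (hx0 : x ≠ 0) (hv : v x ≠ 0) :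
    RatV v C (v x) := by
  obtain ⟨n', hn', m', h'⟩ := h _ (VG.self (v := v) hx hx0)
  have hm' : m' ≠ 0 := by
    rintro rfl
    rw [Int.cast_zero, zero_mul] at h'
    exact (mul_ne_zero (by exact_mod_cast hn') hv) h'
  intro g hg
  obtain ⟨n, hn, m, h1⟩ := h g hg
  rcases Int.natAbs_eq m' with h2 | h2
  · refine ⟨n * m'.natAbs, mul_ne_zero hn (Int.natAbs_ne_zero.2 hm'), m * n', ?_⟩
    have h3 : (m' : ℝ) = ((m'.natAbs : ℕ) : ℝ) := by
      have := congrArg (fun z : ℤ => (z : ℝ)) h2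
      rwa [Int.cast_natCast] at this
    rw [Nat.cast_mul, ← h3]
    push_cast
    linear_combination (m' : ℝ) * h1 - (m : ℝ) * h'
  · refine ⟨n * m'.natAbs, mul_ne_zero hn (Int.natAbs_ne_zero.2 hm'), -(m * n'), ?_⟩
    have h3 : (m' : ℝ) = -((m'.natAbs : ℕ) : ℝ) := by
      have := congrArg (fun z : ℤ => (z : ℝ)) h2
      rwa [Int.cast_neg, Int.cast_natCast] at this
    have h4 : ((m'.natAbs : ℕ) : ℝ) = -(m' : ℝ) := by rw [h3, neg_neg]
    rw [Nat.cast_mul, h4]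
    push_cast
    linear_combination -((m' : ℝ) * h1 - (m : ℝ) * h')

/-- Towers over the closure of `k(x, w)`, the values of `C` rational and divisible by `p`. -/
theorem HasTPn.ptn' [Fact (Ctx0 k v)] {γ : ℝ} (hrat : RatV v C γ)
    (hdiv : ∀ g ∈ VG v C, g / p ∈ VG v C) (hC : HasTPn p v C) (hT : TowR v m C M) (N : ℕ) :
    PTn p v m M N := by
  obtain ⟨x, w, r, s, hv, hvr, h1, rfl, h2⟩ := hC N
  have hkp : PerfectRing k p := PerfectField.toPerfectRing p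
  have hx0 : x 0 ≠ 0 := ne_zero_of_far h1.tgt.root (h1.tgt.dst 0).far
  have h3 : PT p v m M x w r s :=
    { ne := hv
      lt := hvr
      tp := h1
      tow := hT
      rat := ratV_all hrat (CP_fst _ _) hx0 hv
      div := hdiv }
  exact ⟨x, w, r, s, h3, by rw [h3.vg]; exact h2⟩

omit [IsAlgClosed k] in
/-- Towers without floors. -/
theorem HasTPn.of_ptn (h : ∀ N, PTn p v 0 C N) : HasTPn p v C := by
  intro N
  obtain ⟨x, w, r, s, h1, h2⟩ := h N
  have h3 : CP (k := k) v (x 0) (w 0) = C := (TWS.towR_iff_zero.1 h1.tow).2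
  exact ⟨x, w, r, s, h1.ne, h1.lt, by rw [← h3]; exact h1.tp, h3.symm, h2⟩

/-- **`HasTPn` is isogeny invariant**, downwards. -/
theorem HasTPn.down (h0 : Ctx0 k v) (hc : CompleteV v) {γ : ℝ} (hrat : RatV v C γ)
    (hdiv : ∀ g ∈ VG v C, g / p ∈ VG v C) (hC : Cld v C) (hM : Cld v M) (hMC : M ≤ C) {n : ℕ}
    (hCM : ∀ a ∈ C, a ^ p ^ n ∈ M) (h : HasTPn p v C) : HasTPn p v M := by
  have : Fact (Ctx0 k v) := ⟨h0⟩
  exact HasTPn.of_ptn fun N => (h.ptn' hrat hdiv (TowR.zero hC) (N + n)).downC h0 hc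
    (Nat.zero_le 2) hC hM hMC hCM

/-- **`HasTPn` is isogeny invariant**, upwards. -/
theorem HasTPn.up (h0 : Ctx0 k v) (hc : CompleteV v) {γ : ℝ} (hrat : RatV v C γ)
    (hdiv : ∀ g ∈ VG v C, g / p ∈ VG v C) (hC : Cld v C) (hM : Cld v M) (hCM : C ≤ M) {n : ℕ}
    (hMC : ∀ a ∈ M, a ^ p ^ n ∈ C) (h : HasTPn p v C) : HasTPn p v M := by
  have : Fact (Ctx0 k v) := ⟨h0⟩
  exact HasTPn.of_ptn fun N => (h.ptn' hrat hdiv (TowR.zero hC) (N + n)).upC h0 hc
    (Nat.zero_le 2) hM hC hCM hMC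

/-- Towers over the closure of `k(x, w)`. -/
theorem HasTPn.ptn (h : Ctx k v 1) (hC : HasTPn p v C) (hT : TowR v m C M) (N : ℕ) :
    PTn p v m M N := by
  obtain ⟨x, w, r, s, hv, hvr, h1, rfl, h2⟩ := hC N
  have hkp : PerfectRing k p := PerfectField.toPerfectRing p
  have hx0 : x 0 ≠ 0 := ne_zero_of_far h1.tgt.root (h1.tgt.dst 0).far
  have h3 : PT p v m M x w r s :=
    { ne := hv
      lt := hvr
      tp := h1
      tow := hT
      rat := ratv_of_ctx h hx0 hv _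
      div := pdiv_of_lim h h1.tgt.root hx0 hv hvr h1.lim_x }
  have : Fact (Ctx0 k v) := ⟨h.toCtx0⟩
  exact ⟨x, w, r, s, h3, by rw [h3.vg]; exact h2⟩

omit [IsAlgClosed Ω] in
/-- **`HRone` from a tight pair of the base**, on the isogeny class. -/
theorem hrone_of_tpn [IsAlgClosed Ω] (h : Ctx k v 1) (hm1 : 1 ≤ m) (hm : m ≤ 2)
    (hK : K₀.FG) (hfull : Full v K₀) (htr : Algebra.trdeg k K₀ = (m + 2 : ℕ)) (hBDK : BD p v K₀)
    {al : Ω} (hal : al ^ p ∈ K₀) (hBD : BD p v (adj K₀ al)) (ht : TPn p v m K₁) {e : ℕ}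
    (hiso : (K₁ ≤ K₀ ∧ ∀ a ∈ K₀, a ^ p ^ e ∈ K₁) ∨ (K₀ ≤ K₁ ∧ ∀ a ∈ K₁, a ^ p ^ e ∈ K₀)) :
    HRone v (adj K₀ al) := by
  have h1 : TPn p v m K₀ := by
    rcases hiso with ⟨h2, h3⟩ | ⟨h2, h3⟩
    · exact (TPn.isog h.toCtx0 hm h2 e h3).2 ht
    · exact (TPn.isog h.toCtx0 hm h2 e h3).1 ht
  exact hrone_of_tpc0 p h hm1 hm hK hfull htr hBDK hal hBD h1.tpc

end Exit

end Pool.Agent.TWC
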