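import Pool.Agent.Lib.TWX.Alpha

/-!
# TANK W, EXCHANGE OF TIGHT BASES

`M` closed, `x` tight of level `r` in `M` (`Tgt p v M x r`), `u 0 ∈ M`, `v (u 0 - x 0) > r`,
`P ≤ M`, `v (x 0 - a) ≤ r` for all `a` algebraic over `P`. If `M EW(x)` is a tower over `EW(x)`
(any radii), `EW(x) = EW v P x`, then `M EW(u)` is a tower over `EW(u)`:
* `exch_iso`: there is an isometric isomorphism over `P`, `x n ↦ u n` (in a spherically complete
  field, such as `HF k`);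
* `exch_towR`, `exch_tow`: the towers with any radii, with the radii `0`;
* `exch_first`: the first radius is kept;
* `far_bot`: the case of `P = ⊥`, `v (x 0) ≠ 0`; `far_perf`: `P` perfect, `TL v P (x 0) s`.
-/

set_option autoImplicit false

open Polynomial IntermediateField

namespace Pool.Agent.TWX

open Pool.Agent.H15JM (RVal)
open Pool.Agent.LU1 (VPos adj)
open Pool.Agent.D2 (Ctx0)
open Pool.Agent.D2P (clI mem_clI)
open Pool.Agent.TWM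
open Pool.Agent.TWS (IsoE AlM Clo SphC TowR val_add_lt HF)
open Pool.Agent.TWC (Tgt EW Tow root_pow_add self_le_clI)

universe u

variable {k Ω H : Type u} [Field k] [Field Ω] [Algebra k Ω] [Field H] [Algebra k H]
  {v : RVal Ω} {w : RVal H} {M P : IntermediateField k Ω}
  {p : ℕ} [hp : Fact p.Prime] [CharP k p] [CharP Ω p] [IsAlgClosed Ω]
  {x u : ℕ → Ω} {r γ : ℝ}

omit [CharP k p] [IsAlgClosed Ω] in
/-- Near tight elements. -/
theorem exists_pr (hx : Tgt p v M x r) (hu : ∀ n, u (n + 1) ^ p = u n) (hu0 : u 0 ∈ M)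
    (hux : Gt v r (u 0 - x 0)) : ∃ γ : ℝ, Pr p v M x u r γ := by
  have h1 : Tgt p v M u r := hx.congr hu hu0 hux
  by_cases h0 : u 0 - x 0 = 0
  · exact ⟨1, hx, h1, by rw [h0]; exact RVal.Ge.zero, one_pos⟩
  · refine ⟨v (u 0 - x 0) - r, hx, h1, ?_, sub_pos.2 (hux h0)⟩
    rw [add_sub_cancel]
    exact RVal.ge_self _

omit [CharP Ω p] in
/-- The isomorphism of `EW v P x` onto `EW v P u`. -/
theorem exists_phi [IsAlgClosed H] (hk : Ctx0 k v) (hw : SphC w)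
    (hval : ∀ ρ : ℝ, ∃ x : H, x ≠ 0 ∧ w x = ρ) {ι : Ω →ₐ[k] H} (hι : IsoE v w ι)
    (h : Pr p v M x u r γ) (hfar : ∀ a : Ω, IsAlgebraic P a → x 0 ≠ a ∧ v (x 0 - a) ≤ r) :
    ∃ Φ : Ω →ₐ[k] H, IsoE v w Φ ∧ (∀ a ∈ P, Φ a = ι a) ∧ ∀ n, Φ (x n) = ι (u n) := by
  obtain ⟨Φ, h1, h2, h3⟩ := hι.exists_move hk hw hval (B := P) (z := x 0) (ζ := ι (u 0))
    (fun h0 => (hfar _ h0).1 rfl) (fun a ha => by
      obtain ⟨h1, h2⟩ := hfar a ha
      have h3 : x 0 - a ≠ 0 := sub_ne_zero.2 h1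
      have h4 := val_add_lt (v := v) h3 (y := u 0 - x 0) fun h0 => by
        have h5 := h.gap h0
        have h6 := h.pos
        linarith
      have e : x 0 - a + (u 0 - x 0) = u 0 - a := by ring
      rw [e] at h4
      rw [← map_sub]
      exact ⟨IsoE.ne_zero h4.1, by rw [hι.val _ h4.1, h4.2]⟩)
  refine ⟨Φ, h1, h2, fun n => ?_⟩
  have : CharP H p := charP_of_injective_algebraMap (algebraMap k H).injective p
  induction n with
  | zero => exact h3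
  | succ n ih =>
    refine frobenius_inj H p ?_
    rw [frobenius_def, frobenius_def, ← map_pow, ← map_pow, h.tx.root, h.tu.root]
    exact ih

/-- **EXCHANGE OF TIGHT BASES.** -/
theorem exch_iso [IsAlgClosed H] (hk : Ctx0 k v) (hc : CompleteV v) (hw : SphC w)
    (hval : ∀ ρ : ℝ, ∃ x : H, x ≠ 0 ∧ w x = ρ) {ι : Ω →ₐ[k] H} (hι : IsoE v w ι)
    (hx : Tgt p v M x r) (hu : ∀ n, u (n + 1) ^ p = u n) (hu0 : u 0 ∈ M)
    (hux : Gt v r (u 0 - x 0)) (hPM : P ≤ M)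
    (hfar : ∀ a : Ω, IsAlgebraic P a → x 0 ≠ a ∧ v (x 0 - a) ≤ r) {n : ℕ}
    (hT : TowR v n (EW v P x) (clI v (M ⊔ EW v P x))) :
    ∃ Φ : Ω →ₐ[k] H, IsoE v w Φ ∧ (∀ a ∈ P, Φ a = ι a) ∧ (∀ n, Φ (x n) = ι (u n)) ∧
      (EW v P x).map Φ = (EW v P u).map ι ∧
      (clI v (M ⊔ EW v P x)).map Φ = (clI v (M ⊔ EW v P u)).map ι := by
  obtain ⟨γ, h⟩ := exists_pr hx hu hu0 hux
  obtain ⟨Φ, h1, h2, h3⟩ := exists_phi hk hw hval hι h hfar
  obtain ⟨α, h4, h5⟩ := h.exists_alm hk hc hPM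
  have hP : P.map Φ = P.map ι := by
    ext a
    constructor
    · rintro ⟨b, hb, rfl⟩
      exact ⟨b, hb, (h2 b hb).symm⟩
    · rintro ⟨b, hb, rfl⟩
      exact ⟨b, hb, h2 b hb⟩
  have hE : (EW v P x).map Φ = (EW v P u).map ι := by
    rw [← h1.ew_map hc, ← hι.ew_map hc, hP]
    congr 1
    exact funext h3
  have hle : (EW v P x).map Φ ≤ (clI v (M ⊔ EW v P u)).map ι := by
    rw [hE]
    exact Dense.map_le_map_iff.2 (le_sup_right.trans (self_le_clI v _))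
  obtain ⟨Φ', h6, h7, h8⟩ := AlM.exists_iso hk hc hw hval hT (h5.comp hι)
    ((hι.cld_iff hc).2 (cld_clI v _)) h1 h.pos le_rfl
    (h.clo hk hc hPM hfar h4 h5 hι h1 h2 h3) hle
  refine ⟨Φ', h6, fun a ha => (h7 a (TWC.EW.le ha)).trans (h2 a ha),
    fun n => (h7 _ (TWC.EW.mem n)).trans (h3 n), ?_, h8⟩
  rw [← hE]
  ext a
  constructor
  · rintro ⟨b, hb, rfl⟩
    exact ⟨b, hb, (h7 b hb).symm⟩
  · rintro ⟨b, hb, rfl⟩
    exact ⟨b, hb, h7 b hb⟩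

variable [IsAlgClosed k]

theorem exch_towR (hk : Ctx0 k v) (hc : CompleteV v)
    (hx : Tgt p v M x r) (hu : ∀ n, u (n + 1) ^ p = u n) (hu0 : u 0 ∈ M)
    (hux : Gt v r (u 0 - x 0)) (hPM : P ≤ M)
    (hfar : ∀ a : Ω, IsAlgebraic P a → x 0 ≠ a ∧ v (x 0 - a) ≤ r) {n : ℕ}
    (hT : TowR v n (EW v P x) (clI v (M ⊔ EW v P x))) :
    TowR v n (EW v P u) (clI v (M ⊔ EW v P u)) := by
  obtain ⟨ι, hι⟩ := TWS.exists_emb (Ω := Ω) hk
  have hι : IsoE v (TWS.hv k) ι := ⟨hι⟩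
  obtain ⟨Φ, h1, -, -, h2, h3⟩ := exch_iso hk hc (TWS.sphC_hv k) (TWS.exists_val k) hι hx hu hu0 hux
    hPM hfar hT
  have h4 := h1.towR_map hc hT
  rw [h2, h3] at h4
  exact (hι.towR_iff hc).1 h4

theorem exch_tow (hk : Ctx0 k v) (hc : CompleteV v)
    (hx : Tgt p v M x r) (hu : ∀ n, u (n + 1) ^ p = u n) (hu0 : u 0 ∈ M)
    (hux : Gt v r (u 0 - x 0)) (hPM : P ≤ M)
    (hfar : ∀ a : Ω, IsAlgebraic P a → x 0 ≠ a ∧ v (x 0 - a) ≤ r) {n : ℕ}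
    (hT : Tow v n (EW v P x) (clI v (M ⊔ EW v P x))) :
    Tow v n (EW v P u) (clI v (M ⊔ EW v P u)) := by
  obtain ⟨ι, hι⟩ := TWS.exists_emb (Ω := Ω) hk
  have hι : IsoE v (TWS.hv k) ι := ⟨hι⟩
  obtain ⟨Φ, h1, -, -, h2, h3⟩ := exch_iso hk hc (TWS.sphC_hv k) (TWS.exists_val k) hι hx hu hu0 hux
    hPM hfar (TowR.of_tow hT)
  have h4 := h1.tow_map hc hT
  rw [h2, h3] at h4
  exact (hι.tow_iff hc).1 h4

/-- The first radius is kept. -/
theorem exch_first (hk : Ctx0 k v) (hc : CompleteV v)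
    (hx : Tgt p v M x r) (hu : ∀ n, u (n + 1) ^ p = u n) (hu0 : u 0 ∈ M)
    (hux : Gt v r (u 0 - x 0)) (hPM : P ≤ M)
    (hfar : ∀ a : Ω, IsAlgebraic P a → x 0 ≠ a ∧ v (x 0 - a) ≤ r) {n : ℕ} {y : Ω} {s : ℝ}
    (hy : TL v (EW v P x) y s)
    (hT : TowR v n (cadj v (EW v P x) y) (clI v (M ⊔ EW v P x))) :
    ∃ y' : Ω, TL v (EW v P u) y' s ∧
      TowR v n (cadj v (EW v P u) y') (clI v (M ⊔ EW v P u)) := by
  obtain ⟨ι, hι⟩ := TWS.exists_emb (Ω := Ω) hk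
  have hι : IsoE v (TWS.hv k) ι := ⟨hι⟩
  obtain ⟨Φ, h1, -, -, h2, h3⟩ := exch_iso hk hc (TWS.sphC_hv k) (TWS.exists_val k) hι hx hu hu0 hux
    hPM hfar (TowR.succ hy hT)
  have h4 : Φ y ∈ (clI v (M ⊔ EW v P u)).map ι := by
    rw [← h3]
    exact ⟨y, hT.le (self_mem_cadj v _ y), rfl⟩
  obtain ⟨y', -, h5⟩ := h4
  have h5' : ι y' = Φ y := h5
  refine ⟨y', ?_, ?_⟩
  · rw [← hι.tl_iff, h5', ← h2, h1.tl_iff]
    exact hy
  · rw [← hι.towR_iff hc, ← h3, ← hι.cadj_map hc, h5', ← h2, h1.cadj_map hc]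
    exact h1.towR_map hc hT

/-! ### The condition on `P` -/

omit [IsAlgClosed Ω] [CharP k p] [CharP Ω p] [IsAlgClosed k] in
/-- `v (x 0) ≤ r` -/
theorem tgt_val_le (hx : Tgt p v M x r) : x 0 ≠ 0 ∧ v (x 0) ≤ r := by
  obtain ⟨h1, h2⟩ := (hx.dst 0).le (zero_mem M)
  rw [sub_zero] at h1 h2
  have h3 := hx.root 0
  have hp0 : (0 : ℝ) < p := by exact_mod_cast hp.out.pos
  rw [zero_add] at h1 h2 h3
  rw [pow_one, le_div_iff₀ hp0] at h2
  refine ⟨by rw [← h3]; exact pow_ne_zero _ h1, ?_⟩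
  rw [← h3, v.map_pow h1]
  linarith

omit [IsAlgClosed Ω] [CharP k p] [CharP Ω p] in
/-- The case of `P = k`. -/
theorem far_bot (hk : Ctx0 k v) (hx : Tgt p v M x r) (hv : v (x 0) ≠ 0) :
    ∀ a : Ω, IsAlgebraic (⊥ : IntermediateField k Ω) a → x 0 ≠ a ∧ v (x 0 - a) ≤ r := by
  intro a ha
  obtain ⟨h1, h2⟩ := tgt_val_le hx
  have h3 : IsAlgebraic k a := by
    have : Algebra.IsAlgebraic k (⊥ : IntermediateField k Ω) := inferInstance
    exact ha.restrictScalars k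
  obtain ⟨c, rfl⟩ := minpoly.mem_range_of_degree_eq_one k a
    (IsAlgClosed.degree_eq_one_of_irreducible k (minpoly.irreducible h3.isIntegral))
  by_cases hc : c = 0
  · rw [hc, map_zero, sub_zero]
    exact ⟨h1, h2⟩
  have h4 : v (algebraMap k Ω c) = 0 := hk.triv c hc
  have h5 : algebraMap k Ω c ≠ 0 := by rwa [Ne, _root_.map_eq_zero]
  rcases lt_or_gt_of_ne hv with h6 | h6
  · have h7 := val_add_lt (v := v) h1 (y := -algebraMap k Ω c) fun h0 => by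
      rw [v.map_neg _ h5, h4]
      exact h6
    rw [← sub_eq_add_neg] at h7
    exact ⟨sub_ne_zero.1 h7.1, by rw [h7.2]; exact h2⟩
  · have h7 := val_add_lt (v := v) (neg_ne_zero.2 h5) (y := x 0) fun h0 => by
      rw [v.map_neg _ h5, h4]
      exact h6
    have e : -algebraMap k Ω c + x 0 = x 0 - algebraMap k Ω c := by ring
    rw [e, v.map_neg _ h5, h4] at h7
    exact ⟨sub_ne_zero.1 h7.1, by rw [h7.2]; linarith⟩

omit [IsAlgClosed Ω] [CharP k p] [IsAlgClosed k] in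
/-- The case of a perfect `P`. -/
theorem far_perf {s : ℝ} (hx : Tgt p v M x r) (hPM : P ≤ M) (hP : ∀ a ∈ P, ∃ b ∈ P, b ^ p = a)
    (h : TL v P (x 0) s) :
    ∀ a : Ω, IsAlgebraic P a → x 0 ≠ a ∧ v (x 0 - a) ≤ r := by
  intro a ha
  obtain ⟨h1, h2⟩ := h.far a ha
  refine ⟨h1, h2.le.trans ?_⟩
  refine le_of_forall_pos_le_add fun ε hε => ?_
  obtain ⟨b, hb, h3⟩ := h.lim ε hε
  obtain ⟨d, hd, rfl⟩ := hP b hb
  have hp0 : (0 : ℝ) < p := by exact_mod_cast hp.out.pos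
  have h4 := hx.root 0
  obtain ⟨h5, h6⟩ := (hx.dst 0).le (hPM hd)
  rw [zero_add] at h4 h5 h6
  rw [pow_one, le_div_iff₀ hp0] at h6
  rw [← h4, ← sub_pow_char] at h3
  have h7 := h3 (pow_ne_zero _ h5)
  rw [v.map_pow h5] at h7
  linarith

end Pool.Agent.TWX
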