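import Pool.Agent.Lib.TWX.Isog

/-!
# TANK W, class I: `TTc` is isogeny invariant

* `tt_of_map`: `TT` in the source of an isometric embedding;
* `TT.isogC`: `TT.isog` without the hypothesis on monomials;
* `TTc.isog`: `K ≤ E`, `E ^ (p ^ e) ≤ K`: `TTc` for `E` if and only if `TTc` for `K`.
-/

set_option autoImplicit false

open Polynomial

namespace Pool.Agent.TWC

open Pool.Agent.H15JM (RVal)
open Pool.Agent.LU1 (VPos adj)
open Pool.Agent.D2 (Ctx0)
open Pool.Agent.D2P (hen clI mem_clI mem_adj_self mem_rootF)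
open Pool.Agent.TWM
open Pool.Agent.TWS (TowR SphC IsoE HF hv)

universe u

section Back

variable {k Ω Ω' : Type u} [Field k] [Field Ω] [Algebra k Ω] [Field Ω'] [Algebra k Ω']
  {v : RVal Ω} {w : RVal Ω'} {ι : Ω →ₐ[k] Ω'} {A : IntermediateField k Ω}

theorem dst_of_map (h : IsoE v w ι) {a : Ω} {c : ℝ} (hd : Dst w (A.map ι) (ι a) c) :
    Dst v A a c :=
  ⟨fun h1 => hd.far (h.nr'_iff.2 h1), h.lim_iff.1 hd.near⟩

/-- `TT` in the source of an isometric embedding. -/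
theorem tt_of_map [IsAlgClosed Ω] (h : IsoE v w ι) (hc : CompleteV v) {p m : ℕ}
    [hp : Fact p.Prime] [CharP Ω' p] {L : IntermediateField k Ω} {x' : ℕ → Ω'} {y' : Ω'}
    (ht : TT p w m (L.map ι) x' y') (h0 : x' 0 ≠ 0) : ∃ x y, TT p v m L x y := by
  obtain ⟨a, ha, ha'⟩ := ht.tgt.mem
  have ha' : ι a = x' 0 := ha'
  obtain ⟨r, hr0, hr⟩ := exists_rts p a
  have hrx : ∀ n, ι (r n) = x' n := by
    intro n
    induction n with
    | zero => rw [hr0, ha']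
    | succ n ih =>
      refine frobenius_inj Ω' p ?_
      rw [frobenius_def, frobenius_def, ← map_pow, hr, ht.tgt.root]
      exact ih
  obtain rfl : x' = fun n => ι (r n) := funext fun n => (hrx n).symm
  have hr00 : r 0 ≠ 0 := fun h1 => h0 (by
    change ι (r 0) = 0
    rw [h1, map_zero])
  have e1 : EW w (⊥ : IntermediateField k Ω') (fun n => ι (r n)) = (EW v ⊥ r).map ι := by
    rw [← IntermediateField.map_bot ι, h.ew_map hc]
  have e2 : clI w (L.map ι ⊔ (EW v (⊥ : IntermediateField k Ω) r).map ι) =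
      (clI v (L ⊔ EW v ⊥ r)).map ι := by
    rw [← IntermediateField.map_sup, h.clI_map hc]
  have h1 := ht.first
  have h2 := ht.tow
  rw [e1] at h1
  rw [e1, e2] at h2
  obtain ⟨y, -, hy⟩ := h2.le (self_mem_cadj w _ y')
  obtain rfl : ι y = y' := hy
  refine ⟨r, y, ⟨?_, ?_, hr, fun n => dst_of_map h (ht.tgt.dst n)⟩, ?_, h.tl_iff.1 h1, ?_⟩
  · exact (h.cld_iff hc).1 ht.tgt.cld
  · rw [hr0]
    exact ha
  · have h3 := ht.neg
    rwa [h.val _ hr00] at h3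
  · rw [h.cadj_map hc] at h2
    exact towR_of_map h hc h2

end Back

section C

variable {k Ω : Type u} [Field k] [Field Ω] [Algebra k Ω] {v : RVal Ω}
  {K L E : IntermediateField k Ω} {p m : ℕ} [hp : Fact p.Prime]
  [IsAlgClosed k] [CharP k p] [CharP Ω p] [IsAlgClosed Ω]

omit [CharP Ω p] in
/-- `TT` is isogeny invariant. -/
theorem TT.isogC (h0 : Ctx0 k v) (hc : CompleteV v) (hm : m ≤ 2) (hL : Cld v L) (hK : Cld v K)
    (hKL : K ≤ L) (e : ℕ) (hLK : ∀ a ∈ L, a ^ p ^ e ∈ K) :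
    (∃ x y, TT p v m K x y) ↔ ∃ x y, TT p v m L x y := by
  obtain ⟨φ, hφ⟩ := TWS.exists_emb (Ω := Ω) h0
  have hI : IsoE v (hv k) φ := ⟨hφ⟩
  have : CharP (HF k) p := charP_of_injective_algebraMap (algebraMap k (HF k)).injective p
  have : PerfectRing k p := PerfectField.toPerfectRing p
  have : Fact (Ctx0 k (hv k)) := ⟨TWS.ctx0_hv k⟩
  have key : ∀ A : IntermediateField k Ω, (∃ x y, TT p v m A x y) ↔
      ∃ x y, TT p (hv k) m (A.map φ) x y := by
    intro A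
    constructor
    · rintro ⟨x, y, h⟩
      exact ⟨_, _, tt_map hI hc h h.ne⟩
    · rintro ⟨x, y, h⟩
      exact tt_of_map hI hc h h.ne
  rw [key, key]
  refine TT.isog (TWS.completeV_hv k) (exists_ms (TWS.exists_val k)) hm ((hI.cld_iff hc).2 hL) e
    ((hI.cld_iff hc).2 hK) (Dense.map_le_map_iff.2 hKL) ?_
  rintro _ ⟨a, ha, rfl⟩
  exact ⟨a ^ p ^ e, hLK a ha, map_pow φ a _⟩

omit [IsAlgClosed Ω] in
/-- **`TTc` is isogeny invariant.** -/
theorem TTc.isog (h0 : Ctx0 k v) (hm : m ≤ 2) (hKE : K ≤ E) (e : ℕ)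
    (hEK : ∀ a ∈ E, a ^ p ^ e ∈ K) : TTc p v m E ↔ TTc p v m K := by
  have key : ∀ (Ω' : Type u) (iF : Field Ω') (iA : Algebra k Ω') (ι : Ω →ₐ[k] Ω') (w : RVal Ω')
      (iC : IsAlgClosed Ω'), CompleteV w → Dense v w ι →
      ((∃ x y, TT p w m (clI w (K.map ι)) x y) ↔ ∃ x y, TT p w m (clI w (E.map ι)) x y) := by
    intro Ω' _ _ ι w _ hcw hD
    have : CharP Ω' p := Dense.charP ι p
    refine TT.isogC (hD.ctx0 h0) hcw hm (cld_clI w _) (cld_clI w _)
      (clI_mono' (Dense.map_le_map_iff.2 hKE)) e ?_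
    have h1 : clI w (E.map ι) ≤ D2P.rootF p e (clI w (K.map ι)) := by
      refine clI_le' ?_ (cld_rootFn p e (cld_clI w _))
      rintro _ ⟨a, ha, rfl⟩
      exact mem_rootF.2 (self_le_clI w _ ⟨a ^ p ^ e, hEK a ha, map_pow ι a _⟩)
    exact fun a ha => mem_rootF.1 (h1 ha)
  constructor
  · rintro ⟨Ω', iF, iA, ι, w, iC, h2, h3, h4⟩
    exact ⟨Ω', iF, iA, ι, w, iC, h2, h3, (key Ω' iF iA ι w iC h2 h3).2 h4⟩
  · rintro ⟨Ω', iF, iA, ι, w, iC, h2, h3, h4⟩
    exact ⟨Ω', iF, iA, ι, w, iC, h2, h3, (key Ω' iF iA ι w iC h2 h3).1 h4⟩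

end C

end Pool.Agent.TWC
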