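import Pool.Agent.Lib.TWS.Emb
import Pool.Agent.Lib.TWS.Tr
import Pool.Agent.Lib.TWM.A1

/-!
# TANK W, exchange of tight bases: global isometric embeddings

* `IsoL.exists_total`: a partial isometric embedding extends to `Ω` (the target is spherically
  complete, algebraically closed, with all values);
* `IsoL.trans_at`: the transcendental step with a prescribed image;
* `IsoE.exists_move`: `Φ : Ω → H` isometric, `z` far from the algebraic closure of `B`, `ζ` at the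
  same distances: there is an isometric `Φ'`, equal to `Φ` on `B`, with `Φ' z = ζ`;
* `IsoE.exists_move_tl`: the case of `TL v B z s`.
-/

set_option autoImplicit false

open Polynomial IntermediateField

namespace Pool.Agent.TWS

open Pool.Agent.H15JM (RVal)
open Pool.Agent.LU1 (VPos)
open Pool.Agent.D2 (Ctx0)
open Pool.Agent.TWM

universe u

variable {k Ω H : Type u} [Field k] [Field Ω] [Algebra k Ω] [Field H] [Algebra k H]
  {v : RVal Ω} {w : RVal H}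

/-- **The extension of a partial embedding.** -/
theorem IsoL.exists_total [IsAlgClosed Ω] [IsAlgClosed H] (hk : Ctx0 k v) (hw : SphC w)
    (hval : ∀ ρ : ℝ, ∃ x : H, x ≠ 0 ∧ w x = ρ) {σ : Lifts k Ω H} (hσ : IsoL v w σ) :
    ∃ φ : Ω →ₐ[k] H, IsoE v w φ ∧ ∀ a : σ.carrier, φ a = σ.emb a := by
  obtain ⟨m, hm0, hm⟩ := zorn_le_nonempty₀ {τ : Lifts k Ω H | IsoL v w τ}
    (fun c hcs hc y hy => ⟨Lifts.union c hc, IsoL.union hc ⟨y, hy⟩ fun σ hσ => hcs hσ,
      fun σ hσ => Lifts.le_union c hc hσ⟩) σ hσ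
  have hmI : IsoL v w m := hm.prop
  have hA : ∀ θ : Ω, IsAlgebraic m.carrier θ → θ ∈ m.carrier := by
    intro θ hθ
    obtain ⟨A', ψ, h1, h2, h3, h4⟩ := alg_step (φ := m.emb) hmI hθ
    have h5 : m ≤ (⟨A', ψ⟩ : Lifts k Ω H) := ⟨h1, fun x => h3 x x.2 (h1 x.2)⟩
    exact (hm.le_of_ge (y := (⟨A', ψ⟩ : Lifts k Ω H)) h4 h5).1 h2
  have htop : ∀ z : Ω, z ∈ m.carrier := by
    intro z
    by_contra hz
    obtain ⟨τ, h1, h2, h3⟩ := hmI.trans_step hk hw hval hA hz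
    exact hz ((hm.le_of_ge h2 h1).1 h3)
  have htop' : m.carrier = ⊤ := top_unique fun z _ => htop z
  refine ⟨m.emb.comp ((IntermediateField.inclusion htop'.ge).comp
    (IntermediateField.topEquiv (F := k) (E := Ω)).symm.toAlgHom), ⟨fun a ha => ?_⟩, fun a => ?_⟩
  · exact hmI ⟨a, htop a⟩ fun h0 => ha (congrArg (fun y : m.carrier => (y : Ω)) h0)
  · exact hm0.2 a

/-- **The transcendental step with a prescribed image.** -/
theorem IsoL.trans_at [IsAlgClosed Ω] {σ : Lifts k Ω H} (h : IsoL v w σ)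
    (hA : ∀ θ : Ω, IsAlgebraic σ.carrier θ → θ ∈ σ.carrier) {z : Ω} (hz : z ∉ σ.carrier) {ζ : H}
    (hζ : ∀ a : σ.carrier, ζ - σ.emb a ≠ 0 ∧ w (ζ - σ.emb a) = v (z - a)) :
    ∃ τ : Lifts k Ω H, σ ≤ τ ∧ IsoL v w τ ∧ ∃ hτ : z ∈ τ.carrier, τ.emb ⟨z, hτ⟩ = ζ := by
  have hpoly := val_poly h hA hz hζ
  have htr : Transcendental σ.carrier z := fun h0 => hz (hA z h0)
  let _ : Algebra σ.carrier H := (σ.emb : σ.carrier →+* H).toAlgebra
  have _ : IsScalarTower k σ.carrier H := IsScalarTower.of_algebraMap_eq fun c =>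
    (σ.emb.commutes c).symm
  have hζtr : Transcendental σ.carrier ζ := by
    rintro ⟨f, hf, hf0⟩
    exact (hpoly f hf).1 hf0
  let e₁ := RatFunc.algEquivOfTranscendental z htr
  let e₂ := RatFunc.algEquivOfTranscendental ζ hζtr
  let ψ : (σ.carrier⟮z⟯ : IntermediateField σ.carrier Ω) →ₐ[σ.carrier] H :=
    (IntermediateField.val _).comp (e₂.toAlgHom.comp e₁.symm.toAlgHom)
  have hgen : ψ (AdjoinSimple.gen σ.carrier z) = ζ := by
    have h1 := RatFunc.algEquivOfTranscendental_symm_aeval z htr X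
    rw [aeval_X] at h1
    change ((e₂ (e₁.symm (AdjoinSimple.gen σ.carrier z)) : _) : H) = ζ
    rw [h1, RatFunc.algebraMap_X]
    exact RatFunc.algEquivOfTranscendental_X ζ hζtr
  have hψ : ∀ f : Polynomial σ.carrier, ψ (aeval (AdjoinSimple.gen σ.carrier z) f) =
      eval₂ (σ.emb : σ.carrier →+* H) ζ f := by
    intro f
    rw [← aeval_algHom_apply, hgen]
    rfl
  have hval : ∀ f : Polynomial σ.carrier,
      ((aeval (AdjoinSimple.gen σ.carrier z) f : σ.carrier⟮z⟯) : Ω) = aeval z f := by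
    intro f
    have := aeval_algHom_apply (IntermediateField.val (σ.carrier⟮z⟯)) (AdjoinSimple.gen σ.carrier z) f
    exact this.symm
  have hiso : ∀ x : σ.carrier⟮z⟯, x ≠ 0 → w (ψ x) = v (x : Ω) := by
    intro x hx0
    obtain ⟨r, s, hrs⟩ := (IntermediateField.mem_adjoin_simple_iff σ.carrier (x : Ω)).1 x.2
    have hx0' : (x : Ω) ≠ 0 := fun h0 => hx0 (Subtype.ext h0)
    have hr : r ≠ 0 := by
      rintro rfl
      rw [map_zero, zero_div] at hrs
      exact hx0' hrs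
    have hs : s ≠ 0 := by
      rintro rfl
      rw [map_zero, div_zero] at hrs
      exact hx0' hrs
    have e1 : x = aeval (AdjoinSimple.gen σ.carrier z) r /
        aeval (AdjoinSimple.gen σ.carrier z) s := by
      refine Subtype.ext ?_
      rw [hrs, ← hval, ← hval]
      rfl
    have e2 : ψ x = eval₂ (σ.emb : σ.carrier →+* H) ζ r /
        eval₂ (σ.emb : σ.carrier →+* H) ζ s := by
      rw [e1, map_div₀, hψ, hψ]
    obtain ⟨h1, h2, h3⟩ := hpoly r hr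
    obtain ⟨h4, h5, h6⟩ := hpoly s hs
    rw [e2, w.map_div h1 h4, h3, h6, hrs, v.map_div h2 h5]
  refine ⟨⟨(σ.carrier⟮z⟯).restrictScalars k, ψ.restrictScalars k⟩, ⟨?_, ?_⟩, ?_, ?_, ?_⟩
  · intro a ha
    exact (σ.carrier⟮z⟯).algebraMap_mem ⟨a, ha⟩
  · intro a
    exact ψ.commutes a
  · exact hiso
  · exact IntermediateField.mem_adjoin_simple_self σ.carrier z
  · exact hgen

/-- **A global isometric embedding with a new value at `z`.** -/
theorem IsoE.exists_move [IsAlgClosed Ω] [IsAlgClosed H] (hk : Ctx0 k v) (hw : SphC w)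
    (hval : ∀ ρ : ℝ, ∃ x : H, x ≠ 0 ∧ w x = ρ) {Φ : Ω →ₐ[k] H} (hΦ : IsoE v w Φ)
    {B : IntermediateField k Ω} {z : Ω} (hz : ¬ IsAlgebraic B z) {ζ : H}
    (hζ : ∀ a : Ω, IsAlgebraic B a → ζ - Φ a ≠ 0 ∧ w (ζ - Φ a) = v (z - a)) :
    ∃ Φ' : Ω →ₐ[k] H, IsoE v w Φ' ∧ (∀ b ∈ B, Φ' b = Φ b) ∧ Φ' z = ζ := by
  let σ : Lifts k Ω H := ⟨algc B, Φ.comp (algc B).val⟩
  have hσ : IsoL v w σ := fun a ha => hΦ.val a fun h0 => ha (Subtype.ext h0)
  obtain ⟨τ, h1, h2, h3, h4⟩ := hσ.trans_at (z := z) (ζ := ζ)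
    (fun θ hθ => mem_algc.2 (isAlgebraic_of_algc hθ)) (fun h0 => hz (mem_algc.1 h0))
    fun a => hζ a (mem_algc.1 a.2)
  obtain ⟨Φ', h5, h6⟩ := h2.exists_total hk hw hval
  refine ⟨Φ', h5, fun b hb => ?_, ?_⟩
  · have hb' : b ∈ σ.carrier := le_algc B hb
    have h7 := h6 ⟨b, h1.1 hb'⟩
    have h8 := h1.2 ⟨b, hb'⟩
    exact h7.trans h8
  · exact (h6 ⟨z, h3⟩).trans h4

/-- The case of transcendental type. -/
theorem IsoE.exists_move_tl [IsAlgClosed Ω] [IsAlgClosed H] (hk : Ctx0 k v) (hw : SphC w)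
    (hval : ∀ ρ : ℝ, ∃ x : H, x ≠ 0 ∧ w x = ρ) {Φ : Ω →ₐ[k] H} (hΦ : IsoE v w Φ)
    {B : IntermediateField k Ω} {z : Ω} {s : ℝ} (hz : TL v B z s) {ζ : H}
    (hζ : ∀ ε : ℝ, 0 < ε → ∃ b ∈ B, v.Ge (s - ε) (z - b) ∧ w.Ge (s - ε) (ζ - Φ b)) :
    ∃ Φ' : Ω →ₐ[k] H, IsoE v w Φ' ∧ (∀ b ∈ B, Φ' b = Φ b) ∧ Φ' z = ζ := by
  refine hΦ.exists_move hk hw hval (fun h0 => (hz.far z h0).1 rfl) fun a ha => ?_
  obtain ⟨h1, h2⟩ := hz.far a ha
  have h1' : z - a ≠ 0 := sub_ne_zero.2 h1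
  obtain ⟨b, hb, h3, h4⟩ := hζ ((s - v (z - a)) / 2) (by linarith)
  -- `v (b - a) = v (z - a)`
  have h5 : (b - a ≠ 0) ∧ v (b - a) = v (z - a) := by
    have e : b - a = (z - a) + -(z - b) := by ring
    rw [e]
    refine val_add_lt h1' fun h0 => ?_
    have h0' : z - b ≠ 0 := neg_ne_zero.1 h0
    rw [v.map_neg _ h0']
    have := h3 h0'
    linarith
  have h6 : w (Φ (b - a)) = v (z - a) := by rw [hΦ.val _ h5.1, h5.2]
  have h7 : Φ (b - a) ≠ 0 := IsoE.ne_zero h5.1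
  have e : ζ - Φ a = Φ (b - a) + (ζ - Φ b) := by rw [map_sub]; ring
  rw [e]
  have h8 := val_add_lt (v := w) h7 (y := ζ - Φ b) fun h0 => by
    rw [h6]
    have := h4 h0
    linarith
  exact ⟨h8.1, by rw [h8.2, h6]⟩

end Pool.Agent.TWS
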