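import Pool.Agent.Lib.TWX.Ext
import Pool.Agent.Lib.TWC.Theta
import Pool.Agent.Lib.TWC.TowR1

/-!
# TANK W, exchange of tight bases: towers along almost multiplicative isometries

`A ≤ Ω`, `A' ≤ H` closed, `α : A → A'` an additive isometry, onto, multiplicative with a gain `γ`
(`AlM`). If the isometric embedding `Φ : Ω → H` is near to `α` on `B ≤ A` (`Clo`), and `A` is a tower
over `B`, then some isometric `Φ'`, equal to `Φ` on `B`, is near to `α` on `A`, and `Φ'(A) = A'`.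

* `ge_eval`, `ge_taylor`: values of polynomials;
* `Nb.*`, `Clo.*`: the calculus;
* `AlM.step`: one floor; `AlM.tower`: all the floors; `AlM.map_eq`: the image of `A`;
* `AlM.exists_iso`: the statement above;
* `IsoE.towR_map`, `IsoE.towR_iff`.
-/

set_option autoImplicit false

open Polynomial IntermediateField

namespace Pool.Agent.TWS

open Pool.Agent.H15JM (RVal)
open Pool.Agent.LU1 (VPos adj)
open Pool.Agent.D2 (Ctx0)
open Pool.Agent.D2P (clI mem_clI)
open Pool.Agent.TWM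
open Pool.Agent.TWC (ge_of_eps)

universe u

section Val

variable {k Ω : Type u} [Field k] [Field Ω] [Algebra k Ω] {v : RVal Ω}

omit [Algebra k Ω] [Field k] in
theorem ge_eval {G : Polynomial Ω} {c s : ℝ} {t : Ω}
    (hG : ∀ l : ℕ, v.Ge (c - l * s) (G.coeff l)) (ht : v.Ge s t) : v.Ge c (G.eval t) := by
  rw [eval_eq_sum_range]
  refine RVal.Ge.sum _ _ fun l _ => ?_
  refine ((hG l).mul (ge_pow ht l)).mono (le_of_eq ?_)
  ring

omit [Algebra k Ω] [Field k] in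
theorem ge_taylor {G : Polynomial Ω} {c s η : ℝ} (hη : 0 ≤ η) {t : Ω}
    (hG : ∀ l : ℕ, v.Ge (c - l * s) (G.coeff l)) (ht : v.Ge (s - η) t) (l : ℕ) :
    v.Ge (c - l * s - G.natDegree * η) ((taylor t G).coeff l) := by
  rw [taylor_coeff, hasseDeriv_apply, Polynomial.sum, eval_finsetSum]
  refine RVal.Ge.sum _ _ fun n hn => ?_
  rw [eval_monomial]
  rcases lt_or_ge n l with h7 | h7
  · rw [Nat.choose_eq_zero_of_lt h7, Nat.cast_zero, zero_mul, zero_mul]
    exact RVal.Ge.zero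
  · have h8 : n ≤ G.natDegree := le_natDegree_of_mem_supp n hn
    rw [mul_assoc]
    have h9 := (ge_natCast v (n.choose l)).mul ((hG n).mul (ge_pow ht (n - l)))
    refine h9.mono ?_
    rw [Nat.cast_sub h7]
    have h10 : (n : ℝ) ≤ G.natDegree := by exact_mod_cast h8
    have h11 : (0 : ℝ) ≤ l := Nat.cast_nonneg l
    nlinarith

end Val

variable {k Ω H : Type u} [Field k] [Field Ω] [Algebra k Ω] [Field H] [Algebra k H]
  {v : RVal Ω} {w : RVal H}

/-- `α` is an additive isometry of `A` onto `A'`, multiplicative with the gain `γ`. -/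
structure AlM (v : RVal Ω) (w : RVal H) (A : IntermediateField k Ω) (A' : IntermediateField k H)
    (γ : ℝ) (α : Ω → H) : Prop where
  map : ∀ a ∈ A, α a ∈ A'
  surj : ∀ b ∈ A', ∃ a ∈ A, α a = b
  add : ∀ a ∈ A, ∀ b ∈ A, α (a + b) = α a + α b
  ge : ∀ a ∈ A, ∀ c : ℝ, w.Ge c (α a) ↔ v.Ge c a
  mul : ∀ a ∈ A, ∀ b ∈ A, ∀ c d : ℝ, v.Ge c a → v.Ge d b →
    w.Ge (c + d + γ) (α (a * b) - α a * α b)

/-- `a'` is near to `α a`. -/
structure Nb (v : RVal Ω) (w : RVal H) (A : IntermediateField k Ω) (α : Ω → H) (δ b : ℝ) (a : Ω)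
    (a' : H) : Prop where
  mem : a ∈ A
  ge : v.Ge b a
  nr : w.Ge (b + δ) (a' - α a)

/-- `Φ` is near to `α` on `B`. -/
def Clo (v : RVal Ω) (w : RVal H) (α : Ω → H) (δ : ℝ) (Φ : Ω →ₐ[k] H)
    (B : IntermediateField k Ω) : Prop :=
  ∀ b ∈ B, ∀ c : ℝ, v.Ge c b → w.Ge (c + δ) (Φ b - α b)

variable {A B : IntermediateField k Ω} {A' : IntermediateField k H} {γ δ ε b c s : ℝ} {α : Ω → H}
  {Φ : Ω →ₐ[k] H} {a d z : Ω} {a' d' : H}

namespace AlM

theorem zero (h : AlM v w A A' γ α) : α 0 = 0 := by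
  have h1 := h.add 0 (zero_mem A) 0 (zero_mem A)
  rw [add_zero] at h1
  exact left_eq_add.1 h1

theorem neg (h : AlM v w A A' γ α) (ha : a ∈ A) : α (-a) = -α a := by
  have h1 := h.add a ha (-a) (neg_mem ha)
  rw [add_neg_cancel, h.zero] at h1
  exact (neg_eq_of_add_eq_zero_right h1.symm).symm

theorem sub (h : AlM v w A A' γ α) (ha : a ∈ A) (hd : d ∈ A) : α (a - d) = α a - α d := by
  rw [sub_eq_add_neg, h.add a ha (-d) (neg_mem hd), h.neg hd, sub_eq_add_neg]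

theorem comp {Ω' : Type u} [Field Ω'] [Algebra k Ω'] {v' : RVal Ω'} {A₁ : IntermediateField k Ω'}
    {α₁ : Ω → Ω'} (h : AlM v v' A A₁ γ α₁) {ι : Ω' →ₐ[k] H} (hι : IsoE v' w ι) :
    AlM v w A (A₁.map ι) γ (fun a => ι (α₁ a)) where
  map a ha := ⟨α₁ a, h.map a ha, rfl⟩
  surj := by
    rintro _ ⟨b, hb, rfl⟩
    obtain ⟨a, ha, rfl⟩ := h.surj b hb
    exact ⟨a, ha, rfl⟩
  add a ha b hb := by rw [h.add a ha b hb, map_add]
  ge a ha c := by rw [hι.ge_iff, h.ge a ha]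
  mul a ha b hb c d hc hd := by
    rw [← map_mul, ← map_sub, hι.ge_iff]
    exact h.mul a ha b hb c d hc hd

end AlM

namespace Nb

theorem ge' (h : Nb v w A α δ b a a') (hα : AlM v w A A' γ α) (hδ : 0 ≤ δ) : w.Ge b a' := by
  have e : a' = (a' - α a) + α a := by ring
  rw [e]
  exact (h.nr.mono (by linarith)).add ((hα.ge a h.mem b).2 h.ge)

omit [Algebra k H] in
theorem mono (h : Nb v w A α δ b a a') {δ' b' : ℝ} (hb : b' ≤ b) (hδ : δ' ≤ δ) :
    Nb v w A α δ' b' a a' :=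
  ⟨h.mem, h.ge.mono hb, h.nr.mono (by linarith)⟩

theorem add (hα : AlM v w A A' γ α) (h : Nb v w A α δ b a a') (h' : Nb v w A α δ b d d') :
    Nb v w A α δ b (a + d) (a' + d') where
  mem := add_mem h.mem h'.mem
  ge := h.ge.add h'.ge
  nr := by
    have e : a' + d' - α (a + d) = (a' - α a) + (d' - α d) := by
      rw [hα.add a h.mem d h'.mem]
      ring
    rw [e]
    exact h.nr.add h'.nr

theorem mul (hα : AlM v w A A' γ α) (hδ : 0 ≤ δ) (hδγ : δ ≤ γ) (h : Nb v w A α δ b a a')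
    (h' : Nb v w A α δ c d d') : Nb v w A α δ (b + c) (a * d) (a' * d') where
  mem := mul_mem h.mem h'.mem
  ge := h.ge.mul h'.ge
  nr := by
    have e : a' * d' - α (a * d) = (a' - α a) * d' + α a * (d' - α d) -
        (α (a * d) - α a * α d) := by ring
    rw [e]
    refine (((h.nr.mul (h'.ge' hα hδ)).mono (by linarith)).add
      ((((hα.ge a h.mem b).2 h.ge).mul h'.nr).mono (by linarith))).sub
      ((hα.mul a h.mem d h'.mem b c h.ge h'.ge).mono (by linarith))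

theorem pow (hα : AlM v w A A' γ α) (hδ : 0 ≤ δ) (hδγ : δ ≤ γ) (h : Nb v w A α δ b a a')
    (h1 : Nb v w A α δ 0 1 1) (n : ℕ) : Nb v w A α δ (n * b) (a ^ n) (a' ^ n) := by
  induction n with
  | zero =>
    rw [Nat.cast_zero, zero_mul, pow_zero, pow_zero]
    exact h1
  | succ n ih =>
    rw [pow_succ, pow_succ, Nat.cast_succ, add_mul, one_mul]
    exact ih.mul hα hδ hδγ h

theorem sum (hα : AlM v w A A' γ α) {ι : Type*} (S : Finset ι) (f : ι → Ω) (f' : ι → H)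
    (hf : ∀ i ∈ S, Nb v w A α δ b (f i) (f' i)) :
    Nb v w A α δ b (∑ i ∈ S, f i) (∑ i ∈ S, f' i) := by
  classical
  induction S using Finset.induction_on with
  | empty =>
    rw [Finset.sum_empty, Finset.sum_empty]
    refine ⟨zero_mem A, RVal.Ge.zero, ?_⟩
    rw [hα.zero, sub_zero]
    exact RVal.Ge.zero
  | insert a S ha ih =>
    rw [Finset.sum_insert ha, Finset.sum_insert ha]
    exact (hf a (Finset.mem_insert_self a S)).add hα (ih fun i hi => hf i
      (Finset.mem_insert_of_mem hi))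

end Nb

namespace Clo

theorem nb (h : Clo v w α δ Φ B) (hB : B ≤ A) {x : Ω} (hx : x ∈ B) (hc : v.Ge c x) :
    Nb v w A α δ c x (Φ x) := ⟨hB hx, hc, h x hx c hc⟩

theorem one (h : Clo v w α δ Φ B) (hB : B ≤ A) : Nb v w A α δ 0 1 1 := by
  have h1 := h.nb hB (one_mem B) (c := 0) fun _ => v.map_one.ge
  rwa [map_one] at h1

end Clo

/-- Nearness for limits. -/
theorem nr_lim (hα : AlM v w A A' γ α) (hΦ : IsoE v w Φ) (hδ : 0 ≤ δ) {S : Set Ω}
    (hSA : ∀ y ∈ S, y ∈ A) (hS : ∀ y ∈ S, ∀ c : ℝ, v.Ge c y → w.Ge (c + δ) (Φ y - α y)) {x : Ω}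
    (hxA : x ∈ A) (hx : ∀ c : ℝ, ∃ y ∈ S, v.Ge c (x - y)) {c : ℝ} (hc : v.Ge c x) :
    w.Ge (c + δ) (Φ x - α x) := by
  obtain ⟨y, hy, h1⟩ := hx (c + δ)
  have hyc : v.Ge c y := by
    have e : y = x - (x - y) := by ring
    rw [e]
    exact hc.sub (h1.mono (by linarith))
  have e : Φ x - α x = (Φ y - α y) + Φ (x - y) - α (x - y) := by
    rw [map_sub, hα.sub hxA (hSA y hy)]
    ring
  rw [e]
  exact ((hS y hy c hyc).add (hΦ.ge_iff.2 h1)).sub
    ((hα.ge _ (sub_mem hxA (hSA y hy)) _).2 h1)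

/-- Nearness for quotients. -/
theorem nr_div (hα : AlM v w A A' γ α) (hΦ : IsoE v w Φ) (hδγ : δ ≤ γ) {f g : Ω}
    (hf : f ∈ A) (hg : g ∈ A) (hg0 : g ≠ 0)
    (h1 : ∀ c : ℝ, v.Ge c g → w.Ge (c + δ) (Φ g - α g))
    (h2 : ∀ c : ℝ, v.Ge c (f * g) → w.Ge (c + δ) (Φ (f * g) - α (f * g)))
    {c : ℝ} (hc : v.Ge c f) : w.Ge (c + δ) (Φ f - α f) := by
  by_cases hf0 : f = 0
  · rw [hf0, map_zero, hα.zero, sub_zero]
    exact RVal.Ge.zero
  have hΦg : Φ g ≠ 0 := IsoE.ne_zero hg0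
  have e : (Φ f - α f) * Φ g = (Φ (f * g) - α (f * g)) + (α (f * g) - α f * α g) -
      α f * (Φ g - α g) := by
    rw [map_mul]
    ring
  have h3 : v.Ge (v f) f := RVal.ge_self _
  have h4 : v.Ge (v g) g := RVal.ge_self _
  have h5 : w.Ge (v f + v g + δ) ((Φ f - α f) * Φ g) := by
    rw [e]
    refine ((h2 _ (h3.mul h4)).add ((hα.mul f hf g hg _ _ h3 h4).mono (by linarith))).sub ?_
    exact (((hα.ge f hf _).2 h3).mul (h1 _ h4)).mono (by linarith)
  intro h6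
  have h7 := h5 (mul_ne_zero h6 hΦg)
  rw [w.map_mul h6 hΦg, hΦ.val g hg0] at h7
  have h8 := hc hf0
  linarith

/-- **One floor.** -/
theorem AlM.step [IsAlgClosed Ω] [IsAlgClosed H] (hα : AlM v w A A' γ α) (hk : Ctx0 k v)
    (hcv : CompleteV v) (hw : SphC w) (hval : ∀ ρ : ℝ, ∃ x : H, x ≠ 0 ∧ w x = ρ)
    (hA : Cld v A) (hA' : Cld w A') (hΦ : IsoE v w Φ) (hδγ : δ ≤ γ) (hBA : B ≤ A)
    (hcl : Clo v w α δ Φ B) (hBA' : B.map Φ ≤ A') (hz : TL v B z s) (hzA : z ∈ A)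
    (hε : 0 < ε) (hεδ : ε ≤ δ) :
    ∃ Φ' : Ω →ₐ[k] H, IsoE v w Φ' ∧ (∀ b ∈ B, Φ' b = Φ b) ∧
      Clo v w α (δ - ε) Φ' (cadj v B z) ∧ (cadj v B z).map Φ' ≤ A' := by
  obtain ⟨b₀, hb₀, hb₁⟩ := hz.lim ε hε
  set ζ : H := Φ b₀ + α (z - b₀) with hζ
  have hzb : ∀ b ∈ B, z - b ∈ A := fun b hb => sub_mem hzA (hBA hb)
  -- `ζ - Φ b` is near to `α (z - b)`
  have key : ∀ b ∈ B, v.Ge (s - ε) (z - b) → w.Ge (s - ε + δ) (ζ - Φ b - α (z - b)) := by
    intro b hb h1
    have h2 : v.Ge (s - ε) (b - b₀) := by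
      have e : b - b₀ = (z - b₀) - (z - b) := by ring
      rw [e]
      exact hb₁.sub h1
    have h3 := hcl (b - b₀) (sub_mem hb hb₀) _ h2
    have e : ζ - Φ b - α (z - b) = -(Φ (b - b₀) - α (b - b₀)) := by
      have e1 : α (z - b₀) = α (z - b) + α (b - b₀) := by
        rw [← hα.add _ (hzb b hb) _ (sub_mem (hBA hb) (hBA hb₀))]
        congr 1
        ring
      rw [hζ, e1, map_sub]
      ring
    rw [e]
    exact h3.neg
  obtain ⟨Φ', h1, h2, h3⟩ := hΦ.exists_move_tl hk hw hval hz (ζ := ζ) (by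
    intro ε' hε'
    obtain ⟨b, hb, h4⟩ := hz.lim (min ε ε') (lt_min hε hε')
    have h5 : v.Ge (s - ε) (z - b) := h4.mono (by
      have := min_le_left ε ε'
      linarith)
    have h6 : v.Ge (s - ε') (z - b) := h4.mono (by
      have := min_le_right ε ε'
      linarith)
    refine ⟨b, hb, h6, ?_⟩
    have e : ζ - Φ b = (ζ - Φ b - α (z - b)) + α (z - b) := by ring
    rw [e]
    exact ((key b hb h5).mono (by linarith)).add ((hα.ge _ (hzb b hb) _).2 h6))
  have hδε : 0 ≤ δ - ε := by linarith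
  have hclA : cadj v B z ≤ A := cadj_le hA hBA hzA
  refine ⟨Φ', h1, h2, ?_, ?_⟩
  · -- polynomials
    have hpoly : ∀ f ∈ PI B, ∀ c : ℝ, v.Ge c (f.eval z) →
        w.Ge (c + (δ - ε)) (Φ' (f.eval z) - α (f.eval z)) := by
      intro f hf c hc
      by_cases hf0 : f = 0
      · rw [hf0, eval_zero, map_zero, hα.zero, sub_zero]
        exact RVal.Ge.zero
      have hf' : f ∈ PI (algc B) := PI_mono (le_algc B) hf
      have hfz : f.eval z ≠ 0 := hz.eval_ne hf' hf0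
      have hjet : ∀ l : ℕ, v.Ge (c - l * s) ((taylor z f).coeff l) := fun l =>
        (hz.weak hf' hf0 l).mono (by
          have := hc hfz
          linarith)
      refine ge_of_eps fun η hη => ?_
      set N : ℝ := (f.natDegree : ℝ) with hN
      have hN0 : 0 ≤ N := Nat.cast_nonneg _
      set η' : ℝ := min ε (η / (2 * N + 1)) with hη'
      have hη'0 : 0 < η' := lt_min hε (by positivity)
      have hη'ε : η' ≤ ε := min_le_left _ _
      have hη'N : 2 * N * η' ≤ η := by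
        have h4 : η' ≤ η / (2 * N + 1) := min_le_right _ _
        rw [le_div_iff₀ (by positivity)] at h4
        nlinarith
      obtain ⟨b, hb, h5⟩ := hz.lim η' hη'0
      have h6 : v.Ge (s - ε) (z - b) := h5.mono (by linarith)
      -- the coefficients at `b`
      have hco : ∀ l : ℕ, v.Ge (c - l * s - N * η') ((taylor b f).coeff l) := by
        intro l
        have e : taylor b f = taylor (b - z) (taylor z f) := by
          rw [taylor_taylor, sub_add_cancel]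
        rw [e]
        have h7 := ge_taylor hη'0.le hjet (ge_sub_comm h5) l
        rwa [natDegree_taylor] at h7
      have hNbz : Nb v w A α (δ - ε) (s - η') (z - b) (Φ' (z - b)) := by
        refine ⟨hzb b hb, h5, ?_⟩
        have e : Φ' (z - b) - α (z - b) = ζ - Φ b - α (z - b) := by
          rw [map_sub, h3, h2 b hb]
        rw [e]
        exact (key b hb h6).mono (by linarith)
      have hone : Nb v w A α (δ - ε) 0 1 1 := (hcl.one hBA).mono le_rfl (by linarith)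
      have hsum : Nb v w A α (δ - ε) (c - η) (∑ l ∈ Finset.range (f.natDegree + 1),
          (taylor b f).coeff l * (z - b) ^ l) (∑ l ∈ Finset.range (f.natDegree + 1),
          Φ' ((taylor b f).coeff l) * Φ' (z - b) ^ l) := by
        refine Nb.sum hα _ _ _ fun l hl => ?_
        have hlB : (taylor b f).coeff l ∈ B := taylor_mem_PI hf hb l
        have h8 : Nb v w A α (δ - ε) (c - l * s - N * η') ((taylor b f).coeff l)
            (Φ' ((taylor b f).coeff l)) := by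
          rw [h2 _ hlB]
          exact (hcl.nb hBA hlB (hco l)).mono le_rfl (by linarith)
        have h9 := hNbz.pow hα hδε (by linarith) hone l
        refine (h8.mul hα hδε (by linarith) h9).mono ?_ le_rfl
        have hl' : (l : ℝ) ≤ N := by
          have := Finset.mem_range.1 hl
          rw [hN]
          exact_mod_cast Nat.lt_succ_iff.1 this
        nlinarith
      have e1 : f.eval z = ∑ l ∈ Finset.range (f.natDegree + 1),
          (taylor b f).coeff l * (z - b) ^ l := by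
        rw [eval_eq_taylor f b z, eval_eq_sum_range, natDegree_taylor]
      have e2 : Φ' (f.eval z) = ∑ l ∈ Finset.range (f.natDegree + 1),
          Φ' ((taylor b f).coeff l) * Φ' (z - b) ^ l := by
        rw [e1, map_sum]
        refine Finset.sum_congr rfl fun l _ => ?_
        rw [map_mul, map_pow]
      have h10 := hsum.nr
      rw [← e2, ← e1] at h10
      exact h10.mono (by linarith)
    intro x hx c hc
    refine nr_lim hα h1 hδε (S := {y | ∃ f ∈ PI B, f.eval z = y}) ?_ ?_ (hclA hx) ?_ hc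
    · rintro _ ⟨f, hf, rfl⟩
      exact hclA (eval_mem (PI_mono (le_cadj v B z) hf) (self_mem_cadj v B z))
    · rintro _ ⟨f, hf, rfl⟩ c hc
      exact hpoly f hf c hc
    · intro c
      obtain ⟨f, hf, h4⟩ := hz.dense hx c
      exact ⟨_, ⟨f, hf, rfl⟩, h4⟩
  · rw [← h1.cadj_map hcv]
    refine cadj_le hA' ?_ ?_
    · rintro _ ⟨b, hb, rfl⟩
      have h4 : Φ' b = Φ b := h2 b hb
      exact hBA' ⟨b, hb, h4.symm⟩
    · rw [h3, hζ]
      exact add_mem (hBA' ⟨b₀, hb₀, rfl⟩) (hα.map _ (hzb b₀ hb₀))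

/-- **All the floors.** -/
theorem AlM.tower [IsAlgClosed Ω] [IsAlgClosed H] (hk : Ctx0 k v)
    (hcv : CompleteV v) (hw : SphC w) (hval : ∀ ρ : ℝ, ∃ x : H, x ≠ 0 ∧ w x = ρ)
    {n : ℕ} (hT : TowR v n B A) (hα : AlM v w A A' γ α) (hA' : Cld w A') :
    ∀ {Φ : Ω →ₐ[k] H} {δ : ℝ}, IsoE v w Φ → 0 < δ → δ ≤ γ → Clo v w α δ Φ B → B.map Φ ≤ A' →
      ∃ Φ' : Ω →ₐ[k] H, IsoE v w Φ' ∧ (∀ b ∈ B, Φ' b = Φ b) ∧
        (∃ δ' : ℝ, 0 < δ' ∧ Clo v w α δ' Φ' A) ∧ A.map Φ' ≤ A' := by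
  induction hT with
  | zero _ => exact fun {Φ δ} h1 h2 _ h4 h5 => ⟨Φ, h1, fun _ _ => rfl, ⟨δ, h2, h4⟩, h5⟩
  | @succ n A₁ A₂ z s hz hT ih =>
    intro Φ δ h1 h2 h3 h4 h5
    have hle : cadj v A₁ z ≤ A₂ := hT.le
    obtain ⟨Φ₁, h6, h7, h8, h9⟩ := hα.step hk hcv hw hval hT.cld hA' h1 h3
      ((le_cadj v A₁ z).trans hle) h4 h5 hz (hle (self_mem_cadj v A₁ z)) (ε := δ / 2)
      (by positivity) (by linarith)
    obtain ⟨Φ₂, h10, h11, h12, h13⟩ := ih hα h6 (by linarith : 0 < δ - δ / 2) (by linarith) h8 h9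
    exact ⟨Φ₂, h10, fun b hb => (h11 b (le_cadj v A₁ z hb)).trans (h7 b hb), h12, h13⟩

/-- **The image.** -/
theorem AlM.map_eq (hcv : CompleteV v) (hα : AlM v w A A' γ α) (hA : Cld v A) (hΦ : IsoE v w Φ)
    (hδ : 0 < δ) (hcl : Clo v w α δ Φ A) (hle : A.map Φ ≤ A') : A.map Φ = A' := by
  refine le_antisymm hle fun b hb => ?_
  by_cases hb0 : b = 0
  · rw [hb0]
    exact zero_mem _
  have h1 : ∀ n : ℕ, ∃ a ∈ A, w.Ge (w b + n * δ) (b - Φ a) := by
    intro n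
    induction n with
    | zero =>
      refine ⟨0, zero_mem A, ?_⟩
      rw [map_zero, sub_zero, Nat.cast_zero, zero_mul, add_zero]
      exact RVal.ge_self _
    | succ n ih =>
      obtain ⟨a, ha, h2⟩ := ih
      obtain ⟨a', ha', h3⟩ := hα.surj (b - Φ a) (sub_mem hb (hle ⟨a, ha, rfl⟩))
      refine ⟨a + a', add_mem ha ha', ?_⟩
      have h4 : v.Ge (w b + n * δ) a' := (hα.ge a' ha' _).1 (by rw [h3]; exact h2)
      have e : b - Φ (a + a') = -(Φ a' - α a') := by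
        rw [map_add, h3]
        ring
      rw [e, Nat.cast_succ]
      exact ((hcl a' ha' _ h4).neg).mono (by linarith)
  have h2 : Cld w (A.map Φ) := (hΦ.cld_iff hcv).2 hA
  refine h2 (mem_clI.2 fun c => ?_)
  obtain ⟨n, hn⟩ := exists_nat_ge ((c - w b) / δ)
  obtain ⟨a, ha, h3⟩ := h1 n
  refine ⟨Φ a, ⟨a, ha, rfl⟩, h3.mono ?_⟩
  rw [div_le_iff₀ hδ] at hn
  linarith

/-- **Towers along almost multiplicative isometries.** -/
theorem AlM.exists_iso [IsAlgClosed Ω] [IsAlgClosed H] (hk : Ctx0 k v)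
    (hcv : CompleteV v) (hw : SphC w) (hval : ∀ ρ : ℝ, ∃ x : H, x ≠ 0 ∧ w x = ρ)
    {n : ℕ} (hT : TowR v n B A) (hα : AlM v w A A' γ α) (hA' : Cld w A') (hΦ : IsoE v w Φ)
    (hδ : 0 < δ) (hδγ : δ ≤ γ) (hcl : Clo v w α δ Φ B) (hBA' : B.map Φ ≤ A') :
    ∃ Φ' : Ω →ₐ[k] H, IsoE v w Φ' ∧ (∀ b ∈ B, Φ' b = Φ b) ∧ A.map Φ' = A' := by
  obtain ⟨Φ', h1, h2, ⟨δ', h3, h4⟩, h5⟩ := AlM.tower hk hcv hw hval hT hα hA' hΦ hδ hδγ hcl hBA'
  exact ⟨Φ', h1, h2, hα.map_eq hcv hT.cld h1 h3 h4 h5⟩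

/-! ### Transport of towers -/

namespace IsoE

variable {C D : IntermediateField k Ω} {ι : Ω →ₐ[k] H}

theorem towR_map [IsAlgClosed Ω] (h : IsoE v w ι) (hc : CompleteV v) {n : ℕ}
    (hT : TowR v n C D) : TowR w n (C.map ι) (D.map ι) := by
  induction hT with
  | zero h1 => exact TowR.zero ((h.cld_iff hc).2 h1)
  | succ h1 _ ih =>
    rw [← h.cadj_map hc] at ih
    exact TowR.succ (h.tl_iff.2 h1) ih

theorem towR_iff [IsAlgClosed Ω] (h : IsoE v w ι) (hc : CompleteV v) {n : ℕ} :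
    TowR w n (C.map ι) (D.map ι) ↔ TowR v n C D := by
  refine ⟨fun hT => ?_, h.towR_map hc⟩
  obtain ⟨C', hC'⟩ : ∃ C' : IntermediateField k H, C' = C.map ι := ⟨_, rfl⟩
  obtain ⟨D', hD'⟩ : ∃ D' : IntermediateField k H, D' = D.map ι := ⟨_, rfl⟩
  rw [← hC', ← hD'] at hT
  induction hT generalizing C with
  | zero h1 =>
    subst hC'
    have h2 := Dense.map_inj hD'
    subst h2
    exact TowR.zero ((h.cld_iff hc).1 h1)
  | @succ n A₁ B₁ z s hz hT ih =>
    have h2 : z ∈ D.map ι := by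
      rw [← hD']
      exact hT.le (self_mem_cadj w A₁ z)
    obtain ⟨z₀, -, rfl⟩ := h2
    subst hC'
    exact TowR.succ (h.tl_iff.1 hz) (ih (h.cadj_map hc C z₀) hD')

end IsoE

end Pool.Agent.TWS
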