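import Pool.Agent.Lib.TWX.Core
import Pool.Agent.Lib.TWC.SND

/-!
# TANK W, exchange of tight bases: the map `α`

`M` closed, `x`, `u` tight of level `r` in `M`, `v (u 0 - x 0) ≥ r + γ`, `γ > 0` (`Pr`).
The map `Q (x J) ↦ Q (u J)`, `Q` a polynomial over `M` of degree `< p ^ J`, extends to an additive
isometry of `M EW(x)` onto `M EW(u)`, multiplicative with the gain `γ` (`Pr.exists_alm`).
If `v (x 0 - a) ≤ r` for all `a` algebraic over `P ≤ M`, then it is near, with the gain `γ`, to the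
isomorphism of `EW v P x` onto `EW v P u` over `P` which maps `x n` to `u n` (`Pr.clo`).
-/

set_option autoImplicit false

open Polynomial IntermediateField

namespace Pool.Agent.TWX

open Pool.Agent.H15JM (RVal)
open Pool.Agent.LU1 (VPos adj)
open Pool.Agent.D2 (Ctx0)
open Pool.Agent.D2P (clI mem_clI)
open Pool.Agent.TWM
open Pool.Agent.TWS (IsoE AlM Nb Clo ge_eval nr_lim nr_div)
open Pool.Agent.TWC (Tgt SND EW ge_of_eps wt root_pow_add self_le_clI clI_mono' ge_pow_iff)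

universe u

variable {k Ω : Type u} [Field k] [Field Ω] [Algebra k Ω] {v : RVal Ω}
  {M N P : IntermediateField k Ω}

theorem eq_zero_of_ge {y : Ω} (h : ∀ c : ℝ, v.Ge c y) : y = 0 := by
  by_contra h0
  have := h (v y + 1) h0
  linarith

/-! ### Polynomials -/

/-- Reduction modulo `X ^ N - c`. -/
theorem exists_rem' {n : ℕ} (hn : n ≠ 0) {Q : Polynomial Ω} {c : Ω} (hc : c ∈ M)
    (hQ : Q ∈ PI M) : ∃ R ∈ PI M, ∃ S : Polynomial Ω, Q = R + (X ^ n - C c) * S ∧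
      R.natDegree < n := by
  have hl : Q ∈ Polynomial.lifts (algebraMap M Ω) := by
    rw [Polynomial.lifts_iff_coeff_lifts]
    exact fun i => ⟨⟨Q.coeff i, hQ i⟩, rfl⟩
  obtain ⟨g, hg⟩ := hl
  have hg' : g.map (algebraMap M Ω) = Q := hg
  have hq : (X ^ n - C (⟨c, hc⟩ : M)).Monic := monic_X_pow_sub_C _ hn
  refine ⟨(g %ₘ (X ^ n - C (⟨c, hc⟩ : M))).map (algebraMap M Ω), fun i => by
    rw [coeff_map]; exact SetLike.coe_mem _,
    (g /ₘ (X ^ n - C (⟨c, hc⟩ : M))).map (algebraMap M Ω), ?_, ?_⟩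
  · have h1 := modByMonic_add_div g (X ^ n - C (⟨c, hc⟩ : M))
    have h2 := congrArg (Polynomial.map (algebraMap M Ω)) h1
    rw [Polynomial.map_add, Polynomial.map_mul, Polynomial.map_sub, Polynomial.map_pow, map_X,
      map_C, hg'] at h2
    exact h2.symm
  · rw [natDegree_map]
    have h3 := natDegree_modByMonic_lt g hq (by
      intro h7
      have h8 := congrArg natDegree h7
      rw [natDegree_X_pow_sub_C, natDegree_one] at h8
      exact hn h8)
    rwa [natDegree_X_pow_sub_C] at h3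

/-- The elements of `M(y)`, `y ^ n ∈ M`. -/
theorem exists_rep' {n : ℕ} (hn : n ≠ 0) {y : Ω} (hy : y ^ n ∈ M) {f : Ω} (hf : f ∈ adj M y) :
    ∃ Q ∈ PI M, Q.natDegree < n ∧ Q.eval y = f := by
  have hint : IsIntegral M y := by
    refine ⟨X ^ n - C (⟨y ^ n, hy⟩ : M), monic_X_pow_sub_C _ hn, ?_⟩
    rw [eval₂_sub, eval₂_X_pow, eval₂_C]
    exact sub_self _
  rw [D2P.mem_adj_iff] at hf
  have h4 : f ∈ Algebra.adjoin M {y} := by
    rw [← IntermediateField.adjoin_simple_toSubalgebra_of_isAlgebraic hint.isAlgebraic]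
    exact hf
  rw [Algebra.adjoin_singleton_eq_range_aeval] at h4
  obtain ⟨Q, hQ⟩ := h4
  have hQ' : aeval y Q = f := hQ
  have hPI : Q.map (algebraMap M Ω) ∈ PI M := fun i => by
    rw [coeff_map]; exact SetLike.coe_mem _
  obtain ⟨R, hR, S, hS, hdeg⟩ := exists_rem' hn hy hPI
  refine ⟨R, hR, hdeg, ?_⟩
  have h5 := congrArg (eval y) hS
  rw [eval_add, eval_mul, eval_sub, eval_pow, eval_X, eval_C, sub_self, zero_mul, add_zero,
    eval_map_algebraMap, hQ'] at h5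
  exact h5.symm

theorem expand_mem_PI {q : ℕ} (hq : 0 < q) {Q : Polynomial Ω} (hQ : Q ∈ PI M) :
    expand Ω q Q ∈ PI M := fun i => by
  rw [coeff_expand hq]
  split_ifs
  exacts [hQ _, zero_mem _]

/-! ### Density -/

section Dense

variable {p : ℕ} {x : ℕ → Ω}

theorem exists_adj (hr : ∀ n, x (n + 1) ^ p = x n) {f : Ω}
    (hf : f ∈ N ⊔ IntermediateField.adjoin k (Set.range x)) : ∃ n, f ∈ adj N (x n) := by
  have hm : Monotone fun n => adj N (x n) := by
    refine monotone_nat_of_le_succ fun n => ?_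
    refine D2P.adj_le (D2P.mem_adj_self N _).2 ?_
    rw [← hr n]
    exact pow_mem (D2P.mem_adj_self N _).1 _
  have h1 : N ⊔ IntermediateField.adjoin k (Set.range x) ≤ ⨆ n, adj N (x n) := by
    refine sup_le (((D2P.mem_adj_self N (x 0)).2).trans (le_iSup (fun n => adj N (x n)) 0)) ?_
    rw [IntermediateField.adjoin_le_iff]
    rintro _ ⟨n, rfl⟩
    exact (le_iSup (fun n => adj N (x n)) n) (D2P.mem_adj_self N _).1
  have h2 : f ∈ ((⨆ n, adj N (x n) : IntermediateField k Ω) : Set Ω) := h1 hf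
  rw [IntermediateField.coe_iSup_of_directed hm.directed_le] at h2
  exact Set.mem_iUnion.1 h2

theorem sup_EW_le (hPM : P ≤ M) :
    clI v (M ⊔ EW v P x) ≤ clI v (M ⊔ IntermediateField.adjoin k (Set.range x)) := by
  have h1 : M ⊔ EW v P x ≤ clI v (M ⊔ IntermediateField.adjoin k (Set.range x)) := by
    refine sup_le (le_sup_left.trans (self_le_clI v _)) ?_
    exact clI_mono' (sup_le_sup_right hPM _)
  exact fun y hy => cld_clI v _ (clI_mono' h1 hy)

theorem exists_pol [hp : Fact p.Prime] (hPM : P ≤ M) (hr : ∀ n, x (n + 1) ^ p = x n)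
    (h0 : x 0 ∈ M) {f : Ω} (hf : f ∈ clI v (M ⊔ EW v P x)) (c : ℝ) :
    ∃ (J : ℕ) (Q : Polynomial Ω), Q ∈ PI M ∧ Q.natDegree < p ^ J ∧ v.Ge c (f - Q.eval (x J)) := by
  obtain ⟨y, hy, h1⟩ := mem_clI.1 (sup_EW_le hPM hf) c
  obtain ⟨J, hJ⟩ := exists_adj hr hy
  have h2 : x J ^ p ^ J ∈ M := by
    have := root_pow_add hr 0 J
    rw [zero_add] at this
    rwa [this]
  obtain ⟨Q, hQ, hd, rfl⟩ := exists_rep' (pow_pos hp.out.pos J).ne' h2 hJ
  exact ⟨J, Q, hQ, hd, h1⟩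

theorem eval_mem_sup {Q : Polynomial Ω} (hQ : Q ∈ PI M) (J : ℕ) :
    Q.eval (x J) ∈ clI v (M ⊔ EW v P x) :=
  self_le_clI v _ (eval_mem (PI_mono (le_sup_left : M ≤ M ⊔ EW v P x) hQ)
    ((le_sup_right : EW v P x ≤ M ⊔ EW v P x) (TWC.EW.mem J)))

end Dense

/-! ### The relation -/

/-- `Q (x J)` and `Q (u J)` are near to `f` and to `f'`. -/
structure Ap (p : ℕ) (v : RVal Ω) (M : IntermediateField k Ω) (x u : ℕ → Ω) (c : ℝ) (f f' : Ω)
    (J : ℕ) (Q : Polynomial Ω) : Prop where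
  pi : Q ∈ PI M
  deg : Q.natDegree < p ^ J
  nx : v.Ge c (f - Q.eval (x J))
  nu : v.Ge c (f' - Q.eval (u J))

/-- `f ↦ f'` is the limit of `Q (x J) ↦ Q (u J)`. -/
def Rl (p : ℕ) (v : RVal Ω) (M : IntermediateField k Ω) (x u : ℕ → Ω) (f f' : Ω) : Prop :=
  ∀ c : ℝ, ∃ (J : ℕ) (Q : Polynomial Ω), Ap p v M x u c f f' J Q

/-- Two tight elements which are near. -/
structure Pr (p : ℕ) (v : RVal Ω) (M : IntermediateField k Ω) (x u : ℕ → Ω) (r γ : ℝ) :
    Prop where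
  tx : Tgt p v M x r
  tu : Tgt p v M u r
  gap : v.Ge (r + γ) (u 0 - x 0)
  pos : 0 < γ

variable {p : ℕ} [hp : Fact p.Prime] {x u : ℕ → Ω} {r γ c b : ℝ} {f f' f'' g g' h' : Ω} {J J' : ℕ}
  {Q Q' : Polynomial Ω}

omit hp in
theorem Ap.symm (h : Ap p v M x u c f f' J Q) : Ap p v M u x c f' f J Q :=
  ⟨h.pi, h.deg, h.nu, h.nx⟩

omit hp in
theorem Rl.symm (h : Rl p v M x u f f') : Rl p v M u x f' f := fun c => by
  obtain ⟨J, Q, h1⟩ := h c
  exact ⟨J, Q, h1.symm⟩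

omit hp in
theorem Ap.mono (h : Ap p v M x u c f f' J Q) (hb : b ≤ c) : Ap p v M x u b f f' J Q :=
  ⟨h.pi, h.deg, h.nx.mono hb, h.nu.mono hb⟩

theorem Ap.lift (hx : ∀ n, x (n + 1) ^ p = x n) (hu : ∀ n, u (n + 1) ^ p = u n)
    (h : Ap p v M x u c f f' J Q) (d : ℕ) :
    Ap p v M x u c f f' (J + d) (expand Ω (p ^ d) Q) where
  pi := expand_mem_PI (pow_pos hp.out.pos d) h.pi
  deg := by
    rw [natDegree_expand, pow_add]
    exact Nat.mul_lt_mul_of_pos_right h.deg (pow_pos hp.out.pos d)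
  nx := by
    rw [expand_eval, root_pow_add hx]
    exact h.nx
  nu := by
    rw [expand_eval, root_pow_add hu]
    exact h.nu

theorem Ap.add (hx : ∀ n, x (n + 1) ^ p = x n) (hu : ∀ n, u (n + 1) ^ p = u n)
    (h : Ap p v M x u c f f' J Q) (h' : Ap p v M x u c g g' J' Q') :
    ∃ (J'' : ℕ) (Q'' : Polynomial Ω), Ap p v M x u c (f + g) (f' + g') J'' Q'' := by
  have h1 := h.lift hx hu J'
  have h2 := h'.lift hx hu J
  rw [add_comm J' J] at h2
  refine ⟨J + J', _ + _, add_mem h1.pi h2.pi,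
    lt_of_le_of_lt (natDegree_add_le _ _) (max_lt h1.deg h2.deg), ?_, ?_⟩
  · rw [eval_add, add_sub_add_comm]
    exact h1.nx.add h2.nx
  · rw [eval_add, add_sub_add_comm]
    exact h1.nu.add h2.nu

omit hp in
theorem Ap.neg (h : Ap p v M x u c f f' J Q) : Ap p v M x u c (-f) (-f') J (-Q) where
  pi := neg_mem h.pi
  deg := by rw [natDegree_neg]; exact h.deg
  nx := by
    rw [eval_neg, neg_sub_neg, ← neg_sub]
    exact h.nx.neg
  nu := by
    rw [eval_neg, neg_sub_neg, ← neg_sub]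
    exact h.nu.neg

theorem Rl.add (hx : ∀ n, x (n + 1) ^ p = x n) (hu : ∀ n, u (n + 1) ^ p = u n)
    (h : Rl p v M x u f f') (h' : Rl p v M x u g g') : Rl p v M x u (f + g) (f' + g') :=
  fun c => by
    obtain ⟨J, Q, h1⟩ := h c
    obtain ⟨J', Q', h2⟩ := h' c
    exact h1.add hx hu h2

omit hp in
theorem Rl.neg (h : Rl p v M x u f f') : Rl p v M x u (-f) (-f') := fun c => by
  obtain ⟨J, Q, h1⟩ := h c
  exact ⟨J, -Q, h1.neg⟩

/-! ### The isometry -/

section Main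

variable [CharP k p] [CharP Ω p] [IsAlgClosed Ω]

omit hp [CharP k p] [CharP Ω p] [IsAlgClosed Ω] in
theorem Pr.symm (h : Pr p v M x u r γ) : Pr p v M u x r γ :=
  ⟨h.tu, h.tx, ge_sub_comm h.gap, h.pos⟩

omit [CharP k p] [IsAlgClosed Ω] in
theorem Pr.diff (h : Pr p v M x u r γ) (J : ℕ) : v.Ge ((r + γ) / p ^ J) (u J - x J) := by
  have hp0 : (0 : ℝ) < (p : ℝ) ^ J := pow_pos (by exact_mod_cast hp.out.pos) J
  rw [← ge_pow_iff (N := p ^ J) (pow_pos hp.out.pos J), TWC.sub_pow_root h.tx.root h.tu.root]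
  push_cast
  rw [mul_div_cancel₀ _ hp0.ne']
  exact h.gap

omit [CharP k p] [IsAlgClosed Ω] in
theorem Pr.diff' (h : Pr p v M x u r γ) (J : ℕ) : v.Ge (r / p ^ J) (u J - x J) := by
  have hp0 : (0 : ℝ) < (p : ℝ) ^ J := pow_pos (by exact_mod_cast hp.out.pos) J
  refine (h.diff J).mono ?_
  have := h.pos
  gcongr
  linarith

/-- The jets. -/
theorem Pr.jets (h0 : Ctx0 k v) (hc : CompleteV v) (h : Pr p v M x u r γ) (hQ : Q ∈ PI M)
    (hd : Q.natDegree < p ^ J) (hb : v.Ge c (Q.eval (x J))) (n : ℕ) :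
    v.Ge (c - n * (r / p ^ J)) ((taylor (x J) Q).coeff n) := by
  rcases lt_or_ge n (p ^ J) with hn | hn
  · refine (h.tx.snd.norm h0 hc J Q hQ n hn c hb).mono ?_
    have hp0 : (0 : ℝ) < p := by exact_mod_cast hp.out.pos
    have h1 := h.tx.snd.wt_le J n hn
    have h2 : (n : ℝ) * (p * (r / p ^ 1)) / p ^ J = n * (r / p ^ J) := by
      rw [pow_one, mul_div_cancel₀ _ hp0.ne']
      ring
    rw [h2] at h1
    linarith
  · rw [coeff_eq_zero_of_natDegree_lt (by rw [natDegree_taylor]; omega)]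
    exact RVal.Ge.zero

/-- The isometry on polynomials. -/
theorem Pr.iso (h0 : Ctx0 k v) (hc : CompleteV v) (h : Pr p v M x u r γ) (hQ : Q ∈ PI M)
    (hd : Q.natDegree < p ^ J) (hb : v.Ge c (Q.eval (x J))) : v.Ge c (Q.eval (u J)) := by
  rw [eval_eq_taylor Q (x J) (u J)]
  exact ge_eval (h.jets h0 hc hQ hd hb) (h.diff' J)

omit [CharP k p] [IsAlgClosed Ω] in
/-- **The gain of the reduction modulo `X ^ (p ^ J) - x 0`.** -/
theorem Pr.red (h : Pr p v M x u r γ) {T A S : Polynomial Ω}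
    (hT : ∀ n : ℕ, v.Ge (c - n * (r / p ^ J)) ((taylor (x J) T).coeff n))
    (hTA : T = A + (X ^ p ^ J - C (x 0)) * S) (hd : A.natDegree < p ^ J) :
    v.Ge (c + γ) (T.eval (u J) - A.eval (u J)) := by
  have hp0 : (0 : ℝ) < (p : ℝ) ^ J := pow_pos (by exact_mod_cast hp.out.pos) J
  have hx0 : x J ^ p ^ J = x 0 := by
    have := root_pow_add h.tx.root 0 J
    rwa [zero_add] at this
  have hu0 : u J ^ p ^ J = u 0 := by
    have := root_pow_add h.tu.root 0 J
    rwa [zero_add] at this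
  have e1 : T.eval (u J) - A.eval (u J) = (u 0 - x 0) * S.eval (u J) := by
    rw [hTA, eval_add, eval_mul, eval_sub, eval_pow, eval_X, eval_C, hu0]
    ring
  have e2 : taylor (x J) T = taylor (x J) A + X ^ p ^ J * taylor (x J) S := by
    rw [hTA, map_add, taylor_mul, map_sub, taylor_pow, taylor_X, taylor_C, add_pow_char_pow,
      ← C_pow, hx0, add_sub_cancel_right]
  have hS : ∀ n : ℕ, v.Ge (c - r - n * (r / p ^ J)) ((taylor (x J) S).coeff n) := by
    intro n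
    have h1 := hT (n + p ^ J)
    rw [e2, coeff_add, coeff_X_pow_mul, coeff_eq_zero_of_natDegree_lt (by
      rw [natDegree_taylor]; omega), zero_add] at h1
    refine h1.mono (le_of_eq ?_)
    push_cast
    field_simp
    ring
  have h2 : v.Ge (c - r) (S.eval (u J)) := by
    rw [eval_eq_taylor S (x J) (u J)]
    exact ge_eval hS (h.diff' J)
  rw [e1]
  exact (h.gap.mul h2).mono (by linarith)

theorem Pr.ap_ge (h0 : Ctx0 k v) (hc : CompleteV v) (h : Pr p v M x u r γ)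
    (h1 : Ap p v M x u c f f' J Q) (hf : v.Ge c f) : v.Ge c f' := by
  have h2 : v.Ge c (Q.eval (x J)) := by
    have e : Q.eval (x J) = f - (f - Q.eval (x J)) := by ring
    rw [e]
    exact hf.sub h1.nx
  have e : f' = (f' - Q.eval (u J)) + Q.eval (u J) := by ring
  rw [e]
  exact h1.nu.add (h.iso h0 hc h1.pi h1.deg h2)

theorem Pr.rl_ge (h0 : Ctx0 k v) (hc : CompleteV v) (h : Pr p v M x u r γ)
    (h1 : Rl p v M x u f f') (hf : v.Ge c f) : v.Ge c f' := by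
  obtain ⟨J, Q, h2⟩ := h1 c
  exact h.ap_ge h0 hc h2 hf

theorem Pr.ap_uniq (h0 : Ctx0 k v) (hc : CompleteV v) (h : Pr p v M x u r γ)
    (h1 : Ap p v M x u c f f' J Q) (h2 : Ap p v M x u c f f'' J' Q') : v.Ge c (f' - f'') := by
  obtain ⟨J₀, Q₀, h3⟩ := h1.add h.tx.root h.tu.root h2.neg
  rw [sub_eq_add_neg]
  refine h.ap_ge h0 hc h3 ?_
  rw [add_neg_cancel]
  exact RVal.Ge.zero

theorem Pr.rl_uniq (h0 : Ctx0 k v) (hc : CompleteV v) (h : Pr p v M x u r γ)
    (h1 : Rl p v M x u f f') (h2 : Rl p v M x u f f'') : f' = f'' := by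
  refine sub_eq_zero.1 (eq_zero_of_ge (v := v) fun c => ?_)
  obtain ⟨J, Q, h3⟩ := h1 c
  obtain ⟨J', Q', h4⟩ := h2 c
  exact h.ap_uniq h0 hc h3 h4

theorem Pr.rl_exists (h0 : Ctx0 k v) (hc : CompleteV v) (h : Pr p v M x u r γ) (hPM : P ≤ M)
    (hf : f ∈ clI v (M ⊔ EW v P x)) :
    ∃ f' ∈ clI v (M ⊔ EW v P u), Rl p v M x u f f' := by
  have h1 : ∀ n : ℕ, ∃ (J : ℕ) (Q : Polynomial Ω), Q ∈ PI M ∧ Q.natDegree < p ^ J ∧
      v.Ge n (f - Q.eval (x J)) := fun n => exists_pol hPM h.tx.root h.tx.mem hf n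
  choose Jn Qn hQ hd hn using h1
  have hAp : ∀ n : ℕ, ∀ c : ℝ, c ≤ n →
      Ap p v M x u c f ((Qn n).eval (u (Jn n))) (Jn n) (Qn n) := fun n c hcn =>
    ⟨hQ n, hd n, (hn n).mono hcn, by rw [sub_self]; exact RVal.Ge.zero⟩
  obtain ⟨f', hf'⟩ := hc (fun n => (Qn n).eval (u (Jn n))) (by
    intro c
    obtain ⟨N, hN⟩ := exists_nat_ge c
    refine ⟨N, fun m n hm hn => ?_⟩
    exact h.ap_uniq h0 hc (hAp m c (hN.trans (by exact_mod_cast hm)))
      (hAp n c (hN.trans (by exact_mod_cast hn))))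
  refine ⟨f', cld_clI v _ (mem_clI.2 fun c => ?_), fun c => ?_⟩
  · obtain ⟨N, hN⟩ := hf' c
    exact ⟨_, eval_mem_sup (hQ N) _, hN N le_rfl⟩
  · obtain ⟨N, hN⟩ := hf' c
    obtain ⟨N', hN'⟩ := exists_nat_ge c
    have h2 := hAp (max N N') c (hN'.trans (by exact_mod_cast le_max_right N N'))
    exact ⟨_, _, h2.pi, h2.deg, h2.nx, hN _ (le_max_left _ _)⟩

/-- **Multiplicativity with a gain.** -/
theorem Pr.rl_mul (h0 : Ctx0 k v) (hc : CompleteV v) (h : Pr p v M x u r γ)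
    (h1 : Rl p v M x u f f') (h2 : Rl p v M x u g g') (h3 : Rl p v M x u (f * g) h')
    (hf : v.Ge b f) (hg : v.Ge c g) : v.Ge (b + c + γ) (h' - f' * g') := by
  have hγ := h.pos
  set e : ℝ := max (b + γ) (max (c + γ) (b + c + γ)) with he
  have e1 : b + γ ≤ e := le_max_left _ _
  have e2 : c + γ ≤ e := (le_max_left _ _).trans (le_max_right _ _)
  have e3 : b + c + γ ≤ e := (le_max_right _ _).trans (le_max_right _ _)
  obtain ⟨J₁, Q₁, a1⟩ := h1 e
  obtain ⟨J₂, Q₂, a2⟩ := h2 e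
  obtain ⟨J₃, Q₃, a3⟩ := h3 e
  have hx := h.tx.root
  have hu := h.tu.root
  -- a common level
  obtain ⟨J, Q, S, T, b1, b2, b3⟩ : ∃ (J : ℕ) (Q S T : Polynomial Ω),
      Ap p v M x u e f f' J Q ∧ Ap p v M x u e g g' J S ∧ Ap p v M x u e (f * g) h' J T := by
    refine ⟨J₁ + (J₂ + J₃), expand Ω (p ^ (J₂ + J₃)) Q₁, expand Ω (p ^ (J₁ + J₃)) Q₂,
      expand Ω (p ^ (J₁ + J₂)) Q₃, a1.lift hx hu (J₂ + J₃), ?_, ?_⟩
    · have := a2.lift hx hu (J₁ + J₃)
      rwa [show J₂ + (J₁ + J₃) = J₁ + (J₂ + J₃) by omega] at this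
    · have := a3.lift hx hu (J₁ + J₂)
      rwa [show J₃ + (J₁ + J₂) = J₁ + (J₂ + J₃) by omega] at this
  have hx0 : x J ^ p ^ J = x 0 := by
    have := root_pow_add hx 0 J
    rwa [zero_add] at this
  -- values
  have hQx : v.Ge b (Q.eval (x J)) := by
    have e : Q.eval (x J) = f - (f - Q.eval (x J)) := by ring
    rw [e]
    exact hf.sub (b1.nx.mono (by linarith))
  have hSx : v.Ge c (S.eval (x J)) := by
    have e : S.eval (x J) = g - (g - S.eval (x J)) := by ring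
    rw [e]
    exact hg.sub (b2.nx.mono (by linarith))
  have hQu : v.Ge b (Q.eval (u J)) := h.iso h0 hc b1.pi b1.deg hQx
  have hg' : v.Ge c g' := h.rl_ge h0 hc h2 hg
  -- the remainder
  obtain ⟨A, hA, W, hW, hAd⟩ := exists_rem' (pow_pos hp.out.pos J).ne' h.tx.mem
    (mul_mem b1.pi b2.pi)
  have hjet : ∀ n : ℕ, v.Ge (b + c - n * (r / p ^ J)) ((taylor (x J) (Q * S)).coeff n) := by
    intro n
    rw [taylor_mul, coeff_mul]
    refine RVal.Ge.sum _ _ fun ij hij => ?_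
    have h4 := h.jets h0 hc b1.pi b1.deg hQx ij.1
    have h5 := h.jets h0 hc b2.pi b2.deg hSx ij.2
    refine (h4.mul h5).mono (le_of_eq ?_)
    have h6 : (n : ℝ) = ij.1 + ij.2 := by
      rw [← Finset.HasAntidiagonal.mem_antidiagonal.1 hij]
      push_cast
      rfl
    rw [h6]
    ring
  have h7 := h.red hjet hW hAd
  -- `A` and `T`
  have h8 : v.Ge (b + c + γ) ((A - T).eval (x J)) := by
    have h9 : A.eval (x J) = Q.eval (x J) * S.eval (x J) := by
      have := congrArg (eval (x J)) hW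
      rw [eval_mul, eval_add, eval_mul, eval_sub, eval_pow, eval_X, eval_C, hx0, sub_self,
        zero_mul, add_zero] at this
      exact this.symm
    have e : (A - T).eval (x J) = (f * g - T.eval (x J)) - ((f - Q.eval (x J)) * g +
        Q.eval (x J) * (g - S.eval (x J))) := by
      rw [eval_sub, h9]
      ring
    rw [e]
    exact (b3.nx.mono e3).sub (((b1.nx.mul hg).mono (by linarith)).add
      ((hQx.mul b2.nx).mono (by linarith)))
  have h10 : v.Ge (b + c + γ) ((A - T).eval (u J)) :=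
    h.iso h0 hc (sub_mem hA b3.pi)
      (lt_of_le_of_lt (natDegree_sub_le _ _) (max_lt hAd b3.deg)) h8
  have e4 : h' - f' * g' = (h' - T.eval (u J)) - (A - T).eval (u J) -
      ((Q * S).eval (u J) - A.eval (u J)) - ((f' - Q.eval (u J)) * g' +
        Q.eval (u J) * (g' - S.eval (u J))) := by
    rw [eval_sub, eval_mul]
    ring
  rw [e4]
  exact (((b3.nu.mono e3).sub h10).sub h7).sub (((b1.nu.mul hg').mono (by linarith)).add
    ((hQu.mul b2.nu).mono (by linarith)))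

/-- **The map `α`.** -/
theorem Pr.exists_alm (h0 : Ctx0 k v) (hc : CompleteV v) (h : Pr p v M x u r γ) (hPM : P ≤ M) :
    ∃ α : Ω → Ω, (∀ f ∈ clI v (M ⊔ EW v P x), Rl p v M x u f (α f)) ∧
      AlM v v (clI v (M ⊔ EW v P x)) (clI v (M ⊔ EW v P u)) γ α := by
  have h1 : ∀ f ∈ clI v (M ⊔ EW v P x), ∃ f' ∈ clI v (M ⊔ EW v P u), Rl p v M x u f f' :=
    fun f hf => h.rl_exists h0 hc hPM hf
  choose! α hα1 hα2 using h1
  refine ⟨α, hα2, ⟨hα1, fun b hb => ?_, fun f hf g hg => ?_, fun f hf c => ⟨fun h2 => ?_,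
    fun h2 => ?_⟩, fun f hf g hg c d hc' hd => ?_⟩⟩
  · obtain ⟨a, ha, h2⟩ := h.symm.rl_exists h0 hc hPM hb
    exact ⟨a, ha, h.rl_uniq h0 hc (hα2 a ha) h2.symm⟩
  · exact h.rl_uniq h0 hc (hα2 _ (add_mem hf hg)) ((hα2 f hf).add h.tx.root h.tu.root (hα2 g hg))
  · exact h.symm.rl_ge h0 hc (hα2 f hf).symm h2
  · exact h.rl_ge h0 hc (hα2 f hf) h2
  · exact h.rl_mul h0 hc (hα2 f hf) (hα2 g hg) (hα2 _ (mul_mem hf hg)) hc' hd

/-! ### `EW` -/

variable {H : Type u} [Field H] [Algebra k H] {w : RVal H}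

omit hp [CharP k p] [CharP Ω p] [IsAlgClosed Ω] in
theorem map_eval_of {ι Φ : Ω →ₐ[k] H} (hP : ∀ a ∈ P, Φ a = ι a) {a a' : Ω} (ha : Φ a = ι a')
    {T : Polynomial Ω} (hT : T ∈ PI P) : Φ (T.eval a) = ι (T.eval a') := by
  rw [eval_eq_sum_range, eval_eq_sum_range, map_sum, map_sum]
  refine Finset.sum_congr rfl fun i _ => ?_
  rw [map_mul, map_mul, map_pow, map_pow, ha, hP _ (hT i)]

/-- **`α` is near to the isomorphism of `EW v P x` onto `EW v P u`.** -/
theorem Pr.clo (h0 : Ctx0 k v) (hc : CompleteV v) (h : Pr p v M x u r γ) (hPM : P ≤ M)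
    (hfar : ∀ a : Ω, IsAlgebraic P a → x 0 ≠ a ∧ v (x 0 - a) ≤ r)
    {α : Ω → Ω} (hα1 : ∀ f ∈ clI v (M ⊔ EW v P x), Rl p v M x u f (α f))
    (hα : AlM v v (clI v (M ⊔ EW v P x)) (clI v (M ⊔ EW v P u)) γ α)
    {ι Φ : Ω →ₐ[k] H} (hι : IsoE v w ι) (hΦ : IsoE v w Φ) (hP : ∀ a ∈ P, Φ a = ι a)
    (hx : ∀ n, Φ (x n) = ι (u n)) : Clo v w (fun a => ι (α a)) γ Φ (EW v P x) := by
  have hα' := hα.comp hι
  have hPA : EW v P x ≤ clI v (M ⊔ EW v P x) := le_sup_right.trans (self_le_clI v _)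
  -- polynomials
  have hpol : ∀ T ∈ PI P, ∀ J : ℕ, ∀ c : ℝ, v.Ge c (T.eval (x J)) →
      w.Ge (c + γ) (Φ (T.eval (x J)) - ι (α (T.eval (x J)))) := by
    intro T hT J c hcT
    by_cases hT0 : T = 0
    · rw [hT0, eval_zero, map_zero, hα'.zero, sub_zero]
      exact RVal.Ge.zero
    have hx0 : x J ^ p ^ J = x 0 := by
      have := root_pow_add h.tx.root 0 J
      rwa [zero_add] at this
    have hjet : ∀ n : ℕ, v.Ge (c - n * (r / p ^ J)) ((taylor (x J) T).coeff n) := by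
      intro n
      have h1 : ∀ θ, T.IsRoot θ → x J ≠ θ ∧ v (x J - θ) ≤ r / p ^ J := by
        intro θ hθ
        have h2 : IsAlgebraic P θ := isAlgebraic_root hT hT0 hθ
        obtain ⟨h3, h4⟩ := hfar (θ ^ p ^ J) (h2.pow _)
        have h5 : x J ≠ θ := fun h6 => h3 (by rw [← hx0, h6])
        refine ⟨h5, ?_⟩
        have hp0 : (0 : ℝ) < (p : ℝ) ^ J := pow_pos (by exact_mod_cast hp.out.pos) J
        rw [← hx0, ← sub_pow_char_pow, v.map_pow (sub_ne_zero.2 h5)] at h4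
        rw [le_div_iff₀ hp0, mul_comm]
        exact_mod_cast h4
      have h2 := Roots.taylor_ge hT0 h1 n
      by_cases hTx : T.eval (x J) = 0
      · exact absurd rfl (h1 (x J) hTx).1
      · refine h2.mono ?_
        have := hcT hTx
        linarith
    obtain ⟨A, hA, S, hS, hAd⟩ := exists_rem' (pow_pos hp.out.pos J).ne' h.tx.mem
      (PI_mono hPM hT)
    have h3 := h.red hjet hS hAd
    have h4 : Rl p v M x u (T.eval (x J)) (A.eval (u J)) := fun c => by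
      refine ⟨J, A, hA, hAd, ?_, by rw [sub_self]; exact RVal.Ge.zero⟩
      have := congrArg (eval (x J)) hS
      rw [eval_add, eval_mul, eval_sub, eval_pow, eval_X, eval_C, hx0, sub_self,
        zero_mul, add_zero] at this
      rw [this, sub_self]
      exact RVal.Ge.zero
    have h5 : α (T.eval (x J)) = A.eval (u J) :=
      h.rl_uniq h0 hc (hα1 _ (eval_mem_sup (PI_mono hPM hT) J)) h4
    rw [h5, map_eval_of hP (hx J) hT, ← map_sub, hι.ge_iff]
    exact h3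
  -- quotients
  have hquo : ∀ J : ℕ, ∀ f ∈ adj P (x J), ∀ c : ℝ, v.Ge c f →
      w.Ge (c + γ) (Φ f - ι (α f)) := by
    intro J f hf c hcf
    obtain ⟨T, S, hTS⟩ := D2P.mem_adj_frac hf
    have hmap : ∀ T : Polynomial P, T.map (algebraMap P Ω) ∈ PI P := fun T i => by
      rw [coeff_map]; exact SetLike.coe_mem _
    have hev : ∀ T : Polynomial P, (T.map (algebraMap P Ω)).eval (x J) = aeval (x J) T :=
      fun T => eval_map_algebraMap T (x J)
    by_cases hS : aeval (x J) S = 0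
    · rw [hTS, hS, div_zero, map_zero, hα'.zero, sub_zero]
      exact RVal.Ge.zero
    have hfS : f * aeval (x J) S = aeval (x J) T := by
      rw [hTS, div_mul_cancel₀ _ hS]
    have hfA : f ∈ clI v (M ⊔ EW v P x) :=
      hPA (D2P.adj_le TWC.EW.le (TWC.EW.mem J) hf)
    refine nr_div hα' hΦ le_rfl hfA (g := aeval (x J) S) ?_ hS ?_ ?_ hcf
    · rw [← hev]
      exact eval_mem_sup (PI_mono hPM (hmap S)) J
    · intro c hc'
      rw [← hev] at hc' ⊢
      exact hpol _ (hmap S) J c hc'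
    · intro c hc'
      rw [hfS, ← hev] at hc' ⊢
      exact hpol _ (hmap T) J c hc'
  intro f hf c hcf
  refine nr_lim hα' hΦ h.pos.le (S := {y | ∃ J, y ∈ adj P (x J)}) ?_ ?_ (hPA hf) ?_ hcf
  · rintro y ⟨J, hJ⟩
    exact hPA (D2P.adj_le TWC.EW.le (TWC.EW.mem J) hJ)
  · rintro y ⟨J, hJ⟩ c hc'
    exact hquo J y hJ c hc'
  · intro c
    obtain ⟨y, hy, h1⟩ := mem_clI.1 hf c
    exact ⟨y, exists_adj h.tx.root hy, h1⟩

end Main

end Pool.Agent.TWX
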