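import Pool.Agent.Lib.TWX.Pair
import Pool.Agent.Lib.TWC.Lv0E

/-!
# TANK W, class I: finitely many drops

`C` closed, `X` the roots of `X 0 ∈ C`, `SND p v C X ρ` with `ρ (n + 1) = r / p ^ (n + 1)` for large
`n`, `C E` one floor of radius `s` over `E = EW v ⊥ X`.

* `exists_near_tgt`: some `t` in `C` near to `X m` is tight of level `r / p ^ m`, in `C` and in
  `C(X m)`;
* `drop_floor`: `C(X m) E'` is one floor of radius `s` over `E' = EW v ⊥ t`;
* `floor_down1`, `floor_down`: `P` perfect, `L ≤ P<y>`, `P<y> ^ (p ^ e) ≤ L`: `L = P<y ^ (p ^ i)>`;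
* `drop`: `C E'` is one floor over `E'`, of radius `p ^ i s`.
-/

set_option autoImplicit false

open Polynomial IntermediateField

namespace Pool.Agent.TWX

open Pool.Agent.H15JM (RVal)
open Pool.Agent.LU1 (VPos adj)
open Pool.Agent.D2 (Ctx0)
open Pool.Agent.D2P (clI mem_clI mem_adj_self)
open Pool.Agent.TWM
open Pool.Agent.TWS (TowR)
open Pool.Agent.TWC (Tgt SND EW Dst root_pow_add self_le_clI clI_mono' clI_le' ge_pow_iff ew_eq
  cld_inf_tgt)

universe u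

section Floor

variable {k Ω : Type u} [Field k] [Field Ω] [Algebra k Ω] {v : RVal Ω}
  {L P : IntermediateField k Ω} {p : ℕ} [hp : Fact p.Prime] [CharP Ω p] [IsAlgClosed Ω]
  {y : Ω} {s : ℝ}

/-- The `p`-th power of a generator. -/
theorem tl_pow_p (hy : TL v P y s) : TL v P (y ^ p) (p * s) := by
  have hp0 : (0 : ℝ) < p := by exact_mod_cast hp.out.pos
  refine ⟨?_, ?_⟩
  · intro ε hε
    obtain ⟨b, hb, h1⟩ := hy.lim (ε / p) (div_pos hε hp0)
    refine ⟨b ^ p, pow_mem hb p, ?_⟩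
    rw [← sub_pow_char]
    exact (TWM.ge_pow h1 p).mono (by rw [mul_sub, mul_div_cancel₀ _ hp0.ne'])
  · intro θ hθ
    obtain ⟨θ', rfl⟩ := IsAlgClosed.exists_pow_nat_eq θ hp.out.pos
    obtain ⟨h1, h2⟩ := hy.far θ' (IsAlgebraic.of_pow hp.out.pos hθ)
    have h3 : y - θ' ≠ 0 := sub_ne_zero.2 h1
    rw [← sub_pow_char, v.map_pow h3]
    refine ⟨?_, mul_lt_mul_of_pos_left h2 hp0⟩
    rw [← sub_ne_zero, ← sub_pow_char]
    exact pow_ne_zero p h3

omit [IsAlgClosed Ω] in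
/-- The closed fields between `P<y>^p` and `P<y>`. -/
theorem floor_down1 (hc : CompleteV v) (hP : ∀ a ∈ P, ∃ b ∈ P, b ^ p = a) (hL : Cld v L)
    (hLy : L ≤ cadj v P y) (hyL : ∀ a ∈ cadj v P y, a ^ p ∈ L) :
    L = cadj v P y ∨ L = cadj v P (y ^ p) := by
  have hPL : P ≤ L := fun a ha => by
    obtain ⟨b, hb, rfl⟩ := hP a ha
    exact hyL b (le_cadj v P y hb)
  have hy1 : y ^ p ∈ L := hyL y (self_mem_cadj v P y)
  have h1 : cadj v P (y ^ p) ≤ L := cadj_le hL hPL hy1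
  by_cases hy : y ∈ L
  · exact Or.inl (le_antisymm hLy (cadj_le hL hPL hy))
  · right
    refine le_antisymm (fun l hl => ?_) h1
    by_contra hlK
    apply hy
    have hcl : Cld v (adj (cadj v P (y ^ p)) y) :=
      cld_adj' p hc (cld_cadj v _ _) (self_mem_cadj v P (y ^ p))
    have hle : cadj v P y ≤ adj (cadj v P (y ^ p)) y :=
      cadj_le hcl ((le_cadj v P _).trans (mem_adj_self _ y).2) (mem_adj_self _ y).1
    have h2 : y ∈ adj (cadj v P (y ^ p)) l :=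
      D2P.mem_adj_of_prime p (self_mem_cadj v P (y ^ p)) (fun h3 => hy (h1 h3)) (hle (hLy hl)) hlK
    exact D2P.adj_le h1 hl h2

/-- The closed fields between `P<y>^(p^e)` and `P<y>`. -/
theorem floor_down (hc : CompleteV v) (hP : ∀ a ∈ P, ∃ b ∈ P, b ^ p = a) (e : ℕ) :
    ∀ {L : IntermediateField k Ω}, Cld v L → L ≤ cadj v P y →
      (∀ a ∈ cadj v P y, a ^ p ^ e ∈ L) → ∃ i ≤ e, L = cadj v P (y ^ p ^ i) := by
  induction e with
  | zero =>
    intro L _ hLy hyL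
    refine ⟨0, le_rfl, ?_⟩
    rw [pow_zero, pow_one]
    refine le_antisymm hLy fun a ha => ?_
    have := hyL a ha
    rwa [pow_zero, pow_one] at this
  | succ e ih =>
    intro L hL hLy hyL
    have h1 : Cld v (cadj v P y ⊓ D2P.rootF p 1 L) :=
      cld_inf_tgt (cld_cadj v P y) (cld_rootF p hL)
    obtain ⟨i, hi, h2⟩ := ih h1 inf_le_left fun a ha => ⟨pow_mem ha _, (mem_rootF1 p).2 (by
      rw [← pow_mul, ← pow_succ]
      exact hyL a ha)⟩
    have h3 : L ≤ cadj v P (y ^ p ^ i) := by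
      rw [← h2]
      exact le_inf hLy (le_rootF p L)
    have h4 : ∀ a ∈ cadj v P (y ^ p ^ i), a ^ p ∈ L := by
      rw [← h2]
      exact fun a ha => (mem_rootF1 p).1 ha.2
    rcases floor_down1 hc hP hL h3 h4 with h5 | h5
    · exact ⟨i, hi.trans (Nat.le_succ e), h5⟩
    · refine ⟨i + 1, Nat.succ_le_succ hi, ?_⟩
      rw [pow_succ, pow_mul]
      exact h5

/-- The powers of a generator. -/
theorem tl_pow (hy : TL v P y s) (i : ℕ) : TL v P (y ^ p ^ i) (p ^ i * s) := by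
  induction i with
  | zero =>
    rw [pow_zero, pow_one, pow_zero, one_mul]
    exact hy
  | succ i ih =>
    have h1 := tl_pow_p (p := p) ih
    rw [← pow_mul, ← pow_succ, ← mul_assoc, ← pow_succ'] at h1
    exact h1

end Floor

variable {k Ω : Type u} [Field k] [Field Ω] [Algebra k Ω] {v : RVal Ω}
  {C P : IntermediateField k Ω} {p : ℕ} [hp : Fact p.Prime] {X t : ℕ → Ω} {ρ : ℕ → ℝ}
  {r s : ℝ} {y : Ω}

omit hp in
theorem EW_shift_add (hr : ∀ n, X (n + 1) ^ p = X n) (m : ℕ) :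
    EW v P (fun n => X (m + n)) = EW v P X := by
  refine le_antisymm (EW_le_of TWC.EW.cld TWC.EW.le fun n => TWC.EW.mem (m + n))
    (EW_le_of TWC.EW.cld TWC.EW.le fun n => ?_)
  have h1 := root_pow_add hr n m
  rw [← h1, add_comm n m]
  have h2 : (fun n => X (m + n)) n ∈ EW v P fun n => X (m + n) := TWC.EW.mem n
  exact pow_mem h2 _

omit hp in
theorem adj_mono_root (hr : ∀ n, X (n + 1) ^ p = X n) (m n : ℕ) :
    adj C (X m) ≤ adj C (X (m + n)) := by
  refine D2P.adj_le (mem_adj_self C _).2 ?_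
  rw [← root_pow_add hr m n]
  exact pow_mem (mem_adj_self C _).1 _

omit hp in
theorem SND.dstC (h : SND p v C X ρ) (n : ℕ) : Dst v C (X (n + 1)) (ρ (n + 1)) := by
  refine ⟨?_, h.near n⟩
  rintro ⟨a, ha, h1⟩
  exact h.far n ⟨a, (mem_adj_self C _).2 ha, h1⟩

variable [CharP k p] [CharP Ω p] [IsAlgClosed Ω]

omit [CharP k p] in
/-- **A tight element near to `X m`.** -/
theorem exists_near_tgt (hc : CompleteV v) (hS : SND p v C X ρ) {j₀ : ℕ}
    (hρ : ∀ n, j₀ ≤ n → ρ (n + 1) = r / p ^ (n + 1)) :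
    ∃ (m : ℕ) (t : ℕ → Ω), m ≤ j₀ ∧ t 0 ∈ C ∧ (∀ n, t (n + 1) ^ p = t n) ∧
      (∀ i, Gt v (r / p ^ (m + i)) (t i - X (m + i))) ∧ Tgt p v C t (r / p ^ m) ∧
      Tgt p v (adj C (X m)) (fun n => X (m + n)) (r / p ^ m) ∧
      Tgt p v (adj C (X m)) t (r / p ^ m) := by
  obtain ⟨m, t, hm, ht0, ht, htX, htS⟩ := TWC.exists_base hS.cld hS.mem hS.root j₀ (r := r)
    fun n hn => by
      rw [← hρ n hn]
      exact SND.dstC hS n
  have e : ∀ n, r / (p : ℝ) ^ m / p ^ n = r / p ^ (m + n) := fun n => by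
    rw [div_div, ← pow_add]
  have h1 : Tgt p v C t (r / p ^ m) := ⟨hS.cld, ht0, ht, fun n => SND.dstC htS n⟩
  have h2 : Tgt p v (adj C (X m)) (fun n => X (m + n)) (r / p ^ m) := by
    refine ⟨cld_adj hc hS.cld (hS.isAlg m), (mem_adj_self C _).1, fun n => hS.root (m + n),
      fun n => ?_⟩
    have h3 : Dst v C (X (m + (n + 1))) (r / p ^ m / p ^ (n + 1)) := by
      refine (h1.dst n).congr ?_
      rw [e]
      exact htX (n + 1)
    have h4 : Dst v C (X (m + n + 1)) (ρ (m + n + 1)) := SND.dstC hS (m + n)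
    have h5 : ρ (m + n + 1) = r / p ^ m / p ^ (n + 1) := h4.uniq h3
    refine ⟨?_, h3.near.mono (mem_adj_self C _).2⟩
    rintro ⟨a, ha, h6⟩
    refine hS.far (m + n) ⟨a, adj_mono_root hS.root m n ha, ?_⟩
    rw [h5]
    exact h6
  refine ⟨m, t, hm, ht0, ht, htX, h1, h2, h2.congr ht ((mem_adj_self C _).2 ht0) ?_⟩
  have h3 := htX 0
  exact h3

variable [PerfectRing k p] [IsAlgClosed k] [hcx : Fact (Ctx0 k v)]

/-- **The floor over the roots of `t`.** -/
theorem drop_floor (hc : CompleteV v) {m : ℕ} {r' : ℝ}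
    (hr : ∀ n, X (n + 1) ^ p = X n)
    (hX : Tgt p v (adj C (X m)) (fun n => X (m + n)) r')
    (ht0 : t 0 ∈ C) (ht : ∀ n, t (n + 1) ^ p = t n) (htX : Gt v r' (t 0 - X m))
    (hy : TL v (EW v (⊥ : IntermediateField k Ω) X) y s)
    (hC : EW v C X = cadj v (EW v (⊥ : IntermediateField k Ω) X) y) :
    ∃ y' : Ω, TL v (EW v (⊥ : IntermediateField k Ω) t) y' s ∧
      EW v (adj C (X m)) t = cadj v (EW v (⊥ : IntermediateField k Ω) t) y' := by
  have e1 : EW v (⊥ : IntermediateField k Ω) (fun n => X (m + n)) = EW v ⊥ X :=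
    EW_shift_add hr m
  have e2 : EW v (adj C (X m)) (fun n => X (m + n)) = EW v C X := by
    rw [EW_shift_add hr m]
    refine le_antisymm (EW_le_of TWC.EW.cld (D2P.adj_le TWC.EW.le (TWC.EW.mem m))
      fun n => TWC.EW.mem n) (EW_mono (mem_adj_self C _).2)
  have h1 : TowR v 0 (cadj v (EW v (⊥ : IntermediateField k Ω) (fun n => X (m + n))) y)
      (clI v (adj C (X m) ⊔ EW v ⊥ (fun n => X (m + n)))) := by
    rw [ew_eq, e1, e2, hC]
    exact TowR.zero (cld_cadj v _ _)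
  obtain ⟨y', h2, h3⟩ := exch_first hcx.out hc hX ht ((mem_adj_self C _).2 ht0) htX bot_le
    (far_of_bot hcx.out hc hX) (by rw [e1]; exact hy) h1
  refine ⟨y', h2, ?_⟩
  obtain ⟨-, h4⟩ := TWS.towR_iff_zero.1 h3
  rw [h4, ew_eq]

/-- **Finitely many drops.** -/
theorem drop (hc : CompleteV v) (hS : SND p v C X ρ) {j₀ : ℕ}
    (hρ : ∀ n, j₀ ≤ n → ρ (n + 1) = r / p ^ (n + 1))
    (hy : TL v (EW v (⊥ : IntermediateField k Ω) X) y s)
    (hC : EW v C X = cadj v (EW v (⊥ : IntermediateField k Ω) X) y) :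
    ∃ (m : ℕ) (t : ℕ → Ω), m ≤ j₀ ∧ t 0 ∈ C ∧ (∀ n, t (n + 1) ^ p = t n) ∧
      (∀ i, Gt v (r / p ^ (m + i)) (t i - X (m + i))) ∧ Tgt p v C t (r / p ^ m) ∧
      ∃ (y' : Ω) (i : ℕ), i ≤ m ∧ TL v (EW v (⊥ : IntermediateField k Ω) t) y' (p ^ i * s) ∧
        EW v C t = cadj v (EW v (⊥ : IntermediateField k Ω) t) y' := by
  obtain ⟨m, t, hm, ht0, ht, htX, h1, h2, h3⟩ := exists_near_tgt hc hS hρ
  refine ⟨m, t, hm, ht0, ht, htX, h1, ?_⟩
  obtain ⟨y', h4, h5⟩ := drop_floor hc hS.root h2 ht0 ht (htX 0) hy hC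
  have hperf := TWC.perf_EW0 (v := v) (k := k) (p := p) ht
  have h6 : EW v C t ≤ cadj v (EW v (⊥ : IntermediateField k Ω) t) y' := by
    rw [← h5]
    exact EW_mono (mem_adj_self C _).2
  have h7 : ∀ a ∈ cadj v (EW v (⊥ : IntermediateField k Ω) t) y', a ^ p ^ m ∈ EW v C t := by
    rw [← h5]
    have h8 : EW v (adj C (X m)) t ≤ D2P.rootF p m (EW v C t) := by
      refine EW_le_of (TWC.cld_rootFn p m TWC.EW.cld) ?_ fun n => ?_
      · intro a ha
        exact D2P.mem_rootF.2 (TWC.EW.le (TWC.pow_mem_of_adj hS.root hS.mem m ha))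
      · exact D2P.mem_rootF.2 (pow_mem (TWC.EW.mem n) _)
    exact fun a ha => D2P.mem_rootF.1 (h8 ha)
  obtain ⟨i, hi, h8⟩ := floor_down hc hperf m TWC.EW.cld h6 h7
  exact ⟨y' ^ p ^ i, i, hi, tl_pow h4 i, h8⟩

end Pool.Agent.TWX
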