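import Pool.Agent.Lib.TWM.S8n

/-!
# TANK W, class I: Newton's lemma in closed fields, any gain

* `newtonE`: Newton's lemma in a closed subfield of a complete field, any gain;
* `newton_at`: the same at a point `a`, in terms of the Taylor expansion.
-/

set_option autoImplicit false

open Polynomial

namespace Pool.Agent.TWX

open Pool.Agent.H15JM (RVal)
open Pool.Agent.LU1 (VPos adj)
open Pool.Agent.D2 (Ctx0)
open Pool.Agent.D2P (clI mem_clI mem_adj_self)
open Pool.Agent.TWM

universe u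

variable {k Ω : Type u} [Field k] [Field Ω] [Algebra k Ω] {v : RVal Ω}

/-- Newton's lemma in a closed subfield of a complete field. -/
theorem newtonE (hc : CompleteV v) {B : IntermediateField k Ω} (hB : Cld v B) {g : Polynomial Ω}
    (hg : g ∈ PI B) {τ ε : ℝ} (hε : 0 < ε) (h1 : g.coeff 1 ≠ 0)
    (h0 : v.Ge (v (g.coeff 1) + τ) (g.coeff 0))
    (hl : ∀ l : ℕ, 2 ≤ l → v.Ge (v (g.coeff 1) + ε - (l - 1 : ℕ) * τ) (g.coeff l)) :
    ∃ η ∈ B, v.Ge τ η ∧ g.eval η = 0 := by
  set b₁ := g.coeff 1 with hb₁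
  let Φ : Ω → Ω := fun η => η - g.eval η / b₁
  -- the contraction
  have hexp : ∀ η, g.eval η = g.coeff 0 + b₁ * η +
      ∑ l ∈ Finset.range (g.natDegree + 1), if 2 ≤ l then g.coeff l * η ^ l else 0 := by
    intro η
    rw [eval_eq_sum_range' (n := g.natDegree + 1 + 2) (by omega)]
    have h2 : ∑ l ∈ Finset.range (g.natDegree + 1), (if 2 ≤ l then g.coeff l * η ^ l else 0) =
        ∑ l ∈ Finset.range (g.natDegree + 1 + 2), (if 2 ≤ l then g.coeff l * η ^ l else 0) := by
      symm
      rw [Finset.sum_range_succ, Finset.sum_range_succ]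
      rw [coeff_eq_zero_of_natDegree_lt (by omega : g.natDegree < g.natDegree + 1 + 1),
        coeff_eq_zero_of_natDegree_lt (by omega : g.natDegree < g.natDegree + 1)]
      simp
    rw [h2, Finset.sum_range_succ' _ (g.natDegree + 1 + 1), Finset.sum_range_succ' _ (g.natDegree + 1),
      Finset.sum_range_succ' _ (g.natDegree + 1 + 1), Finset.sum_range_succ' _ (g.natDegree + 1)]
    have h3 : ∀ l : ℕ, 2 ≤ l + 1 + 1 := fun l => by omega
    simp only [h3, if_true, zero_add, pow_zero, mul_one, pow_one]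
    norm_num
    rw [hb₁]
    ring
  have hlip : ∀ (η η' : Ω) (c : ℝ), v.Ge τ η → v.Ge τ η' → v.Ge (τ + c) (η - η') →
      v.Ge (τ + c + ε) (Φ η - Φ η') := by
    intro η η' c hη hη' hd
    have h2 : Φ η - Φ η' = - ((∑ l ∈ Finset.range (g.natDegree + 1),
        if 2 ≤ l then g.coeff l * (η ^ l - η' ^ l) else 0) * b₁⁻¹) := by
      show (η - g.eval η / b₁) - (η' - g.eval η' / b₁) = _
      rw [hexp η, hexp η']
      have h3 : ∑ l ∈ Finset.range (g.natDegree + 1),
          (if 2 ≤ l then g.coeff l * (η ^ l - η' ^ l) else 0) =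
          ∑ l ∈ Finset.range (g.natDegree + 1), (if 2 ≤ l then g.coeff l * η ^ l else 0) -
          ∑ l ∈ Finset.range (g.natDegree + 1), (if 2 ≤ l then g.coeff l * η' ^ l else 0) := by
        rw [← Finset.sum_sub_distrib]
        refine Finset.sum_congr rfl fun l _ => ?_
        split_ifs
        · ring
        · ring
      rw [h3]
      field_simp
      ring
    rw [h2]
    refine RVal.Ge.neg ?_
    have h3 : v.Ge (v b₁ + (τ + c + ε)) (∑ l ∈ Finset.range (g.natDegree + 1),
        if 2 ≤ l then g.coeff l * (η ^ l - η' ^ l) else 0) := by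
      refine RVal.Ge.sum _ _ fun l _ => ?_
      split_ifs with h4
      · exact ((hl l h4).mul (pow_sub_ge hη hη' hd l)).mono (by linarith)
      · exact RVal.Ge.zero
    have h4 : v.Ge (- v b₁) b₁⁻¹ := fun _ => by rw [v.map_inv h1]
    exact (h3.mul h4).mono (by linarith)
  have hΦ0 : v.Ge τ (Φ 0) := by
    have h2 : Φ 0 = - (g.coeff 0 * b₁⁻¹) := by
      show 0 - g.eval 0 / b₁ = _
      rw [← coeff_zero_eq_eval_zero]
      ring
    rw [h2]
    have h4 : v.Ge (- v b₁) b₁⁻¹ := fun _ => by rw [v.map_inv h1]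
    exact ((h0.mul h4).mono (by linarith)).neg
  have hΦB : ∀ η ∈ B, Φ η ∈ B := fun η hη => sub_mem hη (div_mem (eval_mem hg hη) (hg 1))
  have hΦτ : ∀ η, v.Ge τ η → v.Ge τ (Φ η) := by
    intro η hη
    have h2 := hlip η 0 0 hη RVal.Ge.zero (by rw [sub_zero, add_zero]; exact hη)
    rw [show Φ η = (Φ η - Φ 0) + Φ 0 by ring]
    exact (h2.mono (by linarith)).add hΦ0
  let e : ℕ → Ω := fun n => Φ^[n] 0
  have hes : ∀ n, e (n + 1) = Φ (e n) := fun n => Function.iterate_succ_apply' Φ n 0
  have heB : ∀ n, e n ∈ B := by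
    intro n
    induction n with
    | zero => exact zero_mem _
    | succ n ih => rw [hes]; exact hΦB _ ih
  have heτ : ∀ n, v.Ge τ (e n) := by
    intro n
    induction n with
    | zero => exact RVal.Ge.zero
    | succ n ih => rw [hes]; exact hΦτ _ ih
  have hed : ∀ n : ℕ, v.Ge (τ + n * ε) (e (n + 1) - e n) := by
    intro n
    induction n with
    | zero =>
      rw [Nat.cast_zero, zero_mul, add_zero, show e 0 = 0 from rfl, sub_zero]
      exact heτ 1
    | succ n ih =>
      rw [hes (n + 1)]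
      conv => arg 3; arg 2; rw [hes n]
      refine (hlip _ _ _ (heτ _) (heτ _) ih).mono (le_of_eq ?_)
      push_cast
      ring
  have hed' : ∀ (n m : ℕ), v.Ge (τ + n * ε) (e (n + m) - e n) := by
    intro n m
    induction m with
    | zero => rw [add_zero, sub_self]; exact RVal.Ge.zero
    | succ m ih =>
      rw [show e (n + (m + 1)) - e n = (e (n + m + 1) - e (n + m)) + (e (n + m) - e n) by
        rw [← add_assoc]; ring]
      refine ((hed (n + m)).mono ?_).add ih
      push_cast
      have : (0 : ℝ) ≤ m * ε := by positivity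
      linarith
  obtain ⟨η, hη⟩ := hc e (by
    intro c
    obtain ⟨N, hN⟩ := exists_nat_ge ((c - τ) / ε)
    rw [div_le_iff₀ hε] at hN
    refine ⟨N, fun m n hm hn => ?_⟩
    obtain ⟨m', rfl⟩ := Nat.exists_eq_add_of_le hm
    obtain ⟨n', rfl⟩ := Nat.exists_eq_add_of_le hn
    rw [show e (N + m') - e (N + n') = (e (N + m') - e N) - (e (N + n') - e N) by ring]
    exact ((hed' N m').sub (hed' N n')).mono (by linarith))
  have hηB : η ∈ B := by
    refine hB (mem_clI.2 fun c => ?_)
    obtain ⟨N, hN⟩ := hη c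
    exact ⟨e N, heB N, hN N le_rfl⟩
  have hητ : v.Ge τ η := by
    obtain ⟨N, hN⟩ := hη τ
    rw [show η = (η - e N) + e N by ring]
    exact (hN N le_rfl).add (heτ N)
  refine ⟨η, hηB, hητ, ?_⟩
  have h2 : η - Φ η = 0 := by
    refine eq_zero_of_ge_all (v := v) fun c => ?_
    obtain ⟨N, hN⟩ := hη (max c (τ + (c - τ)))
    rw [show η - Φ η = (η - e (N + 1)) + (Φ (e N) - Φ η) by rw [hes]; ring]
    refine ((hN (N + 1) (Nat.le_succ N)).mono (le_max_left _ _)).add ?_
    refine (hlip (e N) η (c - τ) (heτ N) hητ ?_).mono (by linarith)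
    exact ge_sub_comm ((hN N le_rfl).mono (le_max_right _ _))
  have h3 : η - Φ η = g.eval η / b₁ := by
    show η - (η - g.eval η / b₁) = _
    ring
  rw [h3, div_eq_zero_iff] at h2
  exact h2.resolve_right h1

/-- Newton's lemma at `a`: the linear term attains the Gauss norm of the disc of radius `s`. -/
theorem newton_at (hc : CompleteV v) {B : IntermediateField k Ω} (hB : Cld v B) {f : Polynomial Ω}
    (hf : f ∈ PI B) {a : Ω} (ha : a ∈ B) {ρ s : ℝ} (h1 : (taylor a f).coeff 1 ≠ 0)
    (hv : v ((taylor a f).coeff 1) = ρ - s) (h0 : Gt v ρ (f.eval a))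
    (hl : ∀ l : ℕ, 2 ≤ l → v.Ge (ρ - l * s) ((taylor a f).coeff l)) :
    ∃ ξ ∈ B, f.eval ξ = 0 ∧ Gt v s (ξ - a) := by
  by_cases hz : f.eval a = 0
  · refine ⟨a, ha, hz, ?_⟩
    rw [sub_self]
    exact Gt.zero
  have h2 : ρ < v (f.eval a) := h0 hz
  have h3 : (taylor a f) ∈ PI B := by
    intro i
    exact taylor_mem_PI hf ha i
  obtain ⟨η, hη, h4, h5⟩ := newtonE hc hB h3 (τ := s + (v (f.eval a) - ρ))
    (ε := v (f.eval a) - ρ) (sub_pos.2 h2) h1
    (by
      rw [taylor_coeff_zero, hv]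
      exact fun _ => by linarith)
    (fun l hl2 => by
      refine (hl l hl2).mono ?_
      rw [hv]
      have e : ((l - 1 : ℕ) : ℝ) = l - 1 := by
        rw [Nat.cast_sub (by omega), Nat.cast_one]
      rw [e]
      have h6 : (2 : ℝ) ≤ l := by exact_mod_cast hl2
      nlinarith)
  refine ⟨a + η, add_mem ha hη, ?_, ?_⟩
  · rw [add_comm, ← taylor_eval]
    exact h5
  · rw [add_sub_cancel_left]
    exact fun h6 => lt_of_lt_of_le (by linarith) (h4 h6)

end Pool.Agent.TWX
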