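import Pool.Agent.Lib.TWX.Far

/-!
# TANK W, exchange of tight pairs

`P ≤ M`, `P` perfect, `x`, `w` a tight pair of `M` of any levels `r`, `s`; `x' 0`, `w' 0` in `M`,
`v (x' 0 - x 0) > r`, `v (w' 0 - w 0) > s`. If `M E` is a tower over `E = P(x n, w n)`, then `M E'`
is a tower over `E' = P(x' n, w' n)`: `exch_pair`, `exch_pair_tow`.
* `EW.swap`, `EW.sup_swap`: the order of the letters.
-/

set_option autoImplicit false

open Polynomial IntermediateField

namespace Pool.Agent.TWX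

open Pool.Agent.H15JM (RVal)
open Pool.Agent.LU1 (VPos adj)
open Pool.Agent.D2 (Ctx0)
open Pool.Agent.D2P (clI mem_clI)
open Pool.Agent.TWM
open Pool.Agent.TWS (TowR)
open Pool.Agent.TWC (Tgt EW Tow self_le_clI clI_mono' clI_le')

universe u

variable {k Ω : Type u} [Field k] [Field Ω] [Algebra k Ω] {v : RVal Ω}
  {M P : IntermediateField k Ω} {x w : ℕ → Ω}

theorem EW_le_of {B : IntermediateField k Ω} (hB : Cld v B) (hP : P ≤ B) (hx : ∀ n, x n ∈ B) :
    EW v P x ≤ B := by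
  refine clI_le' (sup_le hP (IntermediateField.adjoin_le_iff.2 ?_)) hB
  rintro _ ⟨n, rfl⟩
  exact hx n

theorem EW_mono (h : P ≤ M) : EW v P x ≤ EW v M x :=
  EW_le_of TWC.EW.cld (h.trans TWC.EW.le) fun n => TWC.EW.mem n

/-- The order of the letters. -/
theorem EW.swap : EW v (EW v P x) w = EW v (EW v P w) x := by
  refine le_antisymm ?_ ?_
  · refine EW_le_of TWC.EW.cld (EW_le_of TWC.EW.cld (TWC.EW.le.trans TWC.EW.le)
      fun n => TWC.EW.mem n) fun n => TWC.EW.le (TWC.EW.mem n)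
  · refine EW_le_of TWC.EW.cld (EW_le_of TWC.EW.cld (TWC.EW.le.trans TWC.EW.le)
      fun n => TWC.EW.mem n) fun n => TWC.EW.le (TWC.EW.mem n)

/-- `M E`, `E = P(w n, x n)`, is the closed field generated by `M(w n)` and `E`. -/
theorem EW.sup_swap :
    clI v (EW v M w ⊔ EW v (EW v P w) x) = clI v (M ⊔ EW v (EW v P x) w) := by
  refine le_antisymm ?_ ?_
  · refine clI_le' (sup_le (EW_le_of (cld_clI v _) (le_sup_left.trans (self_le_clI v _)) fun n =>
      (le_sup_right.trans (self_le_clI v _) : EW v (EW v P x) w ≤ _) (TWC.EW.mem n)) ?_)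
      (cld_clI v _)
    rw [← EW.swap]
    exact le_sup_right.trans (self_le_clI v _)
  · refine clI_le' (sup_le (TWC.EW.le.trans (le_sup_left.trans (self_le_clI v _))) ?_)
      (cld_clI v _)
    rw [EW.swap]
    exact le_sup_right.trans (self_le_clI v _)

theorem EW.sup_swap' :
    clI v (EW v M x ⊔ EW v (EW v P x) w) = clI v (M ⊔ EW v (EW v P x) w) := by
  rw [EW.sup_swap, EW.swap]

variable {p : ℕ} [hp : Fact p.Prime] [CharP k p] [CharP Ω p] [IsAlgClosed Ω] [IsAlgClosed k]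
  {x' w' : ℕ → Ω} {r s : ℝ}

/-- **EXCHANGE OF TIGHT PAIRS.** -/
theorem exch_pair (hk : Ctx0 k v) (hc : CompleteV v) (hPM : P ≤ M) (hP : ∀ a ∈ P, ∃ b ∈ P, b ^ p = a)
    (hx : Tgt p v (EW v M w) x r) (hx' : ∀ n, x' (n + 1) ^ p = x' n) (hx0 : x' 0 ∈ M)
    (hxx : Gt v r (x' 0 - x 0)) (hw : Tgt p v (EW v M x') w s)
    (hw' : ∀ n, w' (n + 1) ^ p = w' n) (hw0 : w' 0 ∈ M) (hww : Gt v s (w' 0 - w 0)) {n : ℕ}
    (hT : TowR v n (EW v (EW v P x) w) (clI v (M ⊔ EW v (EW v P x) w))) :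
    TowR v n (EW v (EW v P x') w') (clI v (M ⊔ EW v (EW v P x') w')) := by
  have hcl : ∀ a ∈ EW v P w, ∃ b ∈ EW v P w, b ^ p = a :=
    TWC.perf_clI p (TWC.perf_sup p hP (by
      rintro _ ⟨n, rfl⟩
      exact ⟨w (n + 1), (le_sup_right : IntermediateField.adjoin k (Set.range w) ≤ _)
        (IntermediateField.subset_adjoin k _ ⟨n + 1, rfl⟩), hw.root n⟩))
  have hcl' : ∀ a ∈ EW v P x', ∃ b ∈ EW v P x', b ^ p = a :=
    TWC.perf_clI p (TWC.perf_sup p hP (by
      rintro _ ⟨n, rfl⟩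
      exact ⟨x' (n + 1), (le_sup_right : IntermediateField.adjoin k (Set.range x') ≤ _)
        (IntermediateField.subset_adjoin k _ ⟨n + 1, rfl⟩), hx' n⟩))
  -- `x ↦ x'`
  have h1 : TowR v n (EW v (EW v P w) x) (clI v (EW v M w ⊔ EW v (EW v P w) x)) := by
    rw [EW.sup_swap, ← EW.swap]
    exact hT
  have h2 := exch_towR hk hc hx hx' (TWC.EW.le hx0) hxx (EW_mono hPM)
    (far_of_perf hk hc hx (EW_mono hPM) hcl) h1
  rw [EW.sup_swap, ← EW.swap] at h2
  -- `w ↦ w'`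
  have h3 : TowR v n (EW v (EW v P x') w) (clI v (EW v M x' ⊔ EW v (EW v P x') w)) := by
    rw [EW.sup_swap']
    exact h2
  have h4 := exch_towR hk hc hw hw' (TWC.EW.le hw0) hww (EW_mono hPM)
    (far_of_perf hk hc hw (EW_mono hPM) hcl') h3
  rwa [EW.sup_swap'] at h4

end Pool.Agent.TWX
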