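import Pool.Agent.Lib.TWC.TopD
import Pool.Agent.Lib.TWX.Pair
import Pool.Agent.Lib.TWC.TPow

/-!
# TANK W, class I: towers over tight pairs, exchange

* `PT p v m M x w r s`: `(x, w)` is a tight pair of levels `(r, s)` of the closure `C` of `k(x, w)`, and
  `M` is a tower with `m` floors over `C`;
* `PT.of_parts`: `PT` from the tower over the perfect closure of `k(x, w)`;
* `PT.exch_x`, `PT.exch_w`: the letters may be replaced by near elements of `M`;
* `PT.lin`: `w` may be replaced by `w - a x ^ e`, `a` in `k`, `s - r = (e - 1) v(x)`.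
-/

set_option autoImplicit false
set_option linter.unusedSectionVars false

open Polynomial

namespace Pool.Agent.TWC

open Pool.Agent.H15JM (RVal)
open Pool.Agent.LU1 (VPos adj)
open Pool.Agent.D2 (Ctx0)
open Pool.Agent.D2P (clI mem_clI mem_adj_self)
open Pool.Agent.TWM
open Pool.Agent.TWS (TowR VG RatV SphC IsoE HF hv)

universe u

variable {k Ω : Type u} [Field k] [Field Ω] [Algebra k Ω] {v : RVal Ω}

/-! ### The base of a pair -/

theorem CP_le {B : IntermediateField k Ω} (hB : Cld v B) {a b : Ω} (ha : a ∈ B) (hb : b ∈ B) :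
    CP (k := k) v a b ≤ B :=
  cadj_le hB (cadj_le hB bot_le ha) hb

theorem CP_fst (a b : Ω) : a ∈ CP (k := k) v a b :=
  le_cadj v _ b (self_mem_cadj v _ a)

theorem CP_snd (a b : Ω) : b ∈ CP (k := k) v a b :=
  self_mem_cadj v _ b

theorem CP_cld (a b : Ω) : Cld v (CP (k := k) v a b) :=
  cld_cadj v _ b

/-- `M` is a tower with `m` floors over the closure of `k(x, w)`, `(x, w)` a tight pair of it, of
levels `(r, s)`. -/
structure PT (p : ℕ) (v : RVal Ω) (m : ℕ) (M : IntermediateField k Ω) (x w : ℕ → Ω)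
    (r s : ℝ) : Prop where
  ne : v (x 0) ≠ 0
  lt : v (x 0) < r
  tp : TP p v (CP (k := k) v (x 0) (w 0)) x w r s
  tow : TowR v m (CP (k := k) v (x 0) (w 0)) M
  rat : RatV v (CP (k := k) v (x 0) (w 0)) (v (x 0))
  div : ∀ g ∈ VG v (CP (k := k) v (x 0) (w 0)), g / p ∈ VG v (CP (k := k) v (x 0) (w 0))

section P

variable {p m : ℕ} [hp : Fact p.Prime] [CharP k p] [CharP Ω p] [IsAlgClosed Ω]
  {x w u : ℕ → Ω} {r s : ℝ} {M L : IntermediateField k Ω}

/-! ### Tight pairs and near elements -/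

theorem TP.congr_w (h : TP p v M x w r s) (hu : ∀ n, u (n + 1) ^ p = u n) (hu0 : u 0 ∈ M)
    (huw : Gt v s (u 0 - w 0)) : TP p v M x u r s where
  tgt := h.tgt
  mem := hu0
  root := hu
  far := by
    rintro ⟨a, ha, h1⟩
    refine h.far ⟨a, ha, ?_⟩
    have h2 := gt_root h.root hu huw 1
    rw [pow_one] at h2
    have e : w 1 - a = (u 1 - a) + -(u 1 - w 1) := by ring
    rw [e]
    exact h1.add h2.neg
  lim n ε hε := by
    obtain ⟨a, ha, h1⟩ := h.lim n ε hε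
    have h2 := gt_root h.root hu huw n
    refine ⟨a, ha, ?_⟩
    have e : u n - a = (u n - w n) + (w n - a) := by ring
    rw [e]
    exact (h2.ge.mono (by linarith)).add h1

theorem TP.congr_x (h0 : Ctx0 k v) (hc : CompleteV v) (h : TP p v M x w r s)
    (hu : ∀ n, u (n + 1) ^ p = u n) (hu0 : u 0 ∈ M) (hux : Gt v r (u 0 - x 0)) :
    TP p v M u w r s :=
  ((h.swap h0 hc).congr_w hu hu0 hux).swap h0 hc

/-- The change of the second letter. -/
theorem TP.lin (h : TP p v M x w r s) (hx0 : x 0 ≠ 0) (hvr : v (x 0) < r) {a : ℕ → Ω}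
    (ha : ∀ n, a n ∈ (⊥ : IntermediateField k Ω)) (ha' : ∀ n, a (n + 1) ^ p = a n)
    (hva : ∀ n, v.Ge 0 (a n)) {e : ℤ} (he : ¬ (p : ℤ) ∣ e) (hs : s - r = (e - 1) * v (x 0)) :
    TP p v M x (fun n => w n - a n * x n ^ e) r s where
  tgt := h.tgt
  mem := sub_mem h.mem (mul_mem ((bot_le : ⊥ ≤ M) (ha 0)) (zpow_mem h.tgt.mem e))
  root n := by
    rw [sub_pow_char, h.root, mul_pow, ha', zpow_root h.tgt.root]
  far := by
    rintro ⟨b, hb, h1⟩
    refine h.far ⟨b + a 1 * x 1 ^ e, add_mem hb (mul_mem ((bot_le : (⊥ : IntermediateField k Ω) ≤ EW v M x) (ha 1))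
      (zpow_mem (EW.mem 1) e)), ?_⟩
    have e1 : w 1 - (b + a 1 * x 1 ^ e) = w 1 - a 1 * x 1 ^ e - b := by ring
    rw [e1]
    exact h1
  lim n ε hε := by
    have h1 := h.tgt.zpow hx0 he hvr
    have e1 : r - v (x 0) + e * v (x 0) = s := by linarith
    rw [e1] at h1
    obtain ⟨b, hb, h2⟩ := h.lim n ε hε
    obtain ⟨c, hc, h3⟩ : ∃ c ∈ M, v.Ge (s / p ^ n - ε) (x n ^ e - c) := by
      cases n with
      | zero => exact ⟨x 0 ^ e, h1.mem, by rw [sub_self]; exact RVal.Ge.zero⟩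
      | succ n => exact (h1.dst n).near ε hε
    refine ⟨b - a n * c, sub_mem hb (mul_mem ((bot_le : ⊥ ≤ M) (ha n)) hc), ?_⟩
    have e2 : w n - a n * x n ^ e - (b - a n * c) = (w n - b) - a n * (x n ^ e - c) := by ring
    rw [e2]
    refine h2.sub ?_
    have h4 := (hva n).mul h3
    rwa [zero_add] at h4

/-! ### The parts of `PT` -/

variable [PerfectRing k p] [hcx : Fact (Ctx0 k v)]

theorem PT.tpM (h : PT p v m M x w r s) : TP p v M x w r s := h.tp.towR h.tow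

theorem PT.le (h : PT p v m M x w r s) : CP (k := k) v (x 0) (w 0) ≤ M := h.tow.le

theorem PT.x0 (h : PT p v m M x w r s) : x 0 ≠ 0 :=
  ne_zero_of_far h.tp.tgt.root (h.tp.tgt.dst 0).far

theorem PT.vg (h : PT p v m M x w r s) : VG v M = VG v (CP (k := k) v (x 0) (w 0)) := by
  refine le_antisymm ?_ (TWS.VG.mono h.le)
  rintro _ ⟨b, hb, hb0, rfl⟩
  obtain ⟨a, ha, ha0, h1, -⟩ := imm_near h.tow.imm hb hb0
  exact ⟨a, ha, ha0, h1⟩

/-- The tower over the perfect closure of the pair. -/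
theorem PT.towP (hc : CompleteV v) (h : PT p v m M x w r s) :
    TowR v m (EW v (EW v (⊥ : IntermediateField k Ω) x) w)
      (clI v (M ⊔ EW v (EW v (⊥ : IntermediateField k Ω) x) w)) := by
  have h1 := h.tow.base (EW.le.trans EW.le) EW.cld
    (ewew_le_algc (v := v) h.tp.tgt.root h.tp.root h.tp.tgt.mem h.tp.mem)
  rwa [ewew_eq (C := CP (k := k) v (x 0) (w 0)) rfl] at h1

/-- `PT` from its parts. -/
theorem PT.of_parts (hc : CompleteV v) (hM : ∃ M : ℝ → Ω, MS v ⊤ M) (hm : m ≤ 2)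
    (hv : v (x 0) ≠ 0) (hvr : v (x 0) < r) (hC : TP p v (CP (k := k) v (x 0) (w 0)) x w r s)
    (hL : TP p v L x w r s) (hrat : RatV v (CP (k := k) v (x 0) (w 0)) (v (x 0)))
    (hdiv : ∀ g ∈ VG v (CP (k := k) v (x 0) (w 0)), g / p ∈ VG v (CP (k := k) v (x 0) (w 0)))
    (hT : TowR v m (EW v (EW v (⊥ : IntermediateField k Ω) x) w)
      (clI v (L ⊔ EW v (EW v (⊥ : IntermediateField k Ω) x) w))) : PT p v m L x w r s where
  ne := hv
  lt := hvr
  tp := hC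
  tow := by
    refine TP.core hc hM hm hv hvr rfl hrat hdiv hC hL (CP_le hL.tgt.cld hL.tgt.mem hL.mem) ?_
    rwa [ewew_eq (C := CP (k := k) v (x 0) (w 0)) rfl]
  rat := hrat
  div := hdiv

end P

/-! ### Exchange -/

section Exch

variable {p m : ℕ} [hp : Fact p.Prime] [CharP k p] [CharP Ω p] [IsAlgClosed Ω] [IsAlgClosed k]
  {x w x' w' : ℕ → Ω} {r s : ℝ} {M L : IntermediateField k Ω}

/-- Isometric pairs. -/
theorem tp_iso (hcx : Ctx0 k v) (hc : CompleteV v) {ι Φ : Ω →ₐ[k] HF k}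
    (hι : IsoE v (hv k) ι) (hΦ : IsoE v (hv k) Φ) (hx : ∀ n, Φ (x n) = ι (x' n))
    (hw : ∀ n, Φ (w n) = ι (w' n)) (h : TP p v (CP (k := k) v (x 0) (w 0)) x w r s) :
    TP p v (CP (k := k) v (x' 0) (w' 0)) x' w' r s ∧
      VG v (CP (k := k) v (x' 0) (w' 0)) = VG v (CP (k := k) v (x 0) (w 0)) := by
  have e1 : (CP (k := k) v (x' 0) (w' 0)).map ι = (CP (k := k) v (x 0) (w 0)).map Φ := by
    rw [cp_map hι hc, cp_map hΦ hc, hx, hw]
  constructor
  · refine tp_unmap hι hc ?_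
    rw [e1]
    have h1 := tp_map hΦ hc h
    simp only [hx, hw] at h1
    exact h1
  · rw [← vg_map hι, e1, vg_map hΦ]

variable [PerfectRing k p] [hcx : Fact (Ctx0 k v)]

/-- **EXCHANGE**, first letter. -/
theorem PT.exch_x (hc : CompleteV v) (hM : ∃ M : ℝ → Ω, MS v ⊤ M) (hm : m ≤ 2)
    (h : PT p v m M x w r s) (hx' : ∀ n, x' (n + 1) ^ p = x' n) (hx0 : x' 0 ∈ M)
    (hxx : Gt v r (x' 0 - x 0)) : PT p v m M x' w r s := by
  have h0 := hcx.out
  have hTM := h.tpM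
  have hTM' : TP p v M x' w r s := hTM.congr_x h0 hc hx' hx0 hxx
  have hval : v (x' 0) = v (x 0) :=
    (Gt.val_eq h.x0 (Gt.mono hxx h.lt.le).sub_comm').2
  have hperf : ∀ a ∈ EW v (⊥ : IntermediateField k Ω) w,
      ∃ b ∈ EW v (⊥ : IntermediateField k Ω) w, b ^ p = a := perf_EW0 h.tp.root
  obtain ⟨ι, hι⟩ := TWS.exists_emb (Ω := Ω) h0
  have hι : IsoE v (TWS.hv k) ι := ⟨hι⟩
  have hxw := hTM.tgt_x h0 hc
  obtain ⟨γ, hpr⟩ := TWX.exists_pr hxw hx' (EW.le hx0) hxx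
  obtain ⟨Φ, h1, h2, h3⟩ := TWX.exists_phi h0 (TWS.sphC_hv k) (TWS.exists_val k) hι hpr
    (TWX.far_of_perf h0 hc hxw (TWX.EW_mono bot_le) hperf)
  obtain ⟨h4, h5⟩ := tp_iso h0 hc hι h1 (w' := w) h3 (fun n => h2 _ (EW.mem n)) h.tp
  refine PT.of_parts hc hM hm (by rw [hval]; exact h.ne) (by rw [hval]; exact h.lt) h4 hTM' ?_ ?_ ?_
  · rw [hval]
    intro g hg
    rw [h5] at hg
    exact h.rat g hg
  · rw [h5]
    exact h.div
  · refine TWX.exch_pair h0 hc bot_le ?_ hxw hx' hx0 hxx hTM'.tgt_w h.tp.root hTM.mem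
      (by rw [sub_self]; exact Gt.zero) (h.towP hc)
    intro a ha
    obtain ⟨c, rfl⟩ := IntermediateField.mem_bot.1 ha
    obtain ⟨d, hd⟩ := surjective_frobenius k p c
    refine ⟨algebraMap k Ω d, IntermediateField.mem_bot.2 ⟨d, rfl⟩, ?_⟩
    rw [← map_pow, ← frobenius_def, hd]

/-- **EXCHANGE**, second letter. -/
theorem PT.exch_w (hc : CompleteV v) (hM : ∃ M : ℝ → Ω, MS v ⊤ M) (hm : m ≤ 2)
    (h : PT p v m M x w r s) (hw' : ∀ n, w' (n + 1) ^ p = w' n) (hw0 : w' 0 ∈ M)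
    (hww : Gt v s (w' 0 - w 0)) : PT p v m M x w' r s := by
  have h0 := hcx.out
  have hTM := h.tpM
  have hTM' : TP p v M x w' r s := hTM.congr_w hw' hw0 hww
  have hperf : ∀ a ∈ EW v (⊥ : IntermediateField k Ω) x,
      ∃ b ∈ EW v (⊥ : IntermediateField k Ω) x, b ^ p = a := perf_EW0 h.tp.tgt.root
  obtain ⟨ι, hι⟩ := TWS.exists_emb (Ω := Ω) h0
  have hι : IsoE v (TWS.hv k) ι := ⟨hι⟩
  have hwx := hTM.tgt_w
  obtain ⟨γ, hpr⟩ := TWX.exists_pr hwx hw' (EW.le hw0) hww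
  obtain ⟨Φ, h1, h2, h3⟩ := TWX.exists_phi h0 (TWS.sphC_hv k) (TWS.exists_val k) hι hpr
    (TWX.far_of_perf h0 hc hwx (TWX.EW_mono bot_le) hperf)
  obtain ⟨h4, h5⟩ := tp_iso h0 hc hι h1 (x' := x) (fun n => h2 _ (EW.mem n)) h3 h.tp
  refine PT.of_parts hc hM hm h.ne h.lt h4 hTM' ?_ ?_ ?_
  · intro g hg
    rw [h5] at hg
    exact h.rat g hg
  · rw [h5]
    exact h.div
  · refine TWX.exch_pair h0 hc bot_le ?_ (hTM.tgt_x h0 hc) h.tp.tgt.root hTM.tgt.mem
      (by rw [sub_self]; exact Gt.zero) hwx hw' hw0 hww (h.towP hc)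
    intro a ha
    obtain ⟨c, rfl⟩ := IntermediateField.mem_bot.1 ha
    obtain ⟨d, hd⟩ := surjective_frobenius k p c
    refine ⟨algebraMap k Ω d, IntermediateField.mem_bot.2 ⟨d, rfl⟩, ?_⟩
    rw [← map_pow, ← frobenius_def, hd]

/-- **Change of the second letter.** -/
theorem PT.lin (h : PT p v m M x w r s) {a : ℕ → Ω}
    (ha : ∀ n, a n ∈ (⊥ : IntermediateField k Ω)) (ha' : ∀ n, a (n + 1) ^ p = a n)
    (hva : ∀ n, v.Ge 0 (a n)) {e : ℤ} (he : ¬ (p : ℤ) ∣ e) (hs : s - r = (e - 1) * v (x 0)) :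
    PT p v m M x (fun n => w n - a n * x n ^ e) r s := by
  have h1 := h.tp.lin h.x0 h.lt ha ha' hva he hs
  have e1 : CP (k := k) v (x 0) (w 0 - a 0 * x 0 ^ e) = CP (k := k) v (x 0) (w 0) := by
    refine le_antisymm (CP_le (CP_cld _ _) (CP_fst _ _) ?_) (CP_le (CP_cld _ _) (CP_fst _ _) ?_)
    · exact h1.mem
    · have h2 := add_mem (CP_snd (k := k) (v := v) (x 0) (w 0 - a 0 * x 0 ^ e))
        (mul_mem ((bot_le : ⊥ ≤ CP (k := k) v (x 0) (w 0 - a 0 * x 0 ^ e)) (ha 0))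
          (zpow_mem (CP_fst (k := k) (v := v) (x 0) (w 0 - a 0 * x 0 ^ e)) e))
      rwa [sub_add_cancel] at h2
  exact
    { ne := h.ne
      lt := h.lt
      tp := by rw [e1]; exact h1
      tow := by rw [e1]; exact h.tow
      rat := by rw [e1]; exact h.rat
      div := by rw [e1]; exact h.div }

end Exch

end Pool.Agent.TWC
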