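import Pool.Agent.Lib.TWX.PtA

/-!
# TANK W, class I: towers over tight pairs, the step downwards

`M ^ p ≤ L ≤ M`.
* `Stp p v L B x r X R`: `X = x`, `x 0 ∈ L`, or `X = dwn p x` (that is `x ^ p`, `x`, ..) and `x 0` is
  far from `B`;
* `TP.stp`: a tight pair of `M` gives a tight pair of `L`;
* `PT.stp`: the same for the towers.
-/

set_option autoImplicit false
set_option linter.unusedSectionVars false

open Polynomial

namespace Pool.Agent.TWC

open Pool.Agent.H15JM (RVal)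
open Pool.Agent.LU1 (VPos adj)
open Pool.Agent.D2 (Ctx0)
open Pool.Agent.D2P (clI mem_clI mem_adj_self)
open Pool.Agent.TWM
open Pool.Agent.TWS (TowR VG RatV SphC IsoE HF hv)

universe u

variable {k Ω : Type u} [Field k] [Field Ω] [Algebra k Ω] {v : RVal Ω}

/-- One letter, from `M` to `L`. -/
def Stp (p : ℕ) (v : RVal Ω) (L B : IntermediateField k Ω) (x : ℕ → Ω) (r : ℝ) (X : ℕ → Ω)
    (R : ℝ) : Prop :=
  (X = x ∧ R = r ∧ x 0 ∈ L) ∨ (X = dwn p x ∧ R = p * r ∧ ¬ Nr' v B r (x 0))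

section S

variable {p m : ℕ} [hp : Fact p.Prime] [CharP k p] [CharP Ω p] [IsAlgClosed Ω]
  {x w X W : ℕ → Ω} {r s R S : ℝ} {M L B B' L' : IntermediateField k Ω}

theorem Stp.mono (h : Stp p v L B x r X R) (hB : B' ≤ B) (hx : X 0 ∈ L') :
    Stp p v L' B' x r X R := by
  rcases h with ⟨h1, h2, -⟩ | ⟨h1, h2, h3⟩
  · refine Or.inl ⟨h1, h2, ?_⟩
    rwa [h1] at hx
  · exact Or.inr ⟨h1, h2, fun ⟨a, ha, h4⟩ => h3 ⟨a, hB ha, h4⟩⟩

theorem Stp.root (h : Stp p v L B x r X R) (hx : ∀ n, x (n + 1) ^ p = x n) :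
    ∀ n, X (n + 1) ^ p = X n := by
  rcases h with ⟨rfl, -, -⟩ | ⟨rfl, -, -⟩
  · exact hx
  · exact dwn_root hx

theorem Stp.mem (h : Stp p v L B x r X R) (hx : x 0 ∈ M) (hML : ∀ a ∈ M, a ^ p ∈ L) :
    X 0 ∈ L := by
  rcases h with ⟨rfl, -, h1⟩ | ⟨rfl, -, -⟩
  · exact h1
  · exact hML _ hx

theorem Stp.ew (h : Stp p v L B x r X R) (P : IntermediateField k Ω) : EW v P X = EW v P x := by
  rcases h with ⟨rfl, -, -⟩ | ⟨rfl, -, -⟩
  · rfl
  · exact EW.down p x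

/-- The `p`-th powers of near elements. -/
theorem lim_pow {a b : Ω} {c : ℝ} (h : Lim v M (c / p) a) (hab : a ^ p = b)
    (hML : ∀ a ∈ M, a ^ p ∈ L) : Lim v L c b := by
  have hp0 : (0 : ℝ) < p := by exact_mod_cast hp.out.pos
  intro ε hε
  obtain ⟨g, hg, h1⟩ := h (ε / p) (by positivity)
  refine ⟨g ^ p, hML g hg, ?_⟩
  rw [← hab, ← sub_pow_char]
  refine (ge_pow h1 p).mono (le_of_eq ?_)
  field_simp

theorem Stp.lim (h : Stp p v L B x r X R) (hx : ∀ n, x (n + 1) ^ p = x n)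
    (hl : ∀ n, Lim v M (r / p ^ n) (x n)) (hx0 : x 0 ∈ M) (hML : ∀ a ∈ M, a ^ p ∈ L) (n : ℕ) :
    Lim v L (R / p ^ n) (X n) := by
  have hp0 : (0 : ℝ) < p := by exact_mod_cast hp.out.pos
  have key : ∀ n, Lim v L (r / p ^ n) (x n) := fun n => by
    refine lim_pow (M := M) (a := x (n + 1)) ?_ (hx n) hML
    have h1 := hl (n + 1)
    rwa [pow_succ, ← div_div] at h1
  rcases h with ⟨rfl, rfl, h1⟩ | ⟨rfl, rfl, h1⟩
  · exact key n
  · cases n with
    | zero =>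
      intro ε hε
      refine ⟨x 0 ^ p, hML _ hx0, ?_⟩
      change v.Ge _ (x 0 ^ p - x 0 ^ p)
      rw [sub_self]
      exact RVal.Ge.zero
    | succ n =>
      have e : (p : ℝ) * r / p ^ (n + 1) = r / p ^ n := by
        rw [pow_succ]
        field_simp
      rw [e]
      exact key n

theorem Stp.far (h : Stp p v L B x r X R) (hBM : ¬ Nr' v B (r / p) (x 1)) :
    ¬ Nr' v B (R / p) (X 1) := by
  have hp0 : (0 : ℝ) < p := by exact_mod_cast hp.out.pos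
  rcases h with ⟨rfl, rfl, h1⟩ | ⟨rfl, rfl, h1⟩
  · exact hBM
  · rw [mul_div_cancel_left₀ _ hp0.ne']
    exact h1

/-- **A tight pair, downwards.** -/
theorem TP.stp (h : TP p v M x w r s) (hL : Cld v L) (hLM : L ≤ M) (hML : ∀ a ∈ M, a ^ p ∈ L)
    (hX : Stp p v L L x r X R) (hW : Stp p v L (EW v L X) w s W S) : TP p v L X W R S where
  tgt :=
    { cld := hL
      mem := hX.mem h.tgt.mem hML
      root := hX.root h.tgt.root
      dst := dst_of_one (hX.root h.tgt.root)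
        (hX.far fun ⟨a, ha, h1⟩ => (h.tgt.dst 0).far ⟨a, hLM ha, by
          rw [zero_add, pow_one]
          exact h1⟩)
        (hX.lim h.tgt.root h.lim_x h.tgt.mem hML) }
  mem := hW.mem h.mem hML
  root := hW.root h.root
  far := by
    refine hW.far fun ⟨a, ha, h1⟩ => h.far ⟨a, ?_, h1⟩
    rw [hX.ew] at ha
    exact TWX.EW_mono hLM ha
  lim := hW.lim h.root h.lim h.mem hML

variable [PerfectRing k p] [hcx : Fact (Ctx0 k v)]

theorem Stp.val (h : Stp p v L B x r X R) (hx0 : x 0 ≠ 0) (hv : v (x 0) ≠ 0) (hvr : v (x 0) < r) :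
    v (X 0) ≠ 0 ∧ v (X 0) < R := by
  have hp0 : (0 : ℝ) < p := by exact_mod_cast hp.out.pos
  rcases h with ⟨rfl, rfl, -⟩ | ⟨rfl, rfl, -⟩
  · exact ⟨hv, hvr⟩
  · change v (x 0 ^ p) ≠ 0 ∧ v (x 0 ^ p) < _
    rw [v.map_pow hx0]
    exact ⟨mul_ne_zero hp0.ne' hv, mul_lt_mul_of_pos_left hvr hp0⟩

theorem Stp.ratV (h : Stp p v L B x r X R) (hx0 : x 0 ≠ 0) (hR : RatV v M (v (x 0))) :
    RatV v M (v (X 0)) := by
  rcases h with ⟨rfl, rfl, -⟩ | ⟨rfl, rfl, -⟩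
  · exact hR
  · intro g hg
    obtain ⟨n, hn, m, h1⟩ := hR g hg
    refine ⟨n * p, mul_ne_zero hn hp.out.ne_zero, m, ?_⟩
    change _ = (m : ℝ) * v (x 0 ^ p)
    rw [v.map_pow hx0]
    push_cast
    linear_combination (p : ℝ) * h1

/-- The values. -/
theorem vg_down {C C' : IntermediateField k Ω} (hle : C' ≤ C) (hpw : ∀ a ∈ C, a ^ p ∈ C')
    (hdiv : ∀ g ∈ VG v C, g / p ∈ VG v C) : VG v C' = VG v C := by
  have hp0 : (0 : ℝ) < p := by exact_mod_cast hp.out.pos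
  refine le_antisymm (TWS.VG.mono hle) ?_
  intro g hg
  obtain ⟨a, ha, ha0, h1⟩ := hdiv g hg
  refine ⟨a ^ p, hpw a ha, pow_ne_zero p ha0, ?_⟩
  rw [v.map_pow ha0, h1]
  field_simp

/-- **A TOWER OVER A TIGHT PAIR, DOWNWARDS.** -/
theorem PT.stp (hc : CompleteV v) (hM : ∃ M : ℝ → Ω, MS v ⊤ M) (hm : m ≤ 2)
    (h : PT p v m M x w r s) (hL : Cld v L) (hLM : L ≤ M) (hML : ∀ a ∈ M, a ^ p ∈ L)
    (hX : Stp p v L L x r X R) (hW : Stp p v L (EW v L X) w s W S) : PT p v m L X W R S := by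
  have h1 : TP p v L X W R S := h.tpM.stp hL hLM hML hX hW
  -- the base
  have hC'L : CP (k := k) v (X 0) (W 0) ≤ L := CP_le hL h1.tgt.mem h1.mem
  have hC'C : CP (k := k) v (X 0) (W 0) ≤ CP (k := k) v (x 0) (w 0) := by
    refine CP_le (CP_cld _ _) ?_ ?_
    · rcases hX with ⟨rfl, -, -⟩ | ⟨rfl, -, -⟩
      · exact CP_fst _ _
      · exact pow_mem (CP_fst _ _) p
    · rcases hW with ⟨rfl, -, -⟩ | ⟨rfl, -, -⟩
      · exact CP_snd _ _
      · exact pow_mem (CP_snd _ _) p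
  have hCC' : ∀ a ∈ CP (k := k) v (x 0) (w 0), a ^ p ∈ CP (k := k) v (X 0) (W 0) := by
    have h2 : CP (k := k) v (x 0) (w 0) ≤ D2P.rootF p 1 (CP (k := k) v (X 0) (W 0)) := by
      refine CP_le (cld_rootF p (CP_cld _ _)) ((mem_rootF1 p).2 ?_) ((mem_rootF1 p).2 ?_)
      · rcases hX with ⟨rfl, -, -⟩ | ⟨rfl, -, -⟩
        · exact pow_mem (CP_fst _ _) p
        · exact CP_fst _ _
      · rcases hW with ⟨rfl, -, -⟩ | ⟨rfl, -, -⟩
        · exact pow_mem (CP_snd _ _) p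
        · exact CP_snd _ _
    exact fun a ha => (mem_rootF1 p).1 (h2 ha)
  have h2 : TP p v (CP (k := k) v (X 0) (W 0)) X W R S :=
    h.tp.stp (CP_cld _ _) hC'C hCC' (hX.mono hC'L (CP_fst _ _))
      (hW.mono (TWX.EW_mono hC'L) (CP_snd _ _))
  have hvg := vg_down hC'C hCC' h.div
  obtain ⟨h3, h4⟩ := hX.val h.x0 h.ne h.lt
  refine PT.of_parts hc hM hm h3 h4 h2 h1 ?_ (by rw [hvg]; exact h.div) ?_
  · have h5 := hX.ratV h.x0 h.rat
    intro g hg
    exact h5 g (TWS.VG.mono hC'C hg)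
  · rw [hX.ew, hW.ew]
    obtain ⟨h5, M₁, h6⟩ := exists_monG_pair (C := CP (k := k) v (x 0) (w 0)) hc hM h.ne h.x0 rfl
      h.rat h.div h.tp.tgt.root h.tp.root h.tp.tgt.mem h.tp.mem
    rw [ewew_eq (C := CP (k := k) v (x 0) (w 0)) rfl] at h5 h6
    exact cstarR_le hm hc h6 h5 (h.towP hc) (cld_clI v _) (clI_mono' (sup_le_sup_right hLM _))
      (pow_mem_sup p h5 hML) EW.cld

end S

end Pool.Agent.TWC
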