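import Pool.Agent.Lib.TWX.PtB
import Pool.Agent.Lib.TWC.LinDom
import Pool.Agent.Lib.TWC.Rect

/-!
# TANK W, class I: towers over tight pairs, downwards

* `NFb p G g r s N`: the resonances `p ^ j s - p ^ i r ∈ G`, `i, j < N`, are of the form
  `(e - 1) p ^ i g`, `p` does not divide `e` (for example there are none, or `r = s`);
* `near_poly`: `c x` and `a x ^ e`, `v c = (e - 1) v(x)`;
* `nr_of_ew`: the distances to `N(x ^ (1 / p ^ ∞))`;
* `PT.down`: `M ^ p ≤ L ≤ M`;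
* `PT.isog_down`: `M ^ (p ^ N) ≤ L ≤ M`.
-/

set_option autoImplicit false
set_option linter.unusedSectionVars false

open Polynomial

namespace Pool.Agent.TWC

open Pool.Agent.H15JM (RVal)
open Pool.Agent.LU1 (VPos adj)
open Pool.Agent.D2 (Ctx0)
open Pool.Agent.D2P (clI mem_clI mem_adj_self)
open Pool.Agent.TWM
open Pool.Agent.TWM.C (PStep)
open Pool.Agent.TWS (TowR VG RatV SphC IsoE HF hv)

universe u

variable {k Ω : Type u} [Field k] [Field Ω] [Algebra k Ω] {v : RVal Ω}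

/-- The resonances are of the form `(e - 1) p ^ i g`. -/
def NFb (p : ℕ) (G : AddSubgroup ℝ) (g r s : ℝ) (N : ℕ) : Prop :=
  ∀ i j : ℕ, i < N → j < N → (p : ℝ) ^ j * s - p ^ i * r ∈ G →
    ∃ e : ℤ, ¬ (p : ℤ) ∣ e ∧ (p : ℝ) ^ j * s - p ^ i * r = (e - 1) * (p ^ i * g)

/-! ### Powers -/

/-- `(1 + t) ^ e - 1 - e t` has value `≥ 2 v(t)`. -/
theorem sq_ge {θ : ℝ} (hθ : 0 < θ) {t : Ω} (ht : v.Ge θ t) (e : ℤ) :
    v.Ge (2 * θ) ((1 + t) ^ e - 1 - e * t) := by
  have hu : U1 v θ (1 + t) := by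
    rw [U1, add_sub_cancel_left]
    exact ht
  have h0 : v.Ge 0 (1 + t) := fun _ => by rw [(hu.val hθ).2]
  have ht2 : v.Ge (2 * θ) (t ^ 2) := (ge_pow ht 2).mono (by push_cast; linarith)
  have key : ∀ n : ℕ, v.Ge (2 * θ) ((1 + t) ^ n - 1 - n * t) := by
    intro n
    induction n with
    | zero =>
      rw [pow_zero, Nat.cast_zero, zero_mul, sub_self, sub_zero]
      exact RVal.Ge.zero
    | succ n ih =>
      have e1 : (1 + t) ^ (n + 1) - 1 - ((n + 1 : ℕ) : Ω) * t =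
          (1 + t) * ((1 + t) ^ n - 1 - n * t) + n * t ^ 2 := by
        push_cast
        ring
      rw [e1]
      refine RVal.Ge.add ?_ ?_
      · have := h0.mul ih
        rwa [zero_add] at this
      · have := (TWM.ge_natCast v n).mul ht2
        rwa [zero_add] at this
  obtain ⟨n, rfl | rfl⟩ := e.eq_nat_or_neg
  · rw [zpow_natCast, Int.cast_natCast]
    exact key n
  · have h1 := key n
    have hpn : U1 v θ ((1 + t) ^ (n : ℤ)) := hu.zpow hθ n
    rw [zpow_natCast] at hpn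
    obtain ⟨h2, h3⟩ := hpn.val hθ
    have h4 : v.Ge 0 ((1 + t) ^ n)⁻¹ := fun _ => by rw [v.map_inv h2, h3, neg_zero]
    rw [zpow_neg, zpow_natCast]
    have e1 : ((1 + t) ^ n)⁻¹ - 1 - ((-(n : ℤ) : ℤ) : Ω) * t =
        ((1 + t) ^ n)⁻¹ * (n * t * ((1 + t) ^ n - 1 - n * t) + n * (n * t ^ 2) -
          ((1 + t) ^ n - 1 - n * t)) := by
      push_cast
      field_simp
      ring
    rw [e1]
    have h5 : v.Ge (2 * θ) (n * t * ((1 + t) ^ n - 1 - n * t)) := by
      have := ((TWM.ge_natCast v n).mul ht).mul h1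
      exact this.mono (by linarith)
    have h6 : v.Ge (2 * θ) ((n : Ω) * (n * t ^ 2)) := by
      have := (TWM.ge_natCast v n).mul ((TWM.ge_natCast v n).mul ht2)
      rwa [zero_add, zero_add] at this
    have := h4.mul ((h5.add h6).sub h1)
    rwa [zero_add] at this

section C

variable {p m : ℕ} [hp : Fact p.Prime] [CharP k p] [CharP Ω p] [IsAlgClosed Ω] [PerfectRing k p]
  [hcx : Fact (Ctx0 k v)] {x w : ℕ → Ω} {r s : ℝ} {M L N : IntermediateField k Ω}

/-- **The resonance.** `c z` and `a z ^ e`. -/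
theorem near_poly {z c : Ω} (hz : z ≠ 0) (hvr : v z < r) (hlim : Lim v L r z) (hc : c ∈ L)
    (hc0 : c ≠ 0) {e : ℤ} (he : ¬ (p : ℤ) ∣ e) (hvc : v c = (e - 1) * v z)
    (hs : s = v c + r) : ∃ a : k, a ≠ 0 ∧ Nr' v L s (c * z - algebraMap k Ω a * z ^ e) := by
  have hp0 : (0 : ℝ) < p := by exact_mod_cast hp.out.pos
  have hek : (e : k) ≠ 0 := by
    rw [Ne, CharP.intCast_eq_zero_iff k p]
    exact he
  have heΩ : (e : Ω) ≠ 0 ∧ v (e : Ω) = 0 := by
    have h1 := hcx.out.triv _ hek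
    rw [map_intCast] at h1
    refine ⟨?_, h1⟩
    have h2 : algebraMap k Ω (e : k) ≠ 0 := (map_ne_zero_iff _ (algebraMap k Ω).injective).2 hek
    rwa [map_intCast] at h2
  have hze : z ^ (e - 1) ≠ 0 := zpow_ne_zero _ hz
  have hy0 : (e : Ω) * z ^ (e - 1) ≠ 0 := mul_ne_zero heΩ.1 hze
  have hvy : v ((e : Ω) * z ^ (e - 1)) = v c := by
    rw [v.map_mul heΩ.1 hze, heΩ.2, map_zpow' hz, hvc]
    push_cast
    ring
  obtain ⟨a, ha0, ha⟩ := hcx.out.res (c / (e * z ^ (e - 1))) (div_ne_zero hc0 hy0) (by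
    rw [v.map_div hc0 hy0, hvy, sub_self])
  have haΩ : algebraMap k Ω a ≠ 0 := (_root_.map_ne_zero _).2 ha0
  set A := algebraMap k Ω a with hA
  -- the derivative
  have hD : Gt v (v c) (c - A * (e * z ^ (e - 1))) := by
    have h1 : Gt v 0 (c / (e * z ^ (e - 1)) - A) := ha
    have h2 := h1.mul_ge (RVal.ge_self (v := v) (e * z ^ (e - 1)))
    rw [zero_add, hvy] at h2
    have e1 : (c / (e * z ^ (e - 1)) - A) * (e * z ^ (e - 1)) =
        c - A * (e * z ^ (e - 1)) := by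
      rw [sub_mul, div_mul_cancel₀ _ hy0]
    rwa [e1] at h2
  obtain ⟨δ, hδ, hD'⟩ : ∃ δ : ℝ, 0 < δ ∧ v.Ge (v c + δ) (c - A * (e * z ^ (e - 1))) := by
    by_cases h1 : c - A * (e * z ^ (e - 1)) = 0
    · exact ⟨1, one_pos, by rw [h1]; exact RVal.Ge.zero⟩
    · refine ⟨v (c - A * (e * z ^ (e - 1))) - v c, by linarith [hD h1], ?_⟩
      rw [add_sub_cancel]
      exact RVal.ge_self _
  -- the near element
  set ε := min (δ / 2) ((r - v z) / 4) with hε
  have hε0 : 0 < ε := lt_min (by linarith) (by linarith)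
  have hε1 : ε ≤ δ / 2 := min_le_left _ _
  have hε2 : ε ≤ (r - v z) / 4 := min_le_right _ _
  obtain ⟨h, hh, h1⟩ := hlim ε hε0
  set τ := z - h with hτ
  have hzinv : v.Ge (-v z) z⁻¹ := fun _ => by rw [v.map_inv hz]
  have ht : v.Ge (r - ε - v z) (-(τ / z)) := by
    have h2 := (h1.mul hzinv).neg
    rw [← div_eq_mul_inv] at h2
    exact h2.mono (by linarith)
  have hθ : 0 < r - ε - v z := by linarith
  have hsq := sq_ge hθ ht e
  have hhz : h = z * (1 + -(τ / z)) := by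
    rw [hτ]
    field_simp
    ring
  refine ⟨a, ha0, c * h - A * h ^ e, sub_mem (mul_mem hc hh)
    (mul_mem (L.algebraMap_mem a) (zpow_mem hh e)), ?_⟩
  have e1 : c * z - A * z ^ e - (c * h - A * h ^ e) =
      (c - A * (e * z ^ (e - 1))) * τ +
        A * (z ^ e * ((1 + -(τ / z)) ^ e - 1 - e * -(τ / z))) := by
    have e2 : h ^ e = z ^ e * (1 + -(τ / z)) ^ e := by
      rw [← mul_zpow, ← hhz]
    have e3 : z ^ e = z ^ (e - 1) * z := by
      rw [← zpow_add_one₀ hz, sub_add_cancel]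
    have e4 : z ^ e * (τ / z) = z ^ (e - 1) * τ := by
      rw [e3]
      field_simp
    have e5 : c * z - c * h = c * τ := by rw [hτ]; ring
    rw [e2]
    linear_combination e5 - A * e * e4
  rw [e1]
  refine Gt.add ?_ ?_
  · refine Gt.of_ge (hD'.mul h1) ?_
    rw [hs]
    linarith
  · have h2 : v.Ge 0 A := hcx.out.ge a
    have h3 := h2.mul ((RVal.ge_self (v := v) (z ^ e)).mul hsq)
    refine Gt.of_ge h3 ?_
    rw [map_zpow' hz, hs, hvc]
    linarith

/-- **Distances to `N(x ^ (1 / p ^ ∞))`.** -/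
theorem nr_of_ew (hc : CompleteV v) (h : Tgt p v M x r) (hML : ∀ a ∈ M, a ^ p ∈ N)
    (hNM : N ≤ M) (hx0 : x 0 ∈ N) {b : Ω} (hb : b ∈ M) (hn : Nr' v (EW v N x) s b) :
    Nr' v N s b := by
  have hI : IsoL p v M (fun n => (fun _ : Fin 1 => x n)) (fun _ => r) :=
    { cld := h.cld
      mem := fun _ => h.mem
      root := fun n _ => h.root n
      far := fun l => by
        have h1 : l = 0 := Subsingleton.elim _ _
        subst h1
        change ¬ Nr' v (Lx v M (fun n => (fun _ : Fin 1 => x n)) 0) (r / p) (x 1)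
        rw [Lx_zero h.cld]
        have h2 := (h.dst 0).far
        rwa [zero_add, pow_one] at h2
      lim := fun n l ε hε => by
        cases n with
        | zero => exact ⟨x 0, h.mem, by rw [sub_self]; exact RVal.Ge.zero⟩
        | succ n => exact (h.dst n).near ε hε }
  obtain ⟨a, ha, h1⟩ := hn
  obtain ⟨c, hc1, hc2⟩ : ∃ c : ℝ, s < c ∧ v.Ge c (b - a) := by
    by_cases h2 : b - a = 0
    · exact ⟨s + 1, by linarith, by rw [h2]; exact RVal.Ge.zero⟩
    · exact ⟨_, h1 h2, RVal.ge_self _⟩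
  have hset : {y : Ω | ∃ (n : ℕ) (_ : Fin 1), y = x n} = Set.range x := by
    ext y
    constructor
    · rintro ⟨n, _, rfl⟩
      exact ⟨n, rfl⟩
    · rintro ⟨n, rfl⟩
      exact ⟨n, 0, rfl⟩
  obtain ⟨a', ha', h2⟩ := hI.dist hcx.out hc le_rfl hNM (fun _ => hx0) (fun n l ε hε => by
      have h2 : Lim v N (r / p ^ n) (x n) := by
        refine lim_pow (M := M) (a := x (n + 1)) ?_ (h.root n) hML
        have h3 := (h.dst n).near
        rwa [pow_succ, ← div_div] at h3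
      exact h2 ε hε) hb (a := a) (b := c) (by rw [hset]; exact ha) hc2 (ε := (c - s) / 2)
      (by linarith)
  exact ⟨a', ha', Gt.of_ge h2 (by linarith)⟩

variable [IsAlgClosed k]

/-- **TOWERS OVER TIGHT PAIRS, DOWNWARDS.** -/
theorem PT.down (hc : CompleteV v) (hM : ∃ M : ℝ → Ω, MS v ⊤ M) (hm : m ≤ 2)
    (h : PT p v m M x w r s) (hL : Cld v L) (hLM : L ≤ M) (hML : ∀ a ∈ M, a ^ p ∈ L) {n : ℕ}
    (hNF : NFb p (VG v M) (v (x 0)) r s (n + 1)) :
    ∃ (X W : ℕ → Ω) (R S : ℝ), PT p v m L X W R S ∧ NFb p (VG v L) (v (X 0)) R S n := by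
  classical
  have hp0 : (0 : ℝ) < p := by exact_mod_cast hp.out.pos
  have h0 := hcx.out
  have hvgL : VG v L = VG v M := vg_down hLM hML (by rw [h.vg]; exact h.div)
  have hdivL : ∀ g ∈ VG v L, g / p ∈ VG v L := by
    rw [hvgL, h.vg]
    exact h.div
  -- the first letter in `L` or far
  obtain ⟨x₁, h₁, hNF₁, hx₁⟩ : ∃ x₁ : ℕ → Ω, PT p v m M x₁ w r s ∧
      NFb p (VG v M) (v (x₁ 0)) r s (n + 1) ∧ (x₁ 0 ∈ L ∨ ¬ Nr' v L r (x₁ 0)) := by
    by_cases hn : Nr' v L r (x 0)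
    · obtain ⟨a, ha, h1⟩ := hn
      obtain ⟨u, hu0, hu⟩ := exists_rts p a
      have h2 : Gt v r (u 0 - x 0) := by
        rw [hu0]
        exact h1.sub_comm'
      have h3 := h.exch_x hc hM hm hu (by rw [hu0]; exact hLM ha) h2
      have hval : v (u 0) = v (x 0) :=
        (Gt.val_eq h.x0 (Gt.mono h2 h.lt.le).sub_comm').2
      exact ⟨u, h3, by rw [hval]; exact hNF, Or.inl (by rw [hu0]; exact ha)⟩
    · exact ⟨x, h, hNF, Or.inr hn⟩
  clear h hNF
  revert h₁ hNF₁ hx₁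
  generalize x₁ = x
  intro h hNF hx
  -- the step of the first letter
  obtain ⟨X, R, hX, hXN⟩ : ∃ (X : ℕ → Ω) (R : ℝ), Stp p v L L x r X R ∧
      ((X = x ∧ R = r) ∨ (X = dwn p x ∧ R = p * r)) := by
    rcases hx with h1 | h1
    · exact ⟨x, r, Or.inl ⟨rfl, rfl, h1⟩, Or.inl ⟨rfl, rfl⟩⟩
    · exact ⟨dwn p x, p * r, Or.inr ⟨rfl, rfl, h1⟩, Or.inr ⟨rfl, rfl⟩⟩
  -- the second letter
  obtain ⟨w₁, h, hw⟩ : ∃ w₁ : ℕ → Ω, PT p v m M x w₁ r s ∧
      (w₁ 0 ∈ L ∨ ¬ Nr' v (EW v L X) s (w₁ 0)) := by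
    -- the exchange
    have hexch : ∀ w : ℕ → Ω, PT p v m M x w r s → Nr' v L s (w 0) →
        ∃ w₁ : ℕ → Ω, PT p v m M x w₁ r s ∧ (w₁ 0 ∈ L ∨ ¬ Nr' v (EW v L X) s (w₁ 0)) := by
      rintro w h ⟨a, ha, h1⟩
      obtain ⟨u, hu0, hu⟩ := exists_rts p a
      have h2 : Gt v s (u 0 - w 0) := by
        rw [hu0]
        exact h1.sub_comm'
      exact ⟨u, h.exch_w hc hM hm hu (by rw [hu0]; exact hLM ha) h2, Or.inl (by rw [hu0]; exact ha)⟩
    by_cases hn : Nr' v L s (w 0)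
    · exact hexch w h hn
    by_cases hn' : Nr' v (EW v L X) s (w 0)
    swap
    · exact ⟨w, h, Or.inr hn'⟩
    rw [hX.ew] at hn'
    rcases hx with hx | hx
    · exact absurd (nr_of_ew hc h.tpM.tgt hML hLM hx h.tpM.mem hn') hn
    · -- linear dominance
      have hxp : x 0 ^ p ∈ L := hML _ h.tpM.tgt.mem
      have hlx : Lim v L r (x 0) := h.tpM.tgt.near_of hML
      have hlw : Lim v L s (w 0) := h.tpM.tgt'.near_of hML
      have hNM : cadj v L (x 0) ≤ M := cadj_le h.tpM.tgt.cld hLM h.tpM.tgt.mem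
      obtain ⟨a, ha, h1⟩ := nr_of_ew (N := cadj v L (x 0)) hc h.tpM.tgt
        (fun a ha => le_cadj v L _ (hML a ha)) hNM (self_mem_cadj v L _) h.tpM.mem (by
          obtain ⟨a, ha, h1⟩ := hn'
          exact ⟨a, TWX.EW_mono (le_cadj v L _) ha, h1⟩)
      obtain ⟨b, hb, h2⟩ := mem_clI.1 ha (s + 1)
      have h3 : Gt v s (w 0 - b) := by
        have e : w 0 - b = (w 0 - a) + (a - b) := by ring
        rw [e]
        exact h1.add (Gt.of_ge h2 (by linarith))
      have hna : ¬ Nr v L r (x 0) := na_of_far h0 hdivL hxp hx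
      rcases lin_dom p h0 ⟨hL, hxp, hx⟩ hlx hna hb with hb' | ⟨g, hg, c, hcL, hc0, h4⟩
      · exact absurd ⟨b, hb', h3⟩ hn
      rcases lt_trichotomy (v c + r) s with hlt | heq | hgt
      · -- `x` is near
        exfalso
        obtain ⟨h', hh', h5⟩ := hlw ((s - (v c + r)) / 2) (by linarith)
        have hinv : v.Ge (-v c) c⁻¹ := fun _ => by rw [v.map_inv hc0]
        refine hx ⟨(h' - g) * c⁻¹, mul_mem (sub_mem hh' hg) (inv_mem hcL), ?_⟩
        have e : x 0 - (h' - g) * c⁻¹ =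
            ((w 0 - h') - (w 0 - b) - (b - g - c * x 0)) * c⁻¹ := by
          field_simp
          ring
        rw [e]
        have h6 : Gt v (v c + r) ((w 0 - h') - (w 0 - b) - (b - g - c * x 0)) := by
          refine Gt.sub (Gt.sub (Gt.of_ge h5 (by linarith)) (h3.mono hlt.le)) h4
        have h7 := h6.mul_ge hinv
        rwa [add_comm, neg_add_cancel_left] at h7
      · -- the resonance
        have hvc : v c = s - r := by linarith
        have hres : (p : ℝ) ^ 0 * s - p ^ 0 * r ∈ VG v M := by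
          rw [pow_zero, one_mul, one_mul, ← hvc]
          exact TWS.VG.mono hLM (VG.self hcL hc0)
        obtain ⟨e, he, h5⟩ := hNF 0 0 (Nat.succ_pos n) (Nat.succ_pos n) hres
        rw [pow_zero, one_mul, one_mul, one_mul] at h5
        obtain ⟨a', ha', h6⟩ := near_poly (p := p) (s := s) h.x0 h.lt hlx hcL hc0 he
          (by rw [hvc, h5]) heq.symm
        obtain ⟨α, hα0, hα⟩ := exists_rts (Ω := k) p a'
        have h7 := h.lin (a := fun n => algebraMap k Ω (α n))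
          (fun n => IntermediateField.algebraMap_mem _ _)
          (fun n => by rw [← map_pow, hα]) (fun n => h0.ge _) he h5
        refine hexch _ h7 ?_
        obtain ⟨q, hq, h8⟩ := h6
        refine ⟨g + q, add_mem hg hq, ?_⟩
        have e1 : w 0 - algebraMap k Ω (α 0) * x 0 ^ e - (g + q) =
            (w 0 - b) + (b - g - c * x 0) + (c * x 0 - algebraMap k Ω a' * x 0 ^ e - q) := by
          rw [hα0]
          ring
        rw [e1]
        rw [heq] at h4
        exact (h3.add h4).add h8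
      · -- `w` is near
        exfalso
        obtain ⟨h', hh', h5⟩ := hlx ((v c + r - s) / 2) (by linarith)
        refine hn ⟨g + c * h', add_mem hg (mul_mem hcL hh'), ?_⟩
        have e : w 0 - (g + c * h') =
            (w 0 - b) + (b - g - c * x 0) + c * (x 0 - h') := by ring
        rw [e]
        refine (h3.add (h4.mono hgt.le)).add ?_
        exact Gt.of_ge ((RVal.ge_self (v := v) c).mul h5) (by linarith)
  -- the step of the second letter
  obtain ⟨W, S, hW, hWN⟩ : ∃ (W : ℕ → Ω) (S : ℝ), Stp p v L (EW v L X) w₁ s W S ∧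
      (S = s ∨ S = p * s) := by
    rcases hw with h1 | h1
    · exact ⟨w₁, s, Or.inl ⟨rfl, rfl, h1⟩, Or.inl rfl⟩
    · exact ⟨dwn p w₁, p * s, Or.inr ⟨rfl, rfl, h1⟩, Or.inr rfl⟩
  refine ⟨X, W, R, S, h.stp hc hM hm hL hLM hML hX hW, ?_⟩
  -- the resonances
  rw [hvgL]
  obtain ⟨i₀, hi₀, hR, hv0⟩ : ∃ i₀ : ℕ, i₀ ≤ 1 ∧ R = p ^ i₀ * r ∧ v (X 0) = p ^ i₀ * v (x 0) := by
    rcases hXN with ⟨rfl, rfl⟩ | ⟨rfl, rfl⟩
    · exact ⟨0, zero_le_one, by rw [pow_zero, one_mul], by rw [pow_zero, one_mul]⟩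
    · refine ⟨1, le_rfl, by rw [pow_one], ?_⟩
      change v (x 0 ^ p) = _
      rw [v.map_pow h.x0, pow_one]
  obtain ⟨j₀, hj₀, hS⟩ : ∃ j₀ : ℕ, j₀ ≤ 1 ∧ S = p ^ j₀ * s := by
    rcases hWN with rfl | rfl
    · exact ⟨0, zero_le_one, by rw [pow_zero, one_mul]⟩
    · exact ⟨1, le_rfl, by rw [pow_one]⟩
  intro i j hi hj h1
  have e1 : (p : ℝ) ^ j * S - p ^ i * R = p ^ (j + j₀) * s - p ^ (i + i₀) * r := by
    rw [hS, hR, pow_add, pow_add]
    ring
  rw [e1] at h1 ⊢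
  obtain ⟨e, he, h2⟩ := hNF (i + i₀) (j + j₀) (by omega) (by omega) h1
  refine ⟨e, he, ?_⟩
  rw [h2, hv0, pow_add]
  ring

/-- **TOWERS OVER TIGHT PAIRS ARE ISOGENY INVARIANT**, downwards. -/
theorem PT.isog_down (hc : CompleteV v) (hM : ∃ M : ℝ → Ω, MS v ⊤ M) (hm : m ≤ 2) :
    ∀ (n : ℕ) {M L : IntermediateField k Ω} {x w : ℕ → Ω} {r s : ℝ}, PT p v m M x w r s →
      Cld v L → L ≤ M → (∀ a ∈ M, a ^ p ^ n ∈ L) → NFb p (VG v M) (v (x 0)) r s n →
      ∃ (X W : ℕ → Ω) (R S : ℝ), PT p v m L X W R S := by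
  intro n
  induction n with
  | zero =>
    intro M L x w r s h hL hLM hML _
    have h1 : L = M := le_antisymm hLM fun a ha => by
      have h2 := hML a ha
      rwa [pow_zero, pow_one] at h2
    rw [h1]
    exact ⟨x, w, r, s, h⟩
  | succ n ih =>
    intro M L x w r s h hL hLM hML hNF
    -- the intermediate field
    have h1 : Cld v (M ⊓ D2P.rootF p n L) := cld_inf_tgt h.tpM.tgt.cld (cld_rootFn p n hL)
    obtain ⟨X, W, R, S, h2, h3⟩ := h.down hc hM hm h1 inf_le_left (fun a ha =>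
      ⟨pow_mem ha p, D2P.mem_rootF.2 (by
        rw [← pow_mul, ← pow_succ']
        exact hML a ha)⟩) hNF
    exact ih h2 hL (le_inf hLM fun a ha => D2P.mem_rootF.2 (pow_mem ha _))
      (fun a ha => D2P.mem_rootF.1 ha.2) h3

end C

end Pool.Agent.TWC
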