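import Pool.Agent.Lib.TWX.PtC

/-!
# TANK W, class I: towers over tight pairs, the isogeny class

* `PTn p v m M N`: there is a tower over a tight pair whose resonances are good up to `N`;
* `PTn.down`, `PTn.rootF`, `PTn.up`: downwards, the `p`-th roots, upwards;
* `PTn.isog`: the property `∀ N, PTn p v m M N` is isogeny invariant, `Ω` complete;
* `TPn p v m E`: the same, in the completion; `TPn.isog`, `TPn.tpc`.
-/

set_option autoImplicit false
set_option linter.unusedSectionVars false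

open Polynomial

namespace Pool.Agent.TWC

open Pool.Agent.H15JM (RVal)
open Pool.Agent.LU1 (VPos adj)
open Pool.Agent.D2 (Ctx0)
open Pool.Agent.D2P (clI mem_clI mem_adj_self mem_rootF)
open Pool.Agent.TWM
open Pool.Agent.TWS (TowR VG RatV SphC IsoE HF hv)
open Pool.Agent.TW (Ctx)

universe u

variable {k Ω : Type u} [Field k] [Field Ω] [Algebra k Ω] {v : RVal Ω}

/-- A tower over a tight pair, the resonances are good up to `N`. -/
def PTn (p : ℕ) (v : RVal Ω) (m : ℕ) (M : IntermediateField k Ω) (N : ℕ) : Prop :=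
  ∃ (x w : ℕ → Ω) (r s : ℝ), PT p v m M x w r s ∧ NFb p (VG v M) (v (x 0)) r s N

theorem NFb.mono {p : ℕ} {G : AddSubgroup ℝ} {g r s : ℝ} {N N' : ℕ} (h : NFb p G g r s N)
    (hN : N' ≤ N) : NFb p G g r s N' :=
  fun i j hi hj h1 => h i j (hi.trans_le hN) (hj.trans_le hN) h1

theorem PTn.mono {p m : ℕ} {M : IntermediateField k Ω} {N N' : ℕ} (h : PTn p v m M N)
    (hN : N' ≤ N) : PTn p v m M N' := by
  obtain ⟨x, w, r, s, h1, h2⟩ := h
  exact ⟨x, w, r, s, h1, h2.mono hN⟩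

section D

variable {p m : ℕ} [hp : Fact p.Prime] [CharP k p] [CharP Ω p] [IsAlgClosed Ω] [IsAlgClosed k]
  [hcx : Fact (Ctx0 k v)] {x w : ℕ → Ω} {r s : ℝ} {M L C : IntermediateField k Ω}

/-- **Downwards.** -/
theorem PTn.down [PerfectRing k p] (hc : CompleteV v) (hM : ∃ M : ℝ → Ω, MS v ⊤ M) (hm : m ≤ 2)
    (N : ℕ) : ∀ (n : ℕ) {M L : IntermediateField k Ω}, PTn p v m M (N + n) →
      Cld v M → Cld v L → L ≤ M → (∀ a ∈ M, a ^ p ^ n ∈ L) → PTn p v m L N := by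
  intro n
  induction n with
  | zero =>
    intro M L h _ hL hLM hML
    have h1 : L = M := le_antisymm hLM fun a ha => by
      have h2 := hML a ha
      rwa [pow_zero, pow_one] at h2
    rw [h1]
    exact h
  | succ n ih =>
    intro M L h hMc hL hLM hML
    obtain ⟨x, w, r, s, h, hNF⟩ := h
    have h1 : Cld v (M ⊓ D2P.rootF p n L) := cld_inf_tgt hMc (cld_rootFn p n hL)
    obtain ⟨X, W, R, S, h2, h3⟩ := h.down hc hM hm h1 inf_le_left (fun a ha =>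
      ⟨pow_mem ha p, mem_rootF.2 (by
        rw [← pow_mul, ← pow_succ']
        exact hML a ha)⟩) (n := N + n) hNF
    exact ih ⟨X, W, R, S, h2, h3⟩ h1 hL (le_inf hLM fun a ha => mem_rootF.2 (pow_mem ha _))
      fun a ha => mem_rootF.1 ha.2

/-! ### The roots -/

omit hcx [IsAlgClosed k] [CharP k p] in
theorem vg_rootF (hdiv : ∀ g ∈ VG v C, g / p ∈ VG v C) : VG v (D2P.rootF p 1 C) = VG v C := by
  have hp0 : (0 : ℝ) < p := by exact_mod_cast hp.out.pos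
  refine le_antisymm ?_ (TWS.VG.mono (le_rootF p C))
  rintro _ ⟨b, hb, hb0, rfl⟩
  have h1 := hdiv _ (VG.self (v := v) ((mem_rootF1 p).1 hb) (pow_ne_zero p hb0))
  rwa [v.map_pow hb0, mul_div_cancel_left₀ _ hp0.ne'] at h1

omit hcx in
/-- The base of the roots. -/
theorem CP_rootF (hx : x 1 ^ p = x 0) (hw : w 1 ^ p = w 0) :
    CP (k := k) v (x 1) (w 1) = D2P.rootF p 1 (CP (k := k) v (x 0) (w 0)) := by
  have hbot : ∀ a ∈ (⊥ : IntermediateField k Ω), ∃ b ∈ (⊥ : IntermediateField k Ω), b ^ p = a := by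
    intro a ha
    obtain ⟨c, rfl⟩ := IntermediateField.mem_bot.1 ha
    obtain ⟨d, hd⟩ := IsAlgClosed.exists_pow_nat_eq c hp.out.pos
    exact ⟨algebraMap k Ω d, IntermediateField.mem_bot.2 ⟨d, rfl⟩, by rw [← map_pow, hd]⟩
  rw [CP, CP, ← hw, ← hx, rootF_cadj, rootF_cadj, rootF_perf p hbot]

omit hcx in
/-- **The roots of a tight pair.** -/
theorem TP.rootF (h : TP p v M x w r s) :
    TP p v (D2P.rootF p 1 M) (fun n => x (n + 1)) (fun n => w (n + 1)) (r / p) (s / p) where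
  tgt := Tgt.rootF h.tgt
  mem := by
    rw [mem_rootF1, h.root]
    exact h.mem
  root n := h.root (n + 1)
  far := by
    have hp0 : (0 : ℝ) < p := by exact_mod_cast hp.out.pos
    rintro ⟨a, ha, h1⟩
    refine h.far ⟨a ^ p, ?_, ?_⟩
    · have h2 : EW v (D2P.rootF p 1 M) (fun n => x (n + 1)) ≤ D2P.rootF p 1 (EW v M x) := by
        refine TWX.EW_le_of (cld_rootF p EW.cld) (fun b hb => (mem_rootF1 p).2
          (EW.le ((mem_rootF1 p).1 hb))) fun n => (mem_rootF1 p).2 (pow_mem (EW.mem _) p)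
      exact (mem_rootF1 p).1 (h2 ha)
    · rw [← h.root 1, ← sub_pow_char]
      have h2 := (gt_pow_iff (v := v) (N := p) hp.out.pos).2 h1
      rwa [mul_div_cancel₀ _ hp0.ne'] at h2
  lim n ε hε := by
    obtain ⟨a, ha, h1⟩ := h.lim (n + 1) ε hε
    refine ⟨a, le_rootF p M ha, h1.mono (le_of_eq ?_)⟩
    rw [pow_succ', ← div_div]

/-- **The roots.** -/
theorem PTn.rootF {N : ℕ} (h : PTn p v m M N) : PTn p v m (D2P.rootF p 1 M) N := by
  have hp0 : (0 : ℝ) < p := by exact_mod_cast hp.out.pos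
  obtain ⟨x, w, r, s, h, hNF⟩ := h
  have hkp : PerfectRing k p := PerfectField.toPerfectRing p
  have e1 := CP_rootF (k := k) (v := v) (p := p) (h.tp.tgt.root 0) (h.tp.root 0)
  obtain ⟨hx1, hv1⟩ := val_root_t (v := v) h.tp.tgt.root h.x0 1
  rw [pow_one] at hv1
  refine ⟨fun n => x (n + 1), fun n => w (n + 1), r / p, s / p, ⟨?_, ?_, ?_, ?_, ?_, ?_⟩, ?_⟩
  · change v (x 1) ≠ 0
    rw [hv1]
    exact div_ne_zero h.ne hp0.ne'
  · change v (x 1) < _
    rw [hv1]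
    exact div_lt_div_of_pos_right h.lt hp0
  · change TP p v (CP v (x 1) (w 1)) _ _ _ _
    rw [e1]
    exact h.tp.rootF
  · change TowR v m (CP v (x 1) (w 1)) _
    rw [e1]
    exact TWS.TowR.rootF p h.tow
  · change RatV v (CP v (x 1) (w 1)) (v (x 1))
    rw [e1, hv1]
    intro g hg
    rw [vg_rootF h.div] at hg
    obtain ⟨n, hn, m', h1⟩ := h.rat g hg
    refine ⟨n, hn, m' * p, ?_⟩
    push_cast
    rw [h1]
    field_simp
  · change ∀ g ∈ VG v (CP v (x 1) (w 1)), g / p ∈ VG v (CP v (x 1) (w 1))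
    rw [e1, vg_rootF h.div]
    exact h.div
  · change NFb p _ (v (x 1)) _ _ _
    have hdM : ∀ g ∈ VG v M, g / p ∈ VG v M := by
      rw [h.vg]
      exact h.div
    rw [vg_rootF hdM, hv1]
    intro i j hi hj h1
    have h2 : (p : ℝ) ^ j * s - p ^ i * r ∈ VG v M := by
      have h3 := (VG v M).nsmul_mem h1 p
      rw [nsmul_eq_mul] at h3
      have e : (p : ℝ) * (p ^ j * (s / p) - p ^ i * (r / p)) = p ^ j * s - p ^ i * r := by
        field_simp
      rwa [e] at h3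
    obtain ⟨e, he, h3⟩ := hNF i j hi hj h2
    refine ⟨e, he, ?_⟩
    have e2 : (p : ℝ) ^ j * (s / p) - p ^ i * (r / p) = (p ^ j * s - p ^ i * r) / p := by
      field_simp
    rw [e2, h3]
    field_simp

omit hcx in
theorem rootF_succ (M : IntermediateField k Ω) (n : ℕ) :
    D2P.rootF p 1 (D2P.rootF p n M) = D2P.rootF p (n + 1) M := by
  ext a
  rw [mem_rootF1, mem_rootF, mem_rootF, ← pow_mul, ← pow_succ']

/-- **The roots**, of all the orders. -/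
theorem PTn.rootFn {N : ℕ} (h : PTn p v m M N) (n : ℕ) : PTn p v m (D2P.rootF p n M) N := by
  induction n with
  | zero =>
    have e : D2P.rootF p 0 M = M := by
      ext a
      rw [mem_rootF, pow_zero, pow_one]
    rw [e]
    exact h
  | succ n ih =>
    rw [← rootF_succ]
    exact ih.rootF

/-- **Upwards.** -/
theorem PTn.up [PerfectRing k p] (hc : CompleteV v) (hM : ∃ M : ℝ → Ω, MS v ⊤ M) (hm : m ≤ 2)
    {N n : ℕ} (h : PTn p v m L (N + n)) (hL : Cld v L) (hMc : Cld v M) (hLM : L ≤ M)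
    (hML : ∀ a ∈ M, a ^ p ^ n ∈ L) : PTn p v m M N :=
  (h.rootFn n).down hc hM hm N n (cld_rootFn p n hL) hMc (fun a ha => mem_rootF.2 (hML a ha))
    fun a ha => hLM (mem_rootF.1 ha)

end D

/-! ### Transfer -/

section Transfer

variable {Ω' : Type u} [Field Ω'] [Algebra k Ω'] {v' : RVal Ω'} {ι : Ω →ₐ[k] Ω'} {p m N : ℕ}
  [hp : Fact p.Prime] [CharP k p] [CharP Ω p] [CharP Ω' p] [IsAlgClosed Ω] [IsAlgClosed Ω']
  {M : IntermediateField k Ω}

theorem PTn.map (h : IsoE v v' ι) (hc : CompleteV v) (hP : PTn p v m M N) :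
    PTn p v' m (M.map ι) N := by
  obtain ⟨x, w, r, s, h1, h2⟩ := hP
  have hx0 : x 0 ≠ 0 := ne_zero_of_far h1.tp.tgt.root (h1.tp.tgt.dst 0).far
  have hvx : v' (ι (x 0)) = v (x 0) := h.val _ hx0
  refine ⟨fun n => ι (x n), fun n => ι (w n), r, s, ⟨?_, ?_, ?_, ?_, ?_, ?_⟩, ?_⟩
  · change v' (ι (x 0)) ≠ 0
    rw [hvx]
    exact h1.ne
  · change v' (ι (x 0)) < r
    rw [hvx]
    exact h1.lt
  · change TP p v' (CP v' (ι (x 0)) (ι (w 0))) _ _ _ _
    rw [← cp_map h hc]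
    exact tp_map h hc h1.tp
  · change TowR v' m (CP v' (ι (x 0)) (ι (w 0))) _
    rw [← cp_map h hc]
    exact towR_map h hc h1.tow
  · change RatV v' (CP v' (ι (x 0)) (ι (w 0))) (v' (ι (x 0)))
    rw [← cp_map h hc, hvx]
    exact ratv_map h h1.rat
  · change ∀ g ∈ VG v' (CP v' (ι (x 0)) (ι (w 0))), g / p ∈ VG v' (CP v' (ι (x 0)) (ι (w 0)))
    rw [← cp_map h hc, vg_map h]
    exact h1.div
  · change NFb p _ (v' (ι (x 0))) _ _ _
    rw [hvx, vg_map h]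
    exact h2

theorem PTn.of_map (h : IsoE v v' ι) (hc : CompleteV v) (hP : PTn p v' m (M.map ι) N) :
    PTn p v m M N := by
  obtain ⟨X, W, r, s, h1, h2⟩ := hP
  have hX0 : X 0 ≠ 0 := ne_zero_of_far h1.tp.tgt.root (h1.tp.tgt.dst 0).far
  obtain ⟨a, ha, ha'⟩ := h1.tow.le h1.tp.tgt.mem
  obtain ⟨b, hb, hb'⟩ := h1.tow.le h1.tp.mem
  obtain ⟨x, hx0, rfl⟩ := exists_unroot (ι := ι) h1.tp.tgt.root ha'
  obtain ⟨w, hw0, rfl⟩ := exists_unroot (ι := ι) h1.tp.root hb'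
  have hx0' : x 0 ≠ 0 := fun h5 => hX0 (by
    change ι (x 0) = 0
    rw [h5, map_zero])
  have hvx : v' (ι (x 0)) = v (x 0) := h.val _ hx0'
  obtain ⟨i1, i2, i3, i4, i5, i6⟩ := h1
  change v' (ι (x 0)) ≠ 0 at i1
  change v' (ι (x 0)) < r at i2
  change TP p v' (CP v' (ι (x 0)) (ι (w 0))) _ _ _ _ at i3
  change TowR v' m (CP v' (ι (x 0)) (ι (w 0))) _ at i4
  change RatV v' (CP v' (ι (x 0)) (ι (w 0))) (v' (ι (x 0))) at i5
  change ∀ g ∈ VG v' (CP v' (ι (x 0)) (ι (w 0))), g / p ∈ VG v' (CP v' (ι (x 0)) (ι (w 0))) at i6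
  change NFb p _ (v' (ι (x 0))) _ _ _ at h2
  rw [hvx] at i1 i2 i5 h2
  rw [← cp_map h hc] at i3 i4 i5 i6
  rw [vg_map h] at i6 h2
  refine ⟨x, w, r, s, ⟨i1, i2, tp_unmap h hc i3, towR_of_map h hc i4, ?_, i6⟩, h2⟩
  intro g hg
  rw [← vg_map h] at hg
  exact i5 g hg

end Transfer

section Isog

variable {p m : ℕ} [hp : Fact p.Prime] [CharP k p] [CharP Ω p] [IsAlgClosed Ω] [IsAlgClosed k]
  {K L E : IntermediateField k Ω}

/-- **TOWERS OVER TIGHT PAIRS ARE ISOGENY INVARIANT**, one direction, with the bounds. -/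
theorem PTn.downC (h0 : Ctx0 k v) (hc : CompleteV v) (hm : m ≤ 2) (hL : Cld v L) (hK : Cld v K)
    (hKL : K ≤ L) {n : ℕ} (hLK : ∀ a ∈ L, a ^ p ^ n ∈ K) {N : ℕ} (h : PTn p v m L (N + n)) :
    PTn p v m K N := by
  obtain ⟨φ, hφ⟩ := TWS.exists_emb (Ω := Ω) h0
  have hI : IsoE v (hv k) φ := ⟨hφ⟩
  have : CharP (HF k) p := charP_of_injective_algebraMap (algebraMap k (HF k)).injective p
  have : PerfectRing k p := PerfectField.toPerfectRing p
  have : Fact (Ctx0 k (hv k)) := ⟨TWS.ctx0_hv k⟩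
  refine PTn.of_map hI hc (PTn.down (TWS.completeV_hv k) (exists_ms (TWS.exists_val k)) hm N n
    (h.map hI hc) ((hI.cld_iff hc).2 hL) ((hI.cld_iff hc).2 hK) (Dense.map_le_map_iff.2 hKL) ?_)
  rintro _ ⟨a, ha, rfl⟩
  exact ⟨a ^ p ^ n, hLK a ha, map_pow φ a _⟩

theorem PTn.upC (h0 : Ctx0 k v) (hc : CompleteV v) (hm : m ≤ 2) (hL : Cld v L) (hK : Cld v K)
    (hKL : K ≤ L) {n : ℕ} (hLK : ∀ a ∈ L, a ^ p ^ n ∈ K) {N : ℕ} (h : PTn p v m K (N + n)) :
    PTn p v m L N := by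
  obtain ⟨φ, hφ⟩ := TWS.exists_emb (Ω := Ω) h0
  have hI : IsoE v (hv k) φ := ⟨hφ⟩
  have : CharP (HF k) p := charP_of_injective_algebraMap (algebraMap k (HF k)).injective p
  have : PerfectRing k p := PerfectField.toPerfectRing p
  have : Fact (Ctx0 k (hv k)) := ⟨TWS.ctx0_hv k⟩
  refine PTn.of_map hI hc (PTn.up (TWS.completeV_hv k) (exists_ms (TWS.exists_val k)) hm
    (h.map hI hc) ((hI.cld_iff hc).2 hK) ((hI.cld_iff hc).2 hL) (Dense.map_le_map_iff.2 hKL) ?_)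
  rintro _ ⟨a, ha, rfl⟩
  exact ⟨a ^ p ^ n, hLK a ha, map_pow φ a _⟩

/-- **TOWERS OVER TIGHT PAIRS ARE ISOGENY INVARIANT.** -/
theorem PTn.isog (h0 : Ctx0 k v) (hc : CompleteV v) (hm : m ≤ 2) (hL : Cld v L) (hK : Cld v K)
    (hKL : K ≤ L) (n : ℕ) (hLK : ∀ a ∈ L, a ^ p ^ n ∈ K) :
    (∀ N, PTn p v m K N) ↔ ∀ N, PTn p v m L N :=
  ⟨fun h N => (h (N + n)).upC h0 hc hm hL hK hKL hLK,
    fun h N => (h (N + n)).downC h0 hc hm hL hK hKL hLK⟩

/-- The completion of `(Ω, v)` contains towers over tight pairs for the closure of `E`, their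
resonances are good up to any bound. -/
def TPn (p : ℕ) (v : RVal Ω) (m : ℕ) (E : IntermediateField k Ω) : Prop :=
  ∃ (Ω' : Type u) (_ : Field Ω') (_ : Algebra k Ω') (ι : Ω →ₐ[k] Ω') (v' : RVal Ω')
    (_ : IsAlgClosed Ω'), CompleteV v' ∧ Dense v v' ι ∧
      ∀ N, PTn p v' m (clI v' (E.map ι)) N

omit [IsAlgClosed Ω] in
/-- **`TPn` IS ISOGENY INVARIANT.** -/
theorem TPn.isog (h0 : Ctx0 k v) (hm : m ≤ 2) (hKE : K ≤ E) (e : ℕ)
    (hEK : ∀ a ∈ E, a ^ p ^ e ∈ K) : TPn p v m E ↔ TPn p v m K := by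
  have key : ∀ (Ω' : Type u) (iF : Field Ω') (iA : Algebra k Ω') (ι : Ω →ₐ[k] Ω') (w : RVal Ω')
      (iC : IsAlgClosed Ω'), CompleteV w → Dense v w ι →
      ((∀ N, PTn p w m (clI w (K.map ι)) N) ↔ ∀ N, PTn p w m (clI w (E.map ι)) N) := by
    intro Ω' _ _ ι w _ hcw hD
    have : CharP Ω' p := Dense.charP ι p
    refine PTn.isog (hD.ctx0 h0) hcw hm (cld_clI w _) (cld_clI w _)
      (clI_mono' (Dense.map_le_map_iff.2 hKE)) e ?_
    have h1 : clI w (E.map ι) ≤ D2P.rootF p e (clI w (K.map ι)) := by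
      refine clI_le' ?_ (cld_rootFn p e (cld_clI w _))
      rintro _ ⟨a, ha, rfl⟩
      exact mem_rootF.2 (self_le_clI w _ ⟨a ^ p ^ e, hEK a ha, map_pow ι a _⟩)
    exact fun a ha => mem_rootF.1 (h1 ha)
  constructor
  · rintro ⟨Ω', iF, iA, ι, w, iC, h2, h3, h4⟩
    exact ⟨Ω', iF, iA, ι, w, iC, h2, h3, (key Ω' iF iA ι w iC h2 h3).2 h4⟩
  · rintro ⟨Ω', iF, iA, ι, w, iC, h2, h3, h4⟩
    exact ⟨Ω', iF, iA, ι, w, iC, h2, h3, (key Ω' iF iA ι w iC h2 h3).1 h4⟩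

omit [IsAlgClosed Ω] in
/-- `TPn` gives `TPc`. -/
theorem TPn.tpc (h : TPn p v m E) : TPc p v m E := by
  obtain ⟨Ω', iF, iA, ι, w, iC, h2, h3, h4⟩ := h
  have : CharP Ω' p := Dense.charP ι p
  obtain ⟨x, y, r, s, h5, -⟩ := h4 0
  exact ⟨Ω', iF, iA, ι, w, iC, h2, h3, x, y, r, s, h5.ne, h5.lt,
    transc_of_far h5.tp.tgt.root h5.tp.mem h5.tp.root h5.tp.far, h5.tp, h5.tow⟩

end Isog

end Pool.Agent.TWC
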